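import Mathlib

/-!
Definitions used in the statement about good reductions of fusion categories.
-/

open CategoryTheory MonoidalCategory Limits TensorProduct

namespace Pool.Agent.Lib.MP_21cf63_al

universe u v w u' v' w'

/-- Semisimple rigid tensor category over the commutative ring `R`: an `R`-linear monoidal
category with finite biproducts, with left and right duals, and with a finite family of objects
`X i`, the unit among them, such that `Hom (X i) (X j) = 0` for `i ≠ j`, `End (X i) = R`, and every
object is a finite direct sum of objects `X i`. -/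
structure SemisimpleRigid (R : Type w) [CommRing R] (C : Type u) [Category.{v} C]
    [Preadditive C] [Linear R C] [MonoidalCategory C] [MonoidalPreadditive C]
    [MonoidalLinear R C] : Prop where
  hasFiniteBiproducts : HasFiniteBiproducts C
  leftDual : ∀ X : C, Nonempty (HasLeftDual X)
  rightDual : ∀ X : C, Nonempty (HasRightDual X)
  simples : ∃ (ι : Type) (_ : Finite ι) (X : ι → C) (o : ι), Nonempty (X o ≅ 𝟙_ C) ∧
    (∀ i j, i ≠ j → ∀ f : X i ⟶ X j, f = 0) ∧
    (∀ i, Function.Bijective (fun r : R => r • 𝟙 (X i))) ∧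
    ∀ Z : C, ∃ (n : ℕ) (s : Fin n → ι) (p : ∀ a, Z ⟶ X (s a)) (q : ∀ a, X (s a) ⟶ Z),
      (∀ a, q a ≫ p a = 𝟙 (X (s a))) ∧ (∀ a b, a ≠ b → q a ≫ p b = 0) ∧
      ∑ a, p a ≫ q a = 𝟙 Z

/-- A functor `F : D ⥤ E` from an `R`-linear category to an `S`-linear category is an extension of
scalars along `R → S` if every object of `E` is isomorphic to some `F X` and, for all `X Y`, the map
`S ⊗ Hom (X, Y) → Hom (F X, F Y)`, `s ⊗ f ↦ s • F f`, is well defined and bijective. -/
structure IsScalarExtension (R : Type w) [CommRing R] (S : Type w') [CommRing S] [Algebra R S]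
    {D : Type u} [Category.{v} D] [Preadditive D] [Linear R D]
    {E : Type u'} [Category.{v'} E] [Preadditive E] [Linear S E] (F : D ⥤ E) : Prop where
  essSurj : ∀ Z : E, ∃ X : D, Nonempty (F.obj X ≅ Z)
  bij : ∀ X Y : D, ∃ e : S ⊗[R] (X ⟶ Y) ≃+ (F.obj X ⟶ F.obj Y),
    ∀ (s : S) (f : X ⟶ Y), e (s ⊗ₜ[R] f) = s • F.map f

/-- The ring of integers of the algebraic closure `PadicAlgCl p` of `ℚ_p`. -/
abbrev Zbar (p : ℕ) [Fact p.Prime] : Type := integralClosure ℤ_[p] (PadicAlgCl p)

/-- `E`, a linear monoidal category over a field `k` (the residue field of `Zbar p`), is a good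
reduction modulo `p` of the linear monoidal category `C` over the algebraic closure of `ℚ`: `E` is
semisimple rigid, and there are a semisimple rigid tensor category `D` over `Zbar p`, a monoidal
functor `F : D ⥤ E` which is an extension of scalars along `Zbar p → k` (so `E` is the base change
of `D`), and an extension of scalars `CK` of `C` to `PadicAlgCl p` with a monoidal functor
`G : D ⥤ CK` which is an extension of scalars along `Zbar p → PadicAlgCl p`. -/
def IsGoodReduction (p : ℕ) [Fact p.Prime] (k : Type w) [Field k] [Algebra (Zbar p) k]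
    [Algebra (AlgebraicClosure ℚ) (PadicAlgCl p)]
    (C : Type u) [Category.{v} C] [Preadditive C] [Linear (AlgebraicClosure ℚ) C]
    [MonoidalCategory C] [MonoidalPreadditive C] [MonoidalLinear (AlgebraicClosure ℚ) C]
    (E : Type u) [Category.{v} E] [Preadditive E] [Linear k E]
    [MonoidalCategory E] [MonoidalPreadditive E] [MonoidalLinear k E] : Prop :=
  SemisimpleRigid k E ∧
  ∃ (CK : Type u) (_ : Category.{v} CK) (_ : Preadditive CK) (_ : Linear (PadicAlgCl p) CK)
    (_ : MonoidalCategory CK) (_ : MonoidalPreadditive CK) (_ : MonoidalLinear (PadicAlgCl p) CK)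
    (H : C ⥤ CK) (_ : H.Monoidal),
    IsScalarExtension (AlgebraicClosure ℚ) (PadicAlgCl p) H ∧
    ∃ (D : Type u) (_ : Category.{v} D) (_ : Preadditive D) (_ : Linear (Zbar p) D)
      (_ : MonoidalCategory D) (_ : MonoidalPreadditive D) (_ : MonoidalLinear (Zbar p) D),
      SemisimpleRigid (Zbar p) D ∧
      ∃ (F : D ⥤ E) (_ : F.Monoidal) (G : D ⥤ CK) (_ : G.Monoidal),
        IsScalarExtension (Zbar p) k F ∧ IsScalarExtension (Zbar p) (PadicAlgCl p) G

end Pool.Agent.Lib.MP_21cf63_al
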