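import Mathlib

/-!
Families of simple objects in semisimple linear categories.
-/

open CategoryTheory MonoidalCategory Limits

namespace Pool.Agent.Lib.MP_21cf63_al

universe v u w

/-- A finite family of objects `X i` with `Hom (X i, X j) = δ_{ij} R` such that every object is a
finite direct sum of the `X i`. -/
structure SFam (R : Type w) [CommRing R] (C : Type u) [Category.{v} C] [Preadditive C]
    [Linear R C] (ι : Type) [Fintype ι] where
  X : ι → C
  hom_zero : ∀ i j, i ≠ j → ∀ f : X i ⟶ X j, f = 0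
  end_bij : ∀ i, Function.Bijective (fun r : R => r • 𝟙 (X i))
  decomp : ∀ Z : C, ∃ (n : ι → ℕ) (p : ∀ i, Fin (n i) → (Z ⟶ X i))
    (q : ∀ i, Fin (n i) → (X i ⟶ Z)),
    (∀ i a b, q i a ≫ p i b = if a = b then 𝟙 _ else 0) ∧ ∑ i, ∑ a, p i a ≫ q i a = 𝟙 Z

namespace SFam

variable {R : Type w} [CommRing R] {C : Type u} [Category.{v} C] [Preadditive C]
    [Linear R C] {ι : Type} [Fintype ι] (S : SFam R C ι)

/-- multiplicity of `X i` in `Z` -/
noncomputable def n (Z : C) (i : ι) : ℕ := (S.decomp Z).choose i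

/-- projections -/
noncomputable def p (Z : C) (i : ι) (a : Fin (S.n Z i)) : Z ⟶ S.X i :=
  (S.decomp Z).choose_spec.choose i a

/-- inclusions -/
noncomputable def q (Z : C) (i : ι) (a : Fin (S.n Z i)) : S.X i ⟶ Z :=
  (S.decomp Z).choose_spec.choose_spec.choose i a

lemma q_p (Z : C) (i : ι) (a b : Fin (S.n Z i)) :
    S.q Z i a ≫ S.p Z i b = if a = b then 𝟙 _ else 0 :=
  (S.decomp Z).choose_spec.choose_spec.choose_spec.1 i a b

lemma q_p_self (Z : C) (i : ι) (a : Fin (S.n Z i)) : S.q Z i a ≫ S.p Z i a = 𝟙 _ := by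
  rw [q_p, if_pos rfl]

lemma total (Z : C) : ∑ i, ∑ a, S.p Z i a ≫ S.q Z i a = 𝟙 Z :=
  (S.decomp Z).choose_spec.choose_spec.choose_spec.2

lemma comp_total {Y Z : C} (f : Y ⟶ Z) :
    f = ∑ i, ∑ a, (f ≫ S.p Z i a) ≫ S.q Z i a := by
  conv_lhs => rw [← Category.comp_id f, ← S.total Z]
  simp only [Preadditive.comp_sum, Category.assoc]

lemma total_comp {Y Z : C} (f : Y ⟶ Z) :
    f = ∑ i, ∑ a, S.p Y i a ≫ (S.q Y i a ≫ f) := by
  conv_lhs => rw [← Category.id_comp f, ← S.total Y]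
  simp only [Preadditive.sum_comp, Category.assoc]

/-- scalar of an endomorphism of a simple object -/
noncomputable def sc {i : ι} (f : S.X i ⟶ S.X i) : R := ((S.end_bij i).2 f).choose

lemma sc_smul {i : ι} (f : S.X i ⟶ S.X i) : S.sc f • 𝟙 (S.X i) = f :=
  ((S.end_bij i).2 f).choose_spec

lemma smul_id_inj {i : ι} {r s : R} (h : r • 𝟙 (S.X i) = s • 𝟙 (S.X i)) : r = s :=
  (S.end_bij i).1 h

lemma sc_eq_iff {i : ι} (f : S.X i ⟶ S.X i) (r : R) : S.sc f = r ↔ f = r • 𝟙 (S.X i) := by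
  constructor
  · intro h
    rw [← h, sc_smul]
  · intro h
    apply S.smul_id_inj
    rw [sc_smul, h]

@[simp] lemma sc_smul_id {i : ι} (r : R) : S.sc (r • 𝟙 (S.X i)) = r := (S.sc_eq_iff _ _).2 rfl

@[simp] lemma sc_id {i : ι} : S.sc (𝟙 (S.X i)) = 1 := (S.sc_eq_iff _ _).2 (one_smul _ _).symm

@[simp] lemma sc_zero {i : ι} : S.sc (0 : S.X i ⟶ S.X i) = 0 :=
  (S.sc_eq_iff _ _).2 (zero_smul _ _).symm

lemma sc_add {i : ι} (f g : S.X i ⟶ S.X i) : S.sc (f + g) = S.sc f + S.sc g := by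
  rw [sc_eq_iff, add_smul, sc_smul, sc_smul]

lemma sc_smul' {i : ι} (r : R) (f : S.X i ⟶ S.X i) : S.sc (r • f) = r * S.sc f := by
  rw [sc_eq_iff, mul_smul, sc_smul]

lemma sc_comp {i : ι} (f g : S.X i ⟶ S.X i) : S.sc (f ≫ g) = S.sc f * S.sc g := by
  rw [sc_eq_iff]
  conv_lhs => rw [← S.sc_smul f, ← S.sc_smul g]
  rw [Linear.smul_comp, Linear.comp_smul, Category.comp_id, mul_smul]

lemma comp_eq_smul {i : ι} {Z : C} (f : S.X i ⟶ S.X i) (g : S.X i ⟶ Z) :
    f ≫ g = S.sc f • g := by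
  conv_lhs => rw [← S.sc_smul f]
  rw [Linear.smul_comp, Category.id_comp]

lemma comp_eq_smul' {i : ι} {Z : C} (g : Z ⟶ S.X i) (f : S.X i ⟶ S.X i) :
    g ≫ f = S.sc f • g := by
  conv_lhs => rw [← S.sc_smul f]
  rw [Linear.comp_smul, Category.comp_id]

/-- a morphism from a simple object is a combination of the inclusions -/
lemma from_simple {Z : C} {i : ι} (f : S.X i ⟶ Z) :
    f = ∑ a, S.sc (f ≫ S.p Z i a) • S.q Z i a := by
  classical
  conv_lhs => rw [S.comp_total f]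
  rw [Finset.sum_eq_single i]
  · refine Finset.sum_congr rfl fun a _ => ?_
    rw [comp_eq_smul]
  · intro j _ hj
    refine Finset.sum_eq_zero fun a _ => ?_
    rw [S.hom_zero i j (Ne.symm hj) (f ≫ S.p Z j a), zero_comp]
  · intro h
    exact absurd (Finset.mem_univ i) h

lemma to_simple {Z : C} {i : ι} (f : Z ⟶ S.X i) :
    f = ∑ a, S.sc (S.q Z i a ≫ f) • S.p Z i a := by
  classical
  conv_lhs => rw [S.total_comp f]
  rw [Finset.sum_eq_single i]
  · refine Finset.sum_congr rfl fun a _ => ?_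
    rw [comp_eq_smul']
  · intro j _ hj
    refine Finset.sum_eq_zero fun a _ => ?_
    rw [S.hom_zero j i hj (S.q Z j a ≫ f), comp_zero]
  · intro h
    exact absurd (Finset.mem_univ i) h

/-- a morphism vanishing on all simple test objects is zero -/
lemma ext_from {Y Z : C} {f g : Y ⟶ Z} (h : ∀ i (x : S.X i ⟶ Y), x ≫ f = x ≫ g) : f = g := by
  rw [S.total_comp f, S.total_comp g]
  simp only [h]

lemma ext_to {Y Z : C} {f g : Y ⟶ Z} (h : ∀ i (x : Z ⟶ S.X i), f ≫ x = g ≫ x) : f = g := by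
  rw [S.comp_total f, S.comp_total g]
  simp only [h]

/-- a functional on `Hom (X i, Z)` is represented by a morphism -/
lemma exists_repr {Z : C} {i : ι} (φ : (S.X i ⟶ Z) →ₗ[R] R) :
    ∃ g : Z ⟶ S.X i, ∀ x : S.X i ⟶ Z, x ≫ g = φ x • 𝟙 _ := by
  refine ⟨∑ a, φ (S.q Z i a) • S.p Z i a, fun x => ?_⟩
  conv_rhs => rw [S.from_simple x]
  simp only [Preadditive.comp_sum, Linear.comp_smul, map_sum, map_smul, smul_eq_mul,
    Finset.sum_smul]
  refine Finset.sum_congr rfl fun a _ => ?_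
  rw [mul_comm, mul_smul, sc_smul]

end SFam

end Pool.Agent.Lib.MP_21cf63_al
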