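import Mathlib
import Pool.Agent.Lib.MP_21cf63_al.Defs
import Pool.Agent.Lib.MP_21cf63_al.Basic

open CategoryTheory MonoidalCategory Limits TensorProduct

namespace Pool.Agent.Lib.MP_21cf63_al

/-- H7: two monoidal categories `A`, `B` with an essentially surjective common index type `T` and
matching hom sets (compatible with all structure) are monoidally equivalent. -/
theorem H7_transport {S : Type*} [CommRing S]
    {A : Type*} [Category A] [Preadditive A] [Linear S A] [MonoidalCategory A]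
    {B : Type*} [Category B] [Preadditive B] [Linear S B] [MonoidalCategory B]
    {T : Type*} (a : T → A) (b : T → B)
    (ha : ∀ X : A, ∃ t, Nonempty (a t ≅ X)) (hb : ∀ X : B, ∃ t, Nonempty (b t ≅ X))
    (θ : ∀ s t, (a s ⟶ a t) ≃ (b s ⟶ b t))
    (hadd : ∀ s t (f g : a s ⟶ a t), θ s t (f + g) = θ s t f + θ s t g)
    (hsmul : ∀ s t (r : S) (f : a s ⟶ a t), θ s t (r • f) = r • θ s t f)
    (hid : ∀ t, θ t t (𝟙 _) = 𝟙 _)
    (hcomp : ∀ s t u (f : a s ⟶ a t) (g : a t ⟶ a u), θ s u (f ≫ g) = θ s t f ≫ θ t u g)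
    (ten : T → T → T) (un : T)
    (μa : ∀ s t, a s ⊗ a t ≅ a (ten s t)) (μb : ∀ s t, b s ⊗ b t ≅ b (ten s t))
    (εa : 𝟙_ A ≅ a un) (εb : 𝟙_ B ≅ b un)
    (hl : ∀ s t t' (f : a t ⟶ a t'), θ _ _ ((μa s t).inv ≫ (a s ◁ f) ≫ (μa s t').hom) =
      (μb s t).inv ≫ (b s ◁ θ _ _ f) ≫ (μb s t').hom)
    (hr : ∀ s s' t (f : a s ⟶ a s'), θ _ _ ((μa s t).inv ≫ (f ▷ a t) ≫ (μa s' t).hom) =
      (μb s t).inv ≫ (θ _ _ f ▷ b t) ≫ (μb s' t).hom)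
    (hα : ∀ s t u, θ _ _ ((μa (ten s t) u).inv ≫ ((μa s t).inv ▷ a u) ≫ (α_ _ _ _).hom ≫
      (a s ◁ (μa t u).hom) ≫ (μa s (ten t u)).hom) =
      (μb (ten s t) u).inv ≫ ((μb s t).inv ▷ b u) ≫ (α_ _ _ _).hom ≫
      (b s ◁ (μb t u).hom) ≫ (μb s (ten t u)).hom)
    (hlam : ∀ t, θ _ _ ((μa un t).inv ≫ (εa.inv ▷ a t) ≫ (λ_ _).hom) =
      (μb un t).inv ≫ (εb.inv ▷ b t) ≫ (λ_ _).hom)
    (hrho : ∀ t, θ _ _ ((μa t un).inv ≫ (a t ◁ εa.inv) ≫ (ρ_ _).hom) =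
      (μb t un).inv ≫ (b t ◁ εb.inv) ≫ (ρ_ _).hom) :
    ∃ e : A ≌ B, Nonempty e.functor.Monoidal ∧ e.functor.Additive ∧
      ∀ (r : S) (X Y : A) (f : X ⟶ Y), e.functor.map (r • f) = r • e.functor.map f := by
  choose τ hτ using ha
  let i : ∀ X : A, a (τ X) ≅ X := fun X => (hτ X).some
  -- isomorphisms
  let Θ : ∀ s t, (a s ≅ a t) → (b s ≅ b t) := fun s t e =>
    ⟨θ s t e.hom, θ t s e.inv, by rw [← hcomp, e.hom_inv_id, hid],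
      by rw [← hcomp, e.inv_hom_id, hid]⟩
  let F : A ⥤ B :=
    { obj := fun X => b (τ X)
      map := fun {X Y} f => θ _ _ ((i X).hom ≫ f ≫ (i Y).inv)
      map_id := fun X => by
        rw [Category.id_comp, Iso.hom_inv_id, hid]
      map_comp := fun {X Y Z} f g => by
        rw [← hcomp]; congr 1; simp }
  have Fmap : ∀ {X Y : A} (f : X ⟶ Y), F.map f = θ _ _ ((i X).hom ≫ f ≫ (i Y).inv) :=
    fun f => rfl
  -- transfers of maps out of a tensor product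
  let Θ2 : ∀ s t u, (a s ⊗ a t ⟶ a u) → (b s ⊗ b t ⟶ b u) := fun s t u h =>
    (μb s t).hom ≫ θ _ _ ((μa s t).inv ≫ h)
  have hL : ∀ s t t' u (f : a t ⟶ a t') (h : a s ⊗ a t' ⟶ a u),
      (b s ◁ θ _ _ f) ≫ Θ2 s t' u h = Θ2 s t u ((a s ◁ f) ≫ h) := by
    intro s t t' u f h
    have h1 : (b s ◁ θ _ _ f) ≫ (μb s t').hom =
        (μb s t).hom ≫ θ _ _ ((μa s t).inv ≫ (a s ◁ f) ≫ (μa s t').hom) := by
      rw [hl]; simp
    show (b s ◁ θ _ _ f) ≫ (μb s t').hom ≫ θ _ _ ((μa s t').inv ≫ h) = _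
    rw [← Category.assoc, h1, Category.assoc, ← hcomp]
    simp only [Category.assoc, Iso.hom_inv_id_assoc]
    rfl
  have hR : ∀ s s' t u (f : a s ⟶ a s') (h : a s' ⊗ a t ⟶ a u),
      (θ _ _ f ▷ b t) ≫ Θ2 s' t u h = Θ2 s t u ((f ▷ a t) ≫ h) := by
    intro s s' t u f h
    have h1 : (θ _ _ f ▷ b t) ≫ (μb s' t).hom =
        (μb s t).hom ≫ θ _ _ ((μa s t).inv ≫ (f ▷ a t) ≫ (μa s' t).hom) := by
      rw [hr]; simp
    show (θ _ _ f ▷ b t) ≫ (μb s' t).hom ≫ θ _ _ ((μa s' t).inv ≫ h) = _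
    rw [← Category.assoc, h1, Category.assoc, ← hcomp]
    simp only [Category.assoc, Iso.hom_inv_id_assoc]
    rfl
  have hC : ∀ s t u v (h : a s ⊗ a t ⟶ a u) (g : a u ⟶ a v),
      Θ2 s t u h ≫ θ _ _ g = Θ2 s t v (h ≫ g) := by
    intro s t u v h g
    show ((μb s t).hom ≫ θ _ _ ((μa s t).inv ≫ h)) ≫ θ _ _ g = _
    rw [Category.assoc, ← hcomp, Category.assoc]
  have hLeft : ∀ s t u v w (h₁ : a s ⊗ a t ⟶ a u) (h₂ : a u ⊗ a w ⟶ a v),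
      (Θ2 s t u h₁ ▷ b w) ≫ Θ2 u w v h₂ = ((μb s t).hom ▷ b w) ≫ (μb (ten s t) w).hom ≫
        θ _ _ ((μa (ten s t) w).inv ≫ ((μa s t).inv ▷ a w) ≫ (h₁ ▷ a w) ≫ h₂) := by
    intro s t u v w h₁ h₂
    show (((μb s t).hom ≫ θ _ _ ((μa s t).inv ≫ h₁)) ▷ b w) ≫ Θ2 u w v h₂ = _
    rw [comp_whiskerRight, Category.assoc, hR, comp_whiskerRight, Category.assoc]
  have hRight : ∀ s t u v w (h₁ : a s ⊗ a t ⟶ a u) (h₂ : a w ⊗ a u ⟶ a v),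
      (b w ◁ Θ2 s t u h₁) ≫ Θ2 w u v h₂ = (b w ◁ (μb s t).hom) ≫ (μb w (ten s t)).hom ≫
        θ _ _ ((μa w (ten s t)).inv ≫ (a w ◁ (μa s t).inv) ≫ (a w ◁ h₁) ≫ h₂) := by
    intro s t u v w h₁ h₂
    show (b w ◁ ((μb s t).hom ≫ θ _ _ ((μa s t).inv ≫ h₁))) ≫ Θ2 w u v h₂ = _
    rw [whiskerLeft_comp, Category.assoc, hL, whiskerLeft_comp, Category.assoc]
  have hA : ∀ s t u v (h : a (ten s (ten t u)) ⟶ a v),
      (α_ (b s) (b t) (b u)).hom ≫ (b s ◁ (μb t u).hom) ≫ (μb s (ten t u)).hom ≫ θ _ _ h =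
      ((μb s t).hom ▷ b u) ≫ (μb (ten s t) u).hom ≫
        θ _ _ ((μa (ten s t) u).inv ≫ ((μa s t).inv ▷ a u) ≫ (α_ _ _ _).hom ≫
      (a s ◁ (μa t u).hom) ≫ (μa s (ten t u)).hom ≫ h) := by
    intro s t u v h
    have h1 := hα s t u
    have h2 : (α_ (b s) (b t) (b u)).hom ≫ (b s ◁ (μb t u).hom) ≫ (μb s (ten t u)).hom =
        ((μb s t).hom ▷ b u) ≫ (μb (ten s t) u).hom ≫
        θ _ _ ((μa (ten s t) u).inv ≫ ((μa s t).inv ▷ a u) ≫ (α_ _ _ _).hom ≫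
      (a s ◁ (μa t u).hom) ≫ (μa s (ten t u)).hom) := by
      rw [h1, Iso.hom_inv_id_assoc, hom_inv_whiskerRight_assoc]
    have h3 := congrArg (fun z => z ≫ θ _ _ h) h2
    simp only [Category.assoc] at h3
    rw [h3, ← hcomp]
    simp only [Category.assoc]
  let coreM : F.CoreMonoidal :=
    { εIso := εb ≪≫ Θ _ _ (εa.symm ≪≫ (i (𝟙_ A)).symm)
      μIso := fun X Y => μb _ _ ≪≫ Θ _ _ ((μa (τ X) (τ Y)).symm ≪≫
        (tensorIso (i X) (i Y)) ≪≫ (i (X ⊗ Y)).symm)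
      μIso_hom_natural_left := fun {X Y} f X' => by
        show F.map f ▷ b (τ X') ≫ Θ2 _ _ _ (((i Y).hom ⊗ₘ (i X').hom) ≫ (i (Y ⊗ X')).inv) =
          Θ2 _ _ _ (((i X).hom ⊗ₘ (i X').hom) ≫ (i (X ⊗ X')).inv) ≫ F.map (f ▷ X')
        rw [Fmap, hR, Fmap, hC]
        congr 1
        simp only [Category.assoc, Iso.inv_hom_id_assoc, MonoidalCategory.tensorHom_def,
          comp_whiskerRight, inv_hom_whiskerRight_assoc, whisker_exchange_assoc]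
      μIso_hom_natural_right := fun {X Y} X' f => by
        show b (τ X') ◁ F.map f ≫ Θ2 _ _ _ (((i X').hom ⊗ₘ (i Y).hom) ≫ (i (X' ⊗ Y)).inv) =
          Θ2 _ _ _ (((i X').hom ⊗ₘ (i X).hom) ≫ (i (X' ⊗ X)).inv) ≫ F.map (X' ◁ f)
        rw [Fmap, hL, Fmap, hC]
        congr 1
        simp only [Category.assoc, Iso.inv_hom_id_assoc, MonoidalCategory.tensorHom_def',
          whiskerLeft_comp, whiskerLeft_inv_hom_assoc, ← whisker_exchange_assoc]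
      associativity := fun X Y Z => by
        show Θ2 _ _ _ (((i X).hom ⊗ₘ (i Y).hom) ≫ (i (X ⊗ Y)).inv) ▷ b (τ Z) ≫
          Θ2 _ _ _ (((i (X ⊗ Y)).hom ⊗ₘ (i Z).hom) ≫ (i ((X ⊗ Y) ⊗ Z)).inv) ≫
            F.map (α_ X Y Z).hom = (α_ _ _ _).hom ≫
          b (τ X) ◁ Θ2 _ _ _ (((i Y).hom ⊗ₘ (i Z).hom) ≫ (i (Y ⊗ Z)).inv) ≫
          Θ2 _ _ _ (((i X).hom ⊗ₘ (i (Y ⊗ Z)).hom) ≫ (i (X ⊗ (Y ⊗ Z))).inv)
        rw [Fmap, hC, hLeft, hRight, hA]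
        congr 3
        simp only [Category.assoc, Iso.inv_hom_id_assoc, Iso.hom_inv_id_assoc,
          whiskerLeft_hom_inv_assoc, comp_whiskerRight, whiskerLeft_comp]
        congr 2
        have h1 : (((i X).hom ⊗ₘ (i Y).hom) ▷ a (τ Z)) ≫ ((i (X ⊗ Y)).inv ▷ a (τ Z)) ≫
            ((i (X ⊗ Y)).hom ⊗ₘ (i Z).hom) = ((i X).hom ⊗ₘ (i Y).hom) ⊗ₘ (i Z).hom := by
          rw [MonoidalCategory.tensorHom_def (i (X ⊗ Y)).hom, inv_hom_whiskerRight_assoc,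
            ← MonoidalCategory.tensorHom_def]
        have h2 : (a (τ X) ◁ ((i Y).hom ⊗ₘ (i Z).hom)) ≫ (a (τ X) ◁ (i (Y ⊗ Z)).inv) ≫
            ((i X).hom ⊗ₘ (i (Y ⊗ Z)).hom) = (i X).hom ⊗ₘ ((i Y).hom ⊗ₘ (i Z).hom) := by
          rw [MonoidalCategory.tensorHom_def' _ (i (Y ⊗ Z)).hom, whiskerLeft_inv_hom_assoc,
            ← MonoidalCategory.tensorHom_def']
        rw [reassoc_of% h1, reassoc_of% h2, associator_naturality_assoc]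
      left_unitality := fun X => by
        show (λ_ (b (τ X))).hom = (εb.hom ≫ θ _ _ (εa.inv ≫ (i (𝟙_ A)).inv)) ▷ b (τ X) ≫
          Θ2 _ _ _ (((i (𝟙_ A)).hom ⊗ₘ (i X).hom) ≫ (i (𝟙_ A ⊗ X)).inv) ≫ F.map (λ_ X).hom
        rw [Fmap, hC, comp_whiskerRight, Category.assoc, hR]
        have h1 : (εa.inv ≫ (i (𝟙_ A)).inv) ▷ a (τ X) ≫
            (((i (𝟙_ A)).hom ⊗ₘ (i X).hom) ≫ (i (𝟙_ A ⊗ X)).inv) ≫
            ((i (𝟙_ A ⊗ X)).hom ≫ (λ_ X).hom ≫ (i X).inv) =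
            (εa.inv ▷ a (τ X)) ≫ (λ_ (a (τ X))).hom := by
          simp only [Category.assoc, Iso.inv_hom_id_assoc, comp_whiskerRight]
          rw [MonoidalCategory.tensorHom_def, Category.assoc, inv_hom_whiskerRight_assoc]
          rw [leftUnitor_naturality_assoc, Iso.hom_inv_id, Category.comp_id]
        rw [h1]
        show _ = (εb.hom ▷ b (τ X)) ≫ (μb _ _).hom ≫ θ _ _ ((μa _ _).inv ≫ _)
        rw [hlam, Iso.hom_inv_id_assoc, hom_inv_whiskerRight_assoc]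
      right_unitality := fun X => by
        show (ρ_ (b (τ X))).hom = b (τ X) ◁ (εb.hom ≫ θ _ _ (εa.inv ≫ (i (𝟙_ A)).inv)) ≫
          Θ2 _ _ _ (((i X).hom ⊗ₘ (i (𝟙_ A)).hom) ≫ (i (X ⊗ 𝟙_ A)).inv) ≫ F.map (ρ_ X).hom
        rw [Fmap, hC, whiskerLeft_comp, Category.assoc, hL]
        have h1 : a (τ X) ◁ (εa.inv ≫ (i (𝟙_ A)).inv) ≫
            (((i X).hom ⊗ₘ (i (𝟙_ A)).hom) ≫ (i (X ⊗ 𝟙_ A)).inv) ≫
            ((i (X ⊗ 𝟙_ A)).hom ≫ (ρ_ X).hom ≫ (i X).inv) =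
            (a (τ X) ◁ εa.inv) ≫ (ρ_ (a (τ X))).hom := by
          simp only [Category.assoc, Iso.inv_hom_id_assoc, whiskerLeft_comp]
          rw [MonoidalCategory.tensorHom_def', Category.assoc, whiskerLeft_inv_hom_assoc]
          rw [rightUnitor_naturality_assoc, Iso.hom_inv_id, Category.comp_id]
        rw [h1]
        show _ = (b (τ X) ◁ εb.hom) ≫ (μb _ _).hom ≫ θ _ _ ((μa _ _).inv ≫ _)
        rw [hrho, Iso.hom_inv_id_assoc, whiskerLeft_hom_inv_assoc] }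
  have hfull : F.Full := ⟨fun {X Y} g => ⟨(i X).inv ≫ (θ _ _).symm g ≫ (i Y).hom, by
    rw [Fmap]; simp⟩⟩
  have hfaith : F.Faithful := ⟨fun {X Y} f g h => by
    rw [Fmap, Fmap] at h
    have h1 := (θ _ _).injective h
    rw [Iso.cancel_iso_hom_left, Iso.cancel_iso_inv_right] at h1
    exact h1⟩
  have hess : F.EssSurj := ⟨fun Z => by
    obtain ⟨t, ⟨j⟩⟩ := hb Z
    exact ⟨a t, ⟨Θ _ _ (i (a t)) ≪≫ j⟩⟩⟩
  have hequiv : F.IsEquivalence := {}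
  refine ⟨F.asEquivalence, ⟨coreM.toMonoidal⟩, ⟨fun {X Y f g} => ?_⟩, fun r X Y f => ?_⟩
  · show F.map (f + g) = F.map f + F.map g
    rw [Fmap, Fmap, Fmap, ← hadd]
    congr 1
    simp
  · show F.map (r • f) = r • F.map f
    rw [Fmap, Fmap, ← hsmul]
    congr 1
    simp

end Pool.Agent.Lib.MP_21cf63_al
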