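import Mathlib
import Pool.Agent.Lib.MP_21cf63_al.Defs
import Pool.Agent.Lib.MP_21cf63_al.Transport

/-!
Uniqueness of extension of scalars of monoidal linear categories.
-/

open CategoryTheory MonoidalCategory Limits TensorProduct

namespace Pool.Agent.Lib.MP_21cf63_al

namespace IsScalarExtension

variable {R : Type*} [CommRing R] {S : Type*} [CommRing S] [Algebra R S]
    {D : Type*} [Category D] [Preadditive D] [Linear R D]
    {E : Type*} [Category E] [Preadditive E] [Linear S E] {F : D ⥤ E}
    (h : IsScalarExtension R S F)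

include h in
/-- induction principle for morphisms between objects in the image of a scalar extension -/
theorem hom_induction {X Y : D} {P : (F.obj X ⟶ F.obj Y) → Prop}
    (hs : ∀ (s : S) (f : X ⟶ Y), P (s • F.map f)) (ha : ∀ f g, P f → P g → P (f + g))
    (f : F.obj X ⟶ F.obj Y) : P f := by
  obtain ⟨e, he⟩ := h.bij X Y
  obtain ⟨x, rfl⟩ := e.surjective f
  induction x using TensorProduct.induction_on with
  | zero =>
    have := hs 0 (0 : X ⟶ Y)
    rw [zero_smul] at this
    rwa [map_zero]
  | tmul s f => rw [he]; exact hs s f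
  | add x y hx hy => rw [map_add]; exact ha _ _ hx hy

/-- the chosen bijection -/
noncomputable def eq (X Y : D) : S ⊗[R] (X ⟶ Y) ≃+ (F.obj X ⟶ F.obj Y) := (h.bij X Y).choose

lemma eq_tmul (X Y : D) (s : S) (f : X ⟶ Y) : h.eq X Y (s ⊗ₜ[R] f) = s • F.map f :=
  (h.bij X Y).choose_spec s f

lemma eq_symm (X Y : D) (s : S) (f : X ⟶ Y) : (h.eq X Y).symm (s • F.map f) = s ⊗ₜ[R] f := by
  rw [AddEquiv.symm_apply_eq, eq_tmul]

end IsScalarExtension

/-- H8: uniqueness of the base change: two monoidal extensions of scalars of the same category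
are monoidally equivalent. -/
theorem H8_baseChange_unique {R : Type*} [CommRing R] {S : Type*} [CommRing S] [Algebra R S]
    {G : Type*} [Category G] [Preadditive G] [Linear R G] [MonoidalCategory G]
    {E₁ : Type*} [Category E₁] [Preadditive E₁] [Linear S E₁] [MonoidalCategory E₁]
    [MonoidalPreadditive E₁] [MonoidalLinear S E₁]
    {E₂ : Type*} [Category E₂] [Preadditive E₂] [Linear S E₂] [MonoidalCategory E₂]
    [MonoidalPreadditive E₂] [MonoidalLinear S E₂]
    (F₁ : G ⥤ E₁) [F₁.Monoidal] (F₂ : G ⥤ E₂) [F₂.Monoidal]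
    (h₁ : IsScalarExtension R S F₁) (h₂ : IsScalarExtension R S F₂) :
    ∃ e : E₁ ≌ E₂, Nonempty e.functor.Monoidal ∧ e.functor.Additive ∧
      ∀ (r : S) (X Y : E₁) (f : X ⟶ Y), e.functor.map (r • f) = r • e.functor.map f := by
  let θ : ∀ s t : G, (F₁.obj s ⟶ F₁.obj t) ≃+ (F₂.obj s ⟶ F₂.obj t) :=
    fun s t => (h₁.eq s t).symm.trans (h₂.eq s t)
  have θs : ∀ (s t : G) (r : S) (f : s ⟶ t), θ s t (r • F₁.map f) = r • F₂.map f := by
    intro s t r f
    simp only [θ, AddEquiv.trans_apply, h₁.eq_symm, h₂.eq_tmul]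
  have θm : ∀ (s t : G) (f : s ⟶ t), θ s t (F₁.map f) = F₂.map f := by
    intro s t f
    have := θs s t 1 f
    simpa using this
  have θsm : ∀ (s t : G) (r : S) (f : F₁.obj s ⟶ F₁.obj t), θ s t (r • f) = r • θ s t f := by
    intro s t r f
    refine h₁.hom_induction (P := fun f => θ s t (r • f) = r • θ s t f) ?_ ?_ f
    · intro s' f
      rw [smul_smul, θs, θs, smul_smul]
    · intro f g hf hg
      rw [smul_add, map_add, map_add, hf, hg, smul_add]
  refine H7_transport (S := S) F₁.obj F₂.obj h₁.essSurj h₂.essSurj (fun s t => (θ s t).toEquiv)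
    (fun s t f g => map_add (θ s t) f g) (fun s t r f => θsm s t r f) ?_ ?_
    (fun s t => s ⊗ t) (𝟙_ G) (fun s t => Functor.Monoidal.μIso F₁ s t)
    (fun s t => Functor.Monoidal.μIso F₂ s t) (Functor.Monoidal.εIso F₁)
    (Functor.Monoidal.εIso F₂) ?_ ?_ ?_ ?_ ?_
  · intro t
    have := θm t t (𝟙 t)
    rwa [F₁.map_id, F₂.map_id] at this
  · intro s t u f g
    show θ s u (f ≫ g) = θ s t f ≫ θ t u g
    refine h₁.hom_induction (P := fun f => θ s u (f ≫ g) = θ s t f ≫ θ t u g) ?_ ?_ f
    · intro r f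
      refine h₁.hom_induction
        (P := fun g => θ s u ((r • F₁.map f) ≫ g) = θ s t (r • F₁.map f) ≫ θ t u g) ?_ ?_ g
      · intro r' g
        rw [θs, θs, Linear.smul_comp, Linear.comp_smul, ← F₁.map_comp, θsm, θs,
          Linear.smul_comp, Linear.comp_smul, ← F₂.map_comp]
      · intro g g' hg hg'
        rw [Preadditive.comp_add, map_add, hg, hg', map_add, Preadditive.comp_add]
    · intro f f' hf hf'
      rw [Preadditive.add_comp, map_add, hf, hf', map_add, Preadditive.add_comp]
  · intro s t t' f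
    show θ _ _ (_ ≫ (_ ◁ f) ≫ _) = _ ≫ (_ ◁ θ _ _ f) ≫ _
    refine h₁.hom_induction (P := fun f => θ _ _ ((Functor.Monoidal.μIso F₁ s t).inv ≫
      (F₁.obj s ◁ f) ≫ (Functor.Monoidal.μIso F₁ s t').hom) =
      (Functor.Monoidal.μIso F₂ s t).inv ≫ (F₂.obj s ◁ θ _ _ f) ≫
        (Functor.Monoidal.μIso F₂ s t').hom) ?_ ?_ f
    · intro r f
      rw [θs, MonoidalLinear.whiskerLeft_smul, MonoidalLinear.whiskerLeft_smul, Linear.smul_comp,
        Linear.smul_comp, Linear.comp_smul, Linear.comp_smul, θsm]
      congr 1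
      have := θm _ _ (s ◁ f)
      rw [Functor.Monoidal.map_whiskerLeft, Functor.Monoidal.map_whiskerLeft] at this
      simpa using this
    · intro f g hf hg
      rw [MonoidalPreadditive.whiskerLeft_add, Preadditive.add_comp, Preadditive.comp_add, map_add,
        hf, hg, map_add, MonoidalPreadditive.whiskerLeft_add, Preadditive.add_comp,
        Preadditive.comp_add]
  · intro s s' t f
    show θ _ _ (_ ≫ (f ▷ _) ≫ _) = _ ≫ (θ _ _ f ▷ _) ≫ _
    refine h₁.hom_induction (P := fun f => θ _ _ ((Functor.Monoidal.μIso F₁ s t).inv ≫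
      (f ▷ F₁.obj t) ≫ (Functor.Monoidal.μIso F₁ s' t).hom) =
      (Functor.Monoidal.μIso F₂ s t).inv ≫ (θ _ _ f ▷ F₂.obj t) ≫
        (Functor.Monoidal.μIso F₂ s' t).hom) ?_ ?_ f
    · intro r f
      rw [θs, MonoidalLinear.smul_whiskerRight, MonoidalLinear.smul_whiskerRight,
        Linear.smul_comp, Linear.smul_comp, Linear.comp_smul, Linear.comp_smul, θsm]
      congr 1
      have := θm _ _ (f ▷ t)
      rw [Functor.Monoidal.map_whiskerRight, Functor.Monoidal.map_whiskerRight] at this
      simpa using this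
    · intro f g hf hg
      rw [MonoidalPreadditive.add_whiskerRight, Preadditive.add_comp, Preadditive.comp_add,
        map_add, hf, hg, map_add, MonoidalPreadditive.add_whiskerRight, Preadditive.add_comp,
        Preadditive.comp_add]
  · intro s t u
    have := θm _ _ (α_ s t u).hom
    rw [Functor.Monoidal.map_associator, Functor.Monoidal.map_associator] at this
    exact this
  · intro t
    have := θm _ _ (λ_ t).hom
    rw [Functor.Monoidal.map_leftUnitor, Functor.Monoidal.map_leftUnitor] at this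
    exact this
  · intro t
    have := θm _ _ (ρ_ t).hom
    rw [Functor.Monoidal.map_rightUnitor, Functor.Monoidal.map_rightUnitor] at this
    exact this

end Pool.Agent.Lib.MP_21cf63_al
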