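import Mathlib

namespace Pool.Agent.Lib.MP_21cf63_al

/-- H3: combinatorial lemma on tight triples. -/
theorem H3_comb {ι : Type*} [Finite ι] (T : ι → ι → ι → Prop) (o : ι) (star : ι → ι)
    (hT1 : ∀ i j m k l, T i j m → T m k l → ∃ n, T j k n ∧ T i n l)
    (hT2 : ∀ i j n k l, T j k n → T i n l → ∃ m, T i j m ∧ T m k l)
    (hol : ∀ j, T o j j) (hor : ∀ j, T j o j)
    (hstar : ∀ i j, T i j o → j = star i) (hss : ∀ i, star (star i) = i)
    (hsym : ∀ i, T i (star i) o → T (star i) i o)
    (hord : ∀ ord : ι → ℕ, ord o = 0 → (∀ i j k, T i j k → ord i + ord j ≤ ord k) →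
      ∀ i, ord i = 0)
    (hloop : ∀ j, (∃ i, ¬ T i (star i) o ∧ T i j j) → False) :
    ∀ i, T i (star i) o := by
  classical
  have _ := Fintype.ofFinite ι
  -- ideal property
  have hidl : ∀ i j k, T i j k → T k (star k) o → T i (star i) o := by
    intro i j k hijk hk
    obtain ⟨n, _, h2⟩ := hT1 i j k (star k) o hijk hk
    have := hstar i n h2
    subst this
    exact h2
  have hidr : ∀ i j k, T i j k → T k (star k) o → T j (star j) o := by
    intro i j k hijk hk
    obtain ⟨m, _, h2⟩ := hT2 (star k) i k j o hijk (hsym k hk)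
    have := hstar m j h2
    subst this
    have := hsym m h2
    rwa [hss]
  let R : ι → ι → Prop := fun j k => ∃ i, ¬ T i (star i) o ∧ T i j k
  have htrans : ∀ j k l, R j k → R k l → R j l := by
    rintro j k l ⟨i, hi, h1⟩ ⟨i', hi', h2⟩
    obtain ⟨m, hm1, hm2⟩ := hT2 i' i k j l h1 h2
    exact ⟨m, fun hm => hi' (hidl _ _ _ hm1 hm), hm2⟩
  have hirr : ∀ j, ¬ R j j := fun j h => hloop j h
  have hwf : WellFounded R := by
    have : IsTrans ι R := ⟨htrans⟩
    have : Std.Irrefl R := ⟨hirr⟩
    exact Finite.wellFounded_of_trans_of_irrefl R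
  let r : ι → ℕ := hwf.fix (fun k ih => Finset.univ.sup (fun j => if h : R j k then ih j h + 1 else 0))
  have hr : ∀ k, r k = Finset.univ.sup (fun j => if R j k then r j + 1 else 0) := by
    intro k
    have := hwf.fix_eq (C := fun _ => ℕ) (fun k ih => Finset.univ.sup (fun j => if h : R j k then ih j h + 1 else 0)) k
    simp only [r]
    rw [this]
    apply Finset.sup_congr rfl
    intro j _
    by_cases h : R j k <;> simp [h]
  have hr1 : ∀ j k, R j k → r j + 1 ≤ r k := by
    intro j k h
    rw [hr k]
    have := Finset.le_sup (f := fun j => if R j k then r j + 1 else 0) (Finset.mem_univ j)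
    simpa [h] using this
  have hr2 : ∀ k n, (∀ j, R j k → r j + 1 ≤ n) → r k ≤ n := by
    intro k n h
    rw [hr k]
    apply Finset.sup_le
    intro j _
    by_cases hj : R j k
    · simpa [hj] using h j hj
    · simp [hj]
  -- r positive off S
  have hrN : ∀ i, ¬ T i (star i) o → 1 ≤ r i := by
    intro i hi
    have := hr1 o i ⟨i, hi, hor i⟩
    omega
  have hrS : ∀ i, T i (star i) o → r i = 0 := by
    intro i hi
    have := hr2 i 0 (by
      rintro j ⟨n, hn, h⟩
      exact absurd (hidl _ _ _ h hi) hn)
    omega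
  have hmono : ∀ n, ∀ i j k, r i ≤ n → T i j k → r i + r j ≤ r k := by
    intro n
    induction n with
    | zero =>
      intro i j k hi hT
      have hiS : T i (star i) o := by
        by_contra h
        have := hrN i h
        omega
      have : r j ≤ r k := by
        apply hr2
        rintro j' ⟨n, hn, h⟩
        obtain ⟨m, hm1, hm2⟩ := hT2 i n j j' k h hT
        exact hr1 _ _ ⟨m, fun hm => hn (hidr _ _ _ hm1 hm), hm2⟩
      omega
    | succ n ih =>
      intro i j k hi hT
      by_cases hi' : r i ≤ n
      · exact ih i j k hi' hT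
      -- r i = n + 1
      have hex : ∃ i', R i' i ∧ n ≤ r i' := by
        by_contra hcon
        push Not at hcon
        have := hr2 i n (by
          intro j hj
          have := hcon j hj
          omega)
        omega
      obtain ⟨i', hRi', hn⟩ := hex
      have h3 := hr1 i' i hRi'
      obtain ⟨a, ha, haT⟩ := hRi'
      obtain ⟨n', hn1, hn2⟩ := hT1 a i' i j k haT hT
      have h4 := hr1 n' k ⟨a, ha, hn2⟩
      have h5 := ih i' j n' (by omega) hn1
      omega
  have hoo : T o (star o) o := by
    have h := hstar o o (hol o)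
    rw [← h]
    exact hol o
  have hfin := hord r (hrS o hoo) (fun i j k h => hmono (r i) i j k le_rfl h)
  intro i
  by_contra h
  have := hrN i h
  have := hfin i
  omega

end Pool.Agent.Lib.MP_21cf63_al
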