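import Mathlib
import Pool.Agent.Lib.MP_21cf63_al.Basic

/-!
Duals of simple objects.
-/

set_option linter.unusedSectionVars false
set_option linter.style.haveILetI false

open CategoryTheory MonoidalCategory Limits

namespace Pool.Agent.Lib.MP_21cf63_al

universe v u w

namespace SFam

variable {R : Type w} [CommRing R] [Nontrivial R] {D : Type u} [Category.{v} D] [Preadditive D]
    [Linear R D] [MonoidalCategory D] [MonoidalPreadditive D] [MonoidalLinear R D]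
    {ι : Type} [Fintype ι] (S : SFam R D ι)

lemma id_ne_zero' (i : ι) : 𝟙 (S.X i) ≠ 0 := by
  intro h
  have : (1 : R) = 0 := S.smul_id_inj (i := i) (by rw [h, smul_zero, smul_zero])
  exact one_ne_zero this

/-- endomorphisms of a left dual of a simple object are scalars -/
lemma dual_end {i : ι} (Y : D) [ExactPairing Y (S.X i)] (e : Y ⟶ Y) : ∃ r : R, e = r • 𝟙 Y := by
  letI : HasRightDual Y := ⟨S.X i⟩
  obtain ⟨r, hr⟩ := (S.end_bij i).2 (rightAdjointMate e)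
  refine ⟨r, ?_⟩
  have h1 : (S.X i ◁ e) ≫ ε_ Y (S.X i) = r • ε_ Y (S.X i) := by
    have := rightAdjointMate_comp_evaluation e
    rw [← hr] at this
    have h0 : (S.X i ◁ e) ≫ ε_ Y (S.X i) = ((r • 𝟙 (S.X i)) ▷ Y) ≫ ε_ Y (S.X i) := this.symm
    rw [h0, MonoidalLinear.smul_whiskerRight, Linear.smul_comp, id_whiskerRight,
      Category.id_comp]
  have h2 : (S.X i ◁ (ρ_ Y).inv) ≫ (α_ _ _ _).inv ≫ (ε_ Y (S.X i) ▷ 𝟙_ D) ≫ (λ_ _).hom =
      ε_ Y (S.X i) := by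
    rw [unitors_equal, rightUnitor_naturality]
    simp
  have h3 : (tensorLeftHomEquiv Y Y (S.X i) (𝟙_ D)).symm (e ≫ (ρ_ Y).inv) =
      (tensorLeftHomEquiv Y Y (S.X i) (𝟙_ D)).symm ((r • 𝟙 Y) ≫ (ρ_ Y).inv) := by
    rw [tensorLeftHomEquiv_symm_naturality, tensorLeftHomEquiv_symm_naturality]
    show (S.X i ◁ e) ≫ ((S.X i ◁ (ρ_ Y).inv) ≫ (α_ _ _ _).inv ≫ (ε_ Y (S.X i) ▷ 𝟙_ D) ≫
      (λ_ _).hom) = (S.X i ◁ (r • 𝟙 Y)) ≫ ((S.X i ◁ (ρ_ Y).inv) ≫ (α_ _ _ _).inv ≫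
      (ε_ Y (S.X i) ▷ 𝟙_ D) ≫ (λ_ _).hom)
    rw [h2, h1, MonoidalLinear.whiskerLeft_smul, Linear.smul_comp, whiskerLeft_id,
      Category.id_comp]
  have h4 := (tensorLeftHomEquiv Y Y (S.X i) (𝟙_ D)).symm.injective h3
  exact (cancel_mono _).1 h4

lemma eval_ne_zero {i : ι} (Y : D) [ExactPairing Y (S.X i)] : ε_ Y (S.X i) ≠ 0 := by
  intro h
  have h1 := ExactPairing.coevaluation_evaluation Y (S.X i)
  rw [h, MonoidalPreadditive.zero_whiskerRight, comp_zero, comp_zero] at h1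
  apply S.id_ne_zero' i
  have h2 : (ρ_ (S.X i)).inv ≫ ((ρ_ (S.X i)).hom ≫ (λ_ (S.X i)).inv) ≫ (λ_ (S.X i)).hom = 0 := by
    rw [← h1]; simp
  simpa using h2

lemma coeval_ne_zero {i : ι} (Y : D) [ExactPairing Y (S.X i)] : η_ Y (S.X i) ≠ 0 := by
  intro h
  have h1 := ExactPairing.coevaluation_evaluation Y (S.X i)
  rw [h, MonoidalPreadditive.whiskerLeft_zero, zero_comp] at h1
  apply S.id_ne_zero' i
  have h2 : (ρ_ (S.X i)).inv ≫ ((ρ_ (S.X i)).hom ≫ (λ_ (S.X i)).inv) ≫ (λ_ (S.X i)).hom = 0 := by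
    rw [← h1]; simp
  simpa using h2

/-- the left dual of a simple object is simple -/
lemma dual_simple {i : ι} (Y : D) [ExactPairing Y (S.X i)] : ∃ j, Nonempty (Y ≅ S.X j) := by
  by_contra hcon
  push Not at hcon
  have hY : 𝟙 Y = 0 := by
    rw [← S.total Y]
    apply Finset.sum_eq_zero
    intro j _
    apply Finset.sum_eq_zero
    intro a _
    exfalso
    obtain ⟨r, hr⟩ := S.dual_end (i := i) Y (S.p Y j a ≫ S.q Y j a)
    have h1 : r • 𝟙 (S.X j) = (1 : R) • 𝟙 (S.X j) := by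
      have : S.q Y j a ≫ (S.p Y j a ≫ S.q Y j a) ≫ S.p Y j a = 𝟙 _ := by
        simp only [Category.assoc, S.q_p_self, Category.comp_id]
      rw [hr, Linear.smul_comp, Category.id_comp, Linear.comp_smul, S.q_p_self] at this
      rw [this, one_smul]
    have h2 := S.smul_id_inj h1
    rw [h2, one_smul] at hr
    exact (hcon j).false ⟨S.p Y j a, S.q Y j a, hr, S.q_p_self Y j a⟩
  apply S.coeval_ne_zero (i := i) Y
  have : η_ Y (S.X i) = η_ Y (S.X i) ≫ (𝟙 Y ▷ S.X i) := by simp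
  rw [this, hY, MonoidalPreadditive.zero_whiskerRight, comp_zero]

/-- left duals of the simple objects -/
structure StarData where
  star : ι → ι
  pair : ∀ i, ExactPairing (S.X (star i)) (S.X i)

lemma exists_starData (hdl : ∀ X : D, Nonempty (HasLeftDual X)) : Nonempty S.StarData := by
  have h : ∀ i, ∃ j, Nonempty (ExactPairing (S.X j) (S.X i)) := by
    intro i
    obtain ⟨hY⟩ := hdl (S.X i)
    obtain ⟨j, ⟨e⟩⟩ := S.dual_simple (i := i) (HasLeftDual.leftDual (S.X i))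
    exact ⟨j, ⟨exactPairingCongrLeft e.symm⟩⟩
  choose st hst using h
  exact ⟨⟨st, fun i => (hst i).some⟩⟩

section Star

variable {S} (P : S.StarData) (o : ι) (eo : S.X o ≅ 𝟙_ D)

attribute [local instance] StarData.pair

lemma n_pos_from {Z : D} {i : ι} (f : S.X i ⟶ Z) (hf : f ≠ 0) : 0 < S.n Z i := by
  rcases Nat.eq_zero_or_pos (S.n Z i) with h | h
  · exfalso
    apply hf
    rw [S.from_simple f]
    apply Finset.sum_eq_zero
    intro a _
    exact absurd a.2 (by omega)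
  · exact h

lemma n_pos_to {Z : D} {i : ι} (f : Z ⟶ S.X i) (hf : f ≠ 0) : 0 < S.n Z i := by
  rcases Nat.eq_zero_or_pos (S.n Z i) with h | h
  · exfalso
    apply hf
    rw [S.to_simple f]
    apply Finset.sum_eq_zero
    intro a _
    exact absurd a.2 (by omega)
  · exact h

lemma n_pos_split {Z : D} {i : ι} (h : 0 < S.n Z i) :
    ∃ (q : S.X i ⟶ Z) (p : Z ⟶ S.X i), q ≫ p = 𝟙 _ :=
  ⟨S.q Z i ⟨0, h⟩, S.p Z i ⟨0, h⟩, S.q_p_self Z i _⟩

/-- every map `X i ⊗ Y ⟶ Z` comes from a map `Y ⟶ X (star i) ⊗ Z` -/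
lemma tri (i : ι) {Y Z : D} (u : S.X i ⊗ Y ⟶ Z) :
    letI := P.pair i
    ∃ w : Y ⟶ S.X (P.star i) ⊗ Z, u = (S.X i ◁ w) ≫ (α_ _ _ _).inv ≫
      (ε_ (S.X (P.star i)) (S.X i) ▷ Z) ≫ (λ_ Z).hom := by
  letI := P.pair i
  exact ⟨tensorLeftHomEquiv Y (S.X (P.star i)) (S.X i) Z u,
    ((tensorLeftHomEquiv Y (S.X (P.star i)) (S.X i) Z).left_inv u).symm⟩

include eo in
lemma star_eq {i j : ι} (u : S.X i ⊗ S.X j ⟶ S.X o) (hu : u ≠ 0) : j = P.star i := by
  by_contra hne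
  obtain ⟨w, hw⟩ := tri P i u
  apply hu
  have h1 := S.hom_zero j (P.star i) hne (w ≫ (S.X (P.star i) ◁ eo.hom) ≫ (ρ_ _).hom)
  have h2 : w = 0 := by
    have : w = (w ≫ (S.X (P.star i) ◁ eo.hom) ≫ (ρ_ _).hom) ≫ (ρ_ _).inv ≫
      (S.X (P.star i) ◁ eo.inv) := by
      simp only [Category.assoc, Iso.hom_inv_id_assoc]
      rw [← whiskerLeft_comp]
      simp
    rw [this, h1, zero_comp]
  rw [hw, h2, MonoidalPreadditive.whiskerLeft_zero, zero_comp]

include eo in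
lemma star_star (i : ι) : P.star (P.star i) = i := by
  letI := P.pair i
  have h1 : eo.hom ≫ η_ (S.X (P.star i)) (S.X i) ≠ 0 := by
    intro h
    apply S.coeval_ne_zero (i := i) (S.X (P.star i))
    rw [← cancel_epi eo.hom, h, comp_zero]
  obtain ⟨q, p, hqp⟩ := n_pos_split (n_pos_from _ h1)
  have hp : p ≠ 0 := by
    intro h
    rw [h, comp_zero] at hqp
    exact S.id_ne_zero' o hqp.symm
  exact (star_eq P o eo p hp).symm

include eo in
/-- maps `X i ⊗ X (star i) ⟶ X o` are multiples of the evaluation -/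
lemma one_dim (i : ι) (u : S.X i ⊗ S.X (P.star i) ⟶ S.X o) :
    letI := P.pair i
    ∃ r : R, u = r • (ε_ (S.X (P.star i)) (S.X i) ≫ eo.inv) := by
  letI := P.pair i
  obtain ⟨w, hw⟩ := tri P i u
  obtain ⟨r, hr⟩ := (S.end_bij (P.star i)).2 (w ≫ (S.X (P.star i) ◁ eo.hom) ≫ (ρ_ _).hom)
  refine ⟨r, ?_⟩
  have h2 : w = r • ((ρ_ _).inv ≫ (S.X (P.star i) ◁ eo.inv)) := by
    have : w = (w ≫ (S.X (P.star i) ◁ eo.hom) ≫ (ρ_ _).hom) ≫ (ρ_ _).inv ≫
      (S.X (P.star i) ◁ eo.inv) := by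
      simp only [Category.assoc, Iso.hom_inv_id_assoc]
      rw [← whiskerLeft_comp]
      simp
    rw [this, ← hr, Linear.smul_comp, Category.id_comp]
  rw [hw, h2, MonoidalLinear.whiskerLeft_smul, Linear.smul_comp]
  congr 1
  rw [whiskerLeft_comp, Category.assoc, associator_inv_naturality_right_assoc,
    whisker_exchange_assoc, leftUnitor_naturality]
  rw [unitors_equal, rightUnitor_naturality_assoc]
  simp

end Star

end SFam

end Pool.Agent.Lib.MP_21cf63_al
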