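import Mathlib
import Pool.Agent.Lib.MP_21cf63_al.Defs
import Pool.Agent.Lib.MP_21cf63_al.Basic

/-!
Families of simple objects: scalar extension, reindexing, comparison.
-/

open CategoryTheory MonoidalCategory Limits TensorProduct

namespace Pool.Agent.Lib.MP_21cf63_al

namespace IsScalarExtension

variable {R : Type*} [CommRing R] {S : Type*} [CommRing S] [Algebra R S]
    {D : Type*} [Category D] [Preadditive D] [Linear R D]
    {E : Type*} [Category E] [Preadditive E] [Linear S E] {F : D ⥤ E}
    (h : IsScalarExtension R S F)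

include h in
theorem map_zero' (X Y : D) : F.map (0 : X ⟶ Y) = 0 := by
  obtain ⟨e, he⟩ := h.bij X Y
  have := he 1 0
  rw [TensorProduct.tmul_zero, map_zero, one_smul] at this
  exact this.symm

include h in
theorem map_add' {X Y : D} (f g : X ⟶ Y) : F.map (f + g) = F.map f + F.map g := by
  obtain ⟨e, he⟩ := h.bij X Y
  have := he 1 (f + g)
  rw [TensorProduct.tmul_add, map_add, he, he, one_smul, one_smul, one_smul] at this
  exact this.symm

include h in
theorem additive : F.Additive where
  map_add := h.map_add' _ _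

include h in
theorem map_smul' {X Y : D} (r : R) (f : X ⟶ Y) : F.map (r • f) = algebraMap R S r • F.map f := by
  obtain ⟨e, he⟩ := h.bij X Y
  have := he 1 (r • f)
  rw [← TensorProduct.smul_tmul, he, one_smul, Algebra.smul_def, mul_one] at this
  exact this.symm

include h in
theorem hom_ind {X Y : D} {P : (F.obj X ⟶ F.obj Y) → Prop}
    (hs : ∀ (s : S) (f : X ⟶ Y), P (s • F.map f)) (ha : ∀ f g, P f → P g → P (f + g))
    (f : F.obj X ⟶ F.obj Y) : P f := by
  obtain ⟨e, he⟩ := h.bij X Y
  obtain ⟨x, rfl⟩ := e.surjective f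
  induction x using TensorProduct.induction_on with
  | zero =>
    have := hs 0 (0 : X ⟶ Y)
    rw [zero_smul] at this
    rwa [map_zero]
  | tmul s f => rw [he]; exact hs s f
  | add x y hx hy => rw [map_add]; exact ha _ _ hx hy

end IsScalarExtension

/-- H9: a scalar extension transports a family of simple objects. -/
@[reducible] def SFam.map {R : Type*} [CommRing R] {S : Type*} [CommRing S] [Algebra R S]
    {D : Type*} [Category D] [Preadditive D] [Linear R D]
    {E : Type*} [Category E] [Preadditive E] [Linear S E]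
    (F : D ⥤ E) (h : IsScalarExtension R S F) {ι : Type} [Fintype ι] (X : SFam R D ι) :
    SFam S E ι where
  X i := F.obj (X.X i)
  hom_zero i j hij f := by
    refine h.hom_ind (P := fun f => f = 0) ?_ ?_ f
    · intro s f
      rw [X.hom_zero i j hij f, h.map_zero', smul_zero]
    · intro f g hf hg
      rw [hf, hg, add_zero]
  end_bij i := by
    obtain ⟨e, he⟩ := h.bij (X.X i) (X.X i)
    let φ : R ≃ₗ[R] (X.X i ⟶ X.X i) :=
      LinearEquiv.ofBijective (LinearMap.toSpanSingleton R _ (𝟙 (X.X i))) (X.end_bij i)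
    have hφ : φ 1 = 𝟙 (X.X i) := one_smul _ _
    have hψ : ∀ s : S, ((TensorProduct.congr (LinearEquiv.refl R S) φ).toLinearMap
        ((TensorProduct.rid R S).symm s)) = s ⊗ₜ 𝟙 (X.X i) := by
      intro s
      rw [TensorProduct.rid_symm_apply]
      show (TensorProduct.congr (LinearEquiv.refl R S) φ) (s ⊗ₜ 1) = _
      rw [TensorProduct.congr_tmul, hφ]
      rfl
    have key : (fun r : S => r • 𝟙 (F.obj (X.X i))) = fun r : S =>
        e ((TensorProduct.congr (LinearEquiv.refl R S) φ) ((TensorProduct.rid R S).symm r)) := by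
      funext r
      have := hψ r
      show _ = e ((TensorProduct.congr (LinearEquiv.refl R S) φ).toLinearMap
        ((TensorProduct.rid R S).symm r))
      rw [hψ, he, F.map_id]
    rw [key]
    exact e.bijective.comp ((TensorProduct.congr (LinearEquiv.refl R S) φ).bijective.comp
      (TensorProduct.rid R S).symm.bijective)
  decomp Z := by
    obtain ⟨W, ⟨φ⟩⟩ := h.essSurj Z
    have := h.additive
    refine ⟨fun i => X.n W i, fun i a => φ.inv ≫ F.map (X.p W i a),
      fun i a => F.map (X.q W i a) ≫ φ.hom, ?_, ?_⟩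
    · intro i a b
      rw [Category.assoc, Iso.hom_inv_id_assoc, ← F.map_comp, X.q_p]
      split_ifs
      · exact F.map_id _
      · exact h.map_zero' _ _
    · have h1 : 𝟙 Z = φ.inv ≫ F.map (∑ i, ∑ a, X.p W i a ≫ X.q W i a) ≫ φ.hom := by
        rw [X.total W, F.map_id, Category.id_comp, Iso.inv_hom_id]
      rw [h1, F.map_sum]
      simp only [F.map_sum, F.map_comp, Preadditive.sum_comp, Preadditive.comp_sum,
        Category.assoc]

@[simp] lemma SFam.map_X {R : Type*} [CommRing R] {S : Type*} [CommRing S] [Algebra R S]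
    {D : Type*} [Category D] [Preadditive D] [Linear R D]
    {E : Type*} [Category E] [Preadditive E] [Linear S E]
    (F : D ⥤ E) (h : IsScalarExtension R S F) {ι : Type} [Fintype ι] (X : SFam R D ι) (i : ι) :
    (X.map F h).X i = F.obj (X.X i) := rfl

/-- reindexing a family of simple objects -/
@[reducible] def SFam.reindex {R : Type*} [CommRing R]
    {D : Type*} [Category D] [Preadditive D] [Linear R D]
    {ι : Type} [Fintype ι] {ι' : Type} [Fintype ι'] (σ : ι ≃ ι') (X : SFam R D ι') :
    SFam R D ι where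
  X i := X.X (σ i)
  hom_zero i j hij f := X.hom_zero _ _ (fun h => hij (σ.injective h)) f
  end_bij i := X.end_bij (σ i)
  decomp Z := by
    refine ⟨fun i => X.n Z (σ i), fun i a => X.p Z (σ i) a, fun i a => X.q Z (σ i) a, ?_, ?_⟩
    · intro i a b
      exact X.q_p Z (σ i) a b
    · rw [← X.total Z]
      exact Equiv.sum_comp σ (fun i => ∑ a, X.p Z i a ≫ X.q Z i a)

@[simp] lemma SFam.reindex_X {R : Type*} [CommRing R]
    {D : Type*} [Category D] [Preadditive D] [Linear R D]
    {ι : Type} [Fintype ι] {ι' : Type} [Fintype ι'] (σ : ι ≃ ι') (X : SFam R D ι') (i : ι) :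
    (X.reindex σ).X i = X.X (σ i) := rfl

section match_simples

variable {K : Type*} [Field K] {C : Type*} [Category C] [Preadditive C] [Linear K C]
    {ι : Type} [Fintype ι]

theorem SFam.id_ne_zero (X : SFam K C ι) (i : ι) : 𝟙 (X.X i) ≠ 0 := by
  intro h0
  have : (1 : K) • 𝟙 (X.X i) = (0 : K) • 𝟙 (X.X i) := by rw [h0, smul_zero, smul_zero]
  exact one_ne_zero (X.smul_id_inj this)

theorem SFam.eq_of_iso (X : SFam K C ι) {i j : ι} (e : X.X i ≅ X.X j) : i = j := by
  by_contra hij
  have h0 := X.hom_zero i j hij e.hom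
  apply X.id_ne_zero i
  rw [← e.hom_inv_id, h0, zero_comp]

theorem SFam.exists_iso {ι' : Type} [Fintype ι'] (X : SFam K C ι) (Y : SFam K C ι') (i : ι) :
    ∃ j, Nonempty (X.X i ≅ Y.X j) := by
  classical
  -- some multiplicity is nonzero
  by_contra hcon
  push Not at hcon
  have hz : ∀ j (a : Fin (Y.n (X.X i) j)), False := by
    intro j a
    apply (hcon j).false
    have hqp := Y.q_p_self (X.X i) j a
    set p := Y.p (X.X i) j a
    set q := Y.q (X.X i) j a
    have hpq : p ≫ q = 𝟙 (X.X i) := by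
      obtain ⟨r, hr⟩ := (X.end_bij i).2 (p ≫ q)
      have hr' : r • 𝟙 (X.X i) = p ≫ q := hr
      have h1 : (p ≫ q) ≫ (p ≫ q) = p ≫ q := by
        rw [Category.assoc, ← Category.assoc q p q, hqp, Category.id_comp]
      have h2 : r * r = r := by
        apply X.smul_id_inj (i := i)
        rw [mul_smul]
        rw [← hr', Linear.smul_comp, Category.id_comp] at h1
        exact h1
      by_cases h0 : r = 0
      · exfalso
        rw [h0, zero_smul] at hr'
        apply Y.id_ne_zero j
        calc 𝟙 (Y.X j) = (q ≫ p) ≫ (q ≫ p) := by rw [hqp, Category.id_comp]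
          _ = q ≫ (p ≫ q) ≫ p := by simp only [Category.assoc]
          _ = 0 := by rw [← hr', zero_comp, comp_zero]
      · rw [← hr', (mul_eq_left₀ h0).1 h2, one_smul]
    exact ⟨p, q, hpq, hqp⟩
  apply X.id_ne_zero i
  rw [← Y.total (X.X i)]
  exact Finset.sum_eq_zero fun j _ => Finset.sum_eq_zero fun a _ => (hz j a).elim

/-- H10: two families of simple objects over a field agree up to a bijection. -/
theorem H10_match_simples {ι' : Type} [Fintype ι'] (X : SFam K C ι) (Y : SFam K C ι') :
    ∃ σ : ι ≃ ι', ∀ i, Nonempty (X.X i ≅ Y.X (σ i)) := by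
  choose f hf using X.exists_iso Y
  choose g hg using Y.exists_iso X
  have hfi : Function.Injective f := by
    intro i j hij
    obtain ⟨e₁⟩ := hf i
    obtain ⟨e₂⟩ := hf j
    exact X.eq_of_iso (e₁ ≪≫ eqToIso (by rw [hij]) ≪≫ e₂.symm)
  have hfs : Function.Surjective f := by
    intro j
    refine ⟨g j, ?_⟩
    obtain ⟨e₁⟩ := hf (g j)
    obtain ⟨e₂⟩ := hg j
    exact (Y.eq_of_iso (e₂ ≪≫ e₁)).symm
  exact ⟨Equiv.ofBijective f ⟨hfi, hfs⟩, hf⟩

end match_simples

/-- H11: composing an extension of scalars with a linear equivalence is again one. -/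
theorem H11_comp_equiv {R : Type*} [CommRing R] {S : Type*} [CommRing S] [Algebra R S]
    {D : Type*} [Category D] [Preadditive D] [Linear R D]
    {E : Type*} [Category E] [Preadditive E] [Linear S E]
    {E' : Type*} [Category E'] [Preadditive E'] [Linear S E']
    (F : D ⥤ E) (h : IsScalarExtension R S F) (e : E ≌ E') (ha : e.functor.Additive)
    (hs : ∀ (r : S) (X Y : E) (f : X ⟶ Y), e.functor.map (r • f) = r • e.functor.map f) :
    IsScalarExtension R S (F ⋙ e.functor) where
  essSurj Z := by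
    obtain ⟨X, ⟨φ⟩⟩ := h.essSurj (e.inverse.obj Z)
    exact ⟨X, ⟨e.functor.mapIso φ ≪≫ e.counitIso.app Z⟩⟩
  bij X Y := by
    obtain ⟨ψ, hψ⟩ := h.bij X Y
    let m : (F.obj X ⟶ F.obj Y) ≃+ ((F ⋙ e.functor).obj X ⟶ (F ⋙ e.functor).obj Y) :=
      { e.fullyFaithfulFunctor.homEquiv with
        map_add' := fun f g => e.functor.map_add }
    refine ⟨ψ.trans m, ?_⟩
    intro s f
    rw [AddEquiv.trans_apply, hψ]
    exact hs _ _ _ _

/-- H12: precomposing an extension of scalars with a linear equivalence is again one. -/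
theorem H12_equiv_comp {R : Type*} [CommRing R] {S : Type*} [CommRing S] [Algebra R S]
    {D' : Type*} [Category D'] [Preadditive D'] [Linear R D']
    {D : Type*} [Category D] [Preadditive D] [Linear R D]
    {E : Type*} [Category E] [Preadditive E] [Linear S E]
    (F : D ⥤ E) (h : IsScalarExtension R S F) (e : D' ≌ D) (ha : e.functor.Additive)
    (hs : ∀ (r : R) (X Y : D') (f : X ⟶ Y), e.functor.map (r • f) = r • e.functor.map f) :
    IsScalarExtension R S (e.functor ⋙ F) where
  essSurj Z := by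
    obtain ⟨X, ⟨φ⟩⟩ := h.essSurj Z
    exact ⟨e.inverse.obj X, ⟨F.mapIso (e.counitIso.app X) ≪≫ φ⟩⟩
  bij X Y := by
    obtain ⟨ψ, hψ⟩ := h.bij (e.functor.obj X) (e.functor.obj Y)
    let m : (X ⟶ Y) ≃ₗ[R] (e.functor.obj X ⟶ e.functor.obj Y) :=
      { e.fullyFaithfulFunctor.homEquiv with
        map_add' := fun f g => e.functor.map_add
        map_smul' := fun r f => hs r X Y f }
    refine ⟨(TensorProduct.congr (LinearEquiv.refl R S) m).toAddEquiv.trans ψ, ?_⟩
    intro s f
    exact hψ s (m f)

/-- H13: the object-level decomposition in `SemisimpleRigid` gives an `SFam`. -/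
def SFam.ofDecomp {R : Type*} [CommRing R] {C : Type*} [Category C]
    [Preadditive C] [Linear R C] {ι : Type} [Fintype ι] (X : ι → C)
    (h0 : ∀ i j, i ≠ j → ∀ f : X i ⟶ X j, f = 0)
    (h1 : ∀ i, Function.Bijective (fun r : R => r • 𝟙 (X i)))
    (h2 : ∀ Z : C, ∃ (n : ℕ) (s : Fin n → ι) (p : ∀ a, Z ⟶ X (s a)) (q : ∀ a, X (s a) ⟶ Z),
      (∀ a, q a ≫ p a = 𝟙 (X (s a))) ∧ (∀ a b, a ≠ b → q a ≫ p b = 0) ∧
      ∑ a, p a ≫ q a = 𝟙 Z) :
    SFam R C ι where
  X := X
  hom_zero := h0
  end_bij := h1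
  decomp Z := by
    classical
    obtain ⟨n, s, p, q, hqp, hqp0, htot⟩ := h2 Z
    let e : ∀ i, Fin (Fintype.card {a // s a = i}) ≃ {a // s a = i} :=
      fun i => (Fintype.equivFin _).symm
    let P : ∀ i (a : {a // s a = i}), Z ⟶ X i := fun i a => p a.1 ≫ eqToHom (by rw [a.2])
    let Q : ∀ i (a : {a // s a = i}), X i ⟶ Z := fun i a => eqToHom (by rw [a.2]) ≫ q a.1
    have hQP : ∀ i (a b : {a // s a = i}), Q i a ≫ P i b = if a = b then 𝟙 _ else 0 := by
      intro i a b
      split_ifs with hab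
      · subst hab
        simp only [P, Q, Category.assoc]
        rw [← Category.assoc (q a.1), hqp a.1, Category.id_comp, eqToHom_trans, eqToHom_refl]
      · simp only [P, Q, Category.assoc]
        rw [← Category.assoc (q a.1), hqp0 a.1 b.1 (fun h => hab (Subtype.ext h)), zero_comp,
          comp_zero]
    have hPQ : ∀ i (a : {a // s a = i}), P i a ≫ Q i a = p a.1 ≫ q a.1 := by
      intro i a
      simp only [P, Q, Category.assoc, eqToHom_trans_assoc, eqToHom_refl, Category.id_comp]
    refine ⟨fun i => Fintype.card {a // s a = i}, fun i a => P i (e i a), fun i a => Q i (e i a),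
      ?_, ?_⟩
    · intro i a b
      rw [hQP]
      simp only [EmbeddingLike.apply_eq_iff_eq]
    · have h3 : ∀ i, ∑ a, P i (e i a) ≫ Q i (e i a) = ∑ a : {a // s a = i}, p a.1 ≫ q a.1 := by
        intro i
        rw [← Equiv.sum_comp (e i)]
        exact Finset.sum_congr rfl fun a _ => hPQ _ _
      simp only [h3]
      rw [← htot, ← Equiv.sum_comp (Equiv.sigmaFiberEquiv s), Fintype.sum_sigma]
      rfl

@[simp] lemma SFam.ofDecomp_X {R : Type*} [CommRing R] {C : Type*} [Category C]
    [Preadditive C] [Linear R C] {ι : Type} [Fintype ι] (X : ι → C)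
    (h0 : ∀ i j, i ≠ j → ∀ f : X i ⟶ X j, f = 0)
    (h1 : ∀ i, Function.Bijective (fun r : R => r • 𝟙 (X i)))
    (h2 : ∀ Z : C, ∃ (n : ℕ) (s : Fin n → ι) (p : ∀ a, Z ⟶ X (s a)) (q : ∀ a, X (s a) ⟶ Z),
      (∀ a, q a ≫ p a = 𝟙 (X (s a))) ∧ (∀ a b, a ≠ b → q a ≫ p b = 0) ∧
      ∑ a, p a ≫ q a = 𝟙 Z) (i : ι) :
    (SFam.ofDecomp X h0 h1 h2).X i = X i := rfl

end Pool.Agent.Lib.MP_21cf63_al
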