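import Mathlib
import Pool.Agent.Lib.MP_21cf63_al.Basic

/-!
Squares between two functors to a common monoidal category.
-/

set_option linter.unusedSectionVars false
set_option linter.style.haveILetI false

open CategoryTheory MonoidalCategory Limits Functor.LaxMonoidal Functor.OplaxMonoidal

namespace Pool.Agent.Lib.MP_21cf63_al

universe v₁ u₁ v₂ u₂ v₃ u₃ w w'

section Plain

variable {D₁ : Type u₁} [Category.{v₁} D₁] {D₂ : Type u₂} [Category.{v₂} D₂]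
    {C : Type u₃} [Category.{v₃} C]

/-- commuting squares -/
def Sq (G₁ : D₁ ⥤ C) (G₂ : D₂ ⥤ C) {Z₁ Y₁ : D₁} {Z₂ Y₂ : D₂} (f : G₁.obj Z₁ ⟶ G₂.obj Z₂)
    (g : G₁.obj Y₁ ⟶ G₂.obj Y₂) (u : Z₁ ⟶ Y₁) (v : Z₂ ⟶ Y₂) : Prop :=
  G₁.map u ≫ g = f ≫ G₂.map v

variable {G₁ : D₁ ⥤ C} {G₂ : D₂ ⥤ C} {Z₁ Y₁ X₁ : D₁} {Z₂ Y₂ X₂ : D₂}
    {f : G₁.obj Z₁ ⟶ G₂.obj Z₂} {g : G₁.obj Y₁ ⟶ G₂.obj Y₂} {h : G₁.obj X₁ ⟶ G₂.obj X₂}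

lemma Sq.id (f : G₁.obj Z₁ ⟶ G₂.obj Z₂) : Sq G₁ G₂ f f (𝟙 _) (𝟙 _) := by
  simp [Sq]

lemma Sq.comp {u : Z₁ ⟶ Y₁} {v : Z₂ ⟶ Y₂} {u' : Y₁ ⟶ X₁} {v' : Y₂ ⟶ X₂}
    (a : Sq G₁ G₂ f g u v) (b : Sq G₁ G₂ g h u' v') : Sq G₁ G₂ f h (u ≫ u') (v ≫ v') := by
  unfold Sq at *
  rw [Functor.map_comp, Functor.map_comp, Category.assoc, b, ← Category.assoc, a, Category.assoc]

/-- reversing the roles of the two functors -/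
lemma Sq.swap {f : G₁.obj Z₁ ≅ G₂.obj Z₂} {g : G₁.obj Y₁ ≅ G₂.obj Y₂}
    {u : Z₁ ⟶ Y₁} {v : Z₂ ⟶ Y₂} (a : Sq G₁ G₂ f.hom g.hom u v) :
    Sq G₂ G₁ f.inv g.inv v u := by
  unfold Sq at *
  rw [← cancel_mono g.hom, ← cancel_epi f.hom]
  simp only [Category.assoc, Iso.inv_hom_id, Category.comp_id, Iso.hom_inv_id_assoc]
  rw [a]

lemma Sq.swap_iff {f : G₁.obj Z₁ ≅ G₂.obj Z₂} {g : G₁.obj Y₁ ≅ G₂.obj Y₂}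
    {u : Z₁ ⟶ Y₁} {v : Z₂ ⟶ Y₂} : Sq G₁ G₂ f.hom g.hom u v ↔ Sq G₂ G₁ f.inv g.inv v u :=
  ⟨Sq.swap, fun a => Sq.swap (f := f.symm) (g := g.symm) a⟩

end Plain

section Linear

variable {O : Type w} [CommRing O] {K : Type w'} [CommRing K] [Algebra O K]
    {D₁ : Type u₁} [Category.{v₁} D₁] [Preadditive D₁] [Linear O D₁]
    {D₂ : Type u₂} [Category.{v₂} D₂] [Preadditive D₂] [Linear O D₂]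
    {C : Type u₃} [Category.{v₃} C] [Preadditive C] [Linear K C]
    {G₁ : D₁ ⥤ C} {G₂ : D₂ ⥤ C} [G₁.Additive] [G₂.Additive] {Z₁ Y₁ X₁ : D₁} {Z₂ Y₂ X₂ : D₂}
    {f : G₁.obj Z₁ ⟶ G₂.obj Z₂} {g : G₁.obj Y₁ ⟶ G₂.obj Y₂} {h : G₁.obj X₁ ⟶ G₂.obj X₂}

lemma Sq.zero : Sq G₁ G₂ f g 0 0 := by
  simp [Sq]

lemma Sq.add {u u' : Z₁ ⟶ Y₁} {v v' : Z₂ ⟶ Y₂}
    (a : Sq G₁ G₂ f g u v) (b : Sq G₁ G₂ f g u' v') : Sq G₁ G₂ f g (u + u') (v + v') := by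
  unfold Sq at *
  rw [Functor.map_add, Functor.map_add, Preadditive.add_comp, a, b, Preadditive.comp_add]

lemma Sq.sum {α : Type*} (s : Finset α) {u : α → (Z₁ ⟶ Y₁)} {v : α → (Z₂ ⟶ Y₂)}
    (a : ∀ x ∈ s, Sq G₁ G₂ f g (u x) (v x)) : Sq G₁ G₂ f g (∑ x ∈ s, u x) (∑ x ∈ s, v x) := by
  classical
  induction s using Finset.induction_on with
  | empty => simpa using Sq.zero
  | insert x s hx ih =>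
    rw [Finset.sum_insert hx, Finset.sum_insert hx]
    exact (a x (Finset.mem_insert_self _ _)).add
      (ih fun y hy => a y (Finset.mem_insert_of_mem hy))

lemma Sq.smul (h₁ : ∀ (r : O) {X Y : D₁} (f : X ⟶ Y), G₁.map (r • f) = algebraMap O K r • G₁.map f)
    (h₂ : ∀ (r : O) {X Y : D₂} (f : X ⟶ Y), G₂.map (r • f) = algebraMap O K r • G₂.map f)
    {u : Z₁ ⟶ Y₁} {v : Z₂ ⟶ Y₂} (r : O)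
    (a : Sq G₁ G₂ f g u v) : Sq G₁ G₂ f g (r • u) (r • v) := by
  unfold Sq at *
  rw [h₁, h₂, Linear.smul_comp, a, Linear.comp_smul]

end Linear

section Monoidal

variable {D₁ : Type u₁} [Category.{v₁} D₁] [MonoidalCategory D₁]
    {D₂ : Type u₂} [Category.{v₂} D₂] [MonoidalCategory D₂]
    {C : Type u₃} [Category.{v₃} C] [MonoidalCategory C]
    (G₁ : D₁ ⥤ C) (G₂ : D₂ ⥤ C) [G₁.Monoidal] [G₂.Monoidal]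
    {Z₁ Y₁ X₁ Z₁' Y₁' X₁' : D₁} {Z₂ Y₂ X₂ Z₂' Y₂' X₂' : D₂}

/-- the product of two comparison maps -/
def bx (f : G₁.obj Z₁ ⟶ G₂.obj Z₂) (g : G₁.obj Y₁ ⟶ G₂.obj Y₂) :
    G₁.obj (Z₁ ⊗ Y₁) ⟶ G₂.obj (Z₂ ⊗ Y₂) :=
  δ G₁ Z₁ Y₁ ≫ (f ⊗ₘ g) ≫ μ G₂ Z₂ Y₂

/-- the product of two invertible comparison maps -/
def bxi (f : G₁.obj Z₁ ≅ G₂.obj Z₂) (g : G₁.obj Y₁ ≅ G₂.obj Y₂) :
    G₁.obj (Z₁ ⊗ Y₁) ≅ G₂.obj (Z₂ ⊗ Y₂) :=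
  (Functor.Monoidal.μIso G₁ Z₁ Y₁).symm ≪≫ (f ⊗ᵢ g) ≪≫ Functor.Monoidal.μIso G₂ Z₂ Y₂

@[simp] lemma bxi_hom (f : G₁.obj Z₁ ≅ G₂.obj Z₂) (g : G₁.obj Y₁ ≅ G₂.obj Y₂) :
    (bxi G₁ G₂ f g).hom = bx G₁ G₂ f.hom g.hom := by
  simp [bxi, bx]

@[simp] lemma bxi_inv (f : G₁.obj Z₁ ≅ G₂.obj Z₂) (g : G₁.obj Y₁ ≅ G₂.obj Y₂) :
    (bxi G₁ G₂ f g).inv = bx G₂ G₁ f.inv g.inv := by
  simp [bxi, bx]

/-- the comparison map of the unit objects -/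
def un : G₁.obj (𝟙_ D₁) ⟶ G₂.obj (𝟙_ D₂) := η G₁ ≫ ε G₂

/-- the comparison isomorphism of the unit objects -/
def uni : G₁.obj (𝟙_ D₁) ≅ G₂.obj (𝟙_ D₂) :=
  (Functor.Monoidal.εIso G₁).symm ≪≫ Functor.Monoidal.εIso G₂

@[simp] lemma uni_hom : (uni G₁ G₂).hom = un G₁ G₂ := by simp [uni, un]

@[simp] lemma uni_inv : (uni G₁ G₂).inv = un G₂ G₁ := by simp [uni, un]

variable {G₁ G₂}

lemma Sq.tensor {f : G₁.obj Z₁ ⟶ G₂.obj Z₂} {g : G₁.obj Y₁ ⟶ G₂.obj Y₂}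
    {f' : G₁.obj Z₁' ⟶ G₂.obj Z₂'} {g' : G₁.obj Y₁' ⟶ G₂.obj Y₂'}
    {u : Z₁ ⟶ Z₁'} {v : Z₂ ⟶ Z₂'} {u' : Y₁ ⟶ Y₁'} {v' : Y₂ ⟶ Y₂'}
    (a : Sq G₁ G₂ f f' u v) (b : Sq G₁ G₂ g g' u' v') :
    Sq G₁ G₂ (bx G₁ G₂ f g) (bx G₁ G₂ f' g') (u ⊗ₘ u') (v ⊗ₘ v') := by
  unfold Sq bx at *
  rw [← Category.assoc, ← δ_natural, Category.assoc, Category.assoc, Category.assoc,
    ← μ_natural, tensorHom_comp_tensorHom_assoc, a, b, tensorHom_comp_tensorHom_assoc]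

lemma Sq.whiskerLeft (f : G₁.obj Z₁ ⟶ G₂.obj Z₂) {g : G₁.obj Y₁ ⟶ G₂.obj Y₂}
    {g' : G₁.obj Y₁' ⟶ G₂.obj Y₂'} {u' : Y₁ ⟶ Y₁'} {v' : Y₂ ⟶ Y₂'}
    (b : Sq G₁ G₂ g g' u' v') :
    Sq G₁ G₂ (bx G₁ G₂ f g) (bx G₁ G₂ f g') (Z₁ ◁ u') (Z₂ ◁ v') := by
  rw [← id_tensorHom, ← id_tensorHom]
  exact (Sq.id f).tensor b

lemma Sq.whiskerRight {f : G₁.obj Z₁ ⟶ G₂.obj Z₂} (g : G₁.obj Y₁ ⟶ G₂.obj Y₂)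
    {f' : G₁.obj Z₁' ⟶ G₂.obj Z₂'}
    {u : Z₁ ⟶ Z₁'} {v : Z₂ ⟶ Z₂'} (a : Sq G₁ G₂ f f' u v) :
    Sq G₁ G₂ (bx G₁ G₂ f g) (bx G₁ G₂ f' g) (u ▷ Y₁) (v ▷ Y₂) := by
  rw [← tensorHom_id, ← tensorHom_id]
  exact a.tensor (Sq.id g)

lemma Sq.assoc (f : G₁.obj Z₁ ⟶ G₂.obj Z₂) (g : G₁.obj Y₁ ⟶ G₂.obj Y₂)
    (h : G₁.obj X₁ ⟶ G₂.obj X₂) :
    Sq G₁ G₂ (bx G₁ G₂ (bx G₁ G₂ f g) h) (bx G₁ G₂ f (bx G₁ G₂ g h))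
      (α_ Z₁ Y₁ X₁).hom (α_ Z₂ Y₂ X₂).hom := by
  unfold Sq bx
  have e1 : f ⊗ₘ (δ G₁ Y₁ X₁ ≫ (g ⊗ₘ h) ≫ μ G₂ Y₂ X₂) =
      (G₁.obj Z₁ ◁ δ G₁ Y₁ X₁) ≫ (f ⊗ₘ (g ⊗ₘ h)) ≫ (G₂.obj Z₂ ◁ μ G₂ Y₂ X₂) := by
    rw [← id_tensorHom, ← id_tensorHom, tensorHom_comp_tensorHom, tensorHom_comp_tensorHom,
      Category.id_comp, Category.comp_id]
  have e2 : (δ G₁ Z₁ Y₁ ≫ (f ⊗ₘ g) ≫ μ G₂ Z₂ Y₂) ⊗ₘ h =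
      (δ G₁ Z₁ Y₁ ▷ G₁.obj X₁) ≫ ((f ⊗ₘ g) ⊗ₘ h) ≫ (μ G₂ Z₂ Y₂ ▷ G₂.obj X₂) := by
    rw [← tensorHom_id, ← tensorHom_id, tensorHom_comp_tensorHom, tensorHom_comp_tensorHom,
      Category.id_comp, Category.comp_id]
  rw [e1, e2]
  simp only [Category.assoc]
  rw [Functor.LaxMonoidal.associativity, associator_naturality_assoc,
    Functor.OplaxMonoidal.associativity_assoc]

lemma Sq.assoc_inv (f : G₁.obj Z₁ ⟶ G₂.obj Z₂) (g : G₁.obj Y₁ ⟶ G₂.obj Y₂)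
    (h : G₁.obj X₁ ⟶ G₂.obj X₂) :
    Sq G₁ G₂ (bx G₁ G₂ f (bx G₁ G₂ g h)) (bx G₁ G₂ (bx G₁ G₂ f g) h)
      (α_ Z₁ Y₁ X₁).inv (α_ Z₂ Y₂ X₂).inv := by
  have := Sq.assoc f g h
  unfold Sq at *
  rw [← cancel_epi (G₁.map (α_ Z₁ Y₁ X₁).hom), ← cancel_mono (G₂.map (α_ Z₂ Y₂ X₂).hom)]
  simp only [Category.assoc]
  rw [← Functor.map_comp, Iso.inv_hom_id, CategoryTheory.Functor.map_id, Category.comp_id,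
    ← Functor.map_comp_assoc, Iso.hom_inv_id, CategoryTheory.Functor.map_id, Category.id_comp]
  exact this.symm

lemma Sq.leftUnitor (f : G₁.obj Z₁ ⟶ G₂.obj Z₂) :
    Sq G₁ G₂ (bx G₁ G₂ (un G₁ G₂) f) f (λ_ Z₁).hom (λ_ Z₂).hom := by
  unfold Sq bx un
  have e1 : (η G₁ ≫ ε G₂) ⊗ₘ f = (η G₁ ▷ G₁.obj Z₁) ≫ (𝟙_ C ◁ f) ≫ (ε G₂ ▷ G₂.obj Z₂) := by
    rw [← tensorHom_id, ← tensorHom_id, ← id_tensorHom, tensorHom_comp_tensorHom,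
      tensorHom_comp_tensorHom, Category.id_comp, Category.id_comp, Category.comp_id]
  rw [e1]
  simp only [Category.assoc]
  rw [← Functor.LaxMonoidal.left_unitality, leftUnitor_naturality,
    Functor.OplaxMonoidal.left_unitality_hom_assoc]

lemma Sq.rightUnitor (f : G₁.obj Z₁ ⟶ G₂.obj Z₂) :
    Sq G₁ G₂ (bx G₁ G₂ f (un G₁ G₂)) f (ρ_ Z₁).hom (ρ_ Z₂).hom := by
  unfold Sq bx un
  have e1 : f ⊗ₘ (η G₁ ≫ ε G₂) = (G₁.obj Z₁ ◁ η G₁) ≫ (f ▷ 𝟙_ C) ≫ (G₂.obj Z₂ ◁ ε G₂) := by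
    rw [← tensorHom_id, ← id_tensorHom, ← id_tensorHom, tensorHom_comp_tensorHom,
      tensorHom_comp_tensorHom, Category.id_comp, Category.id_comp, Category.comp_id]
  rw [e1]
  simp only [Category.assoc]
  rw [← Functor.LaxMonoidal.right_unitality, rightUnitor_naturality,
    Functor.OplaxMonoidal.right_unitality_hom_assoc]

end Monoidal

end Pool.Agent.Lib.MP_21cf63_al
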