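import Mathlib
import Pool.Agent.Lib.MP_21cf63_al.Squares
import Pool.Agent.Lib.MP_21cf63_al.Families

/-!
Matched pairs of objects, and valuation data.
-/

set_option linter.unusedSectionVars false
set_option linter.style.haveILetI false

open CategoryTheory MonoidalCategory Limits Functor.LaxMonoidal Functor.OplaxMonoidal

namespace Pool.Agent.Lib.MP_21cf63_al

universe v₁ u₁ v₂ u₂ v₃ u₃ w w' w''

/-- valuation data: `O` is the valuation ring of `K` and `k` its residue field -/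
structure ValData (O : Type w) (K : Type w') (k : Type w'') [CommRing O] [Field K] [Field k]
    [Algebra O K] [Algebra O k] where
  v : K → ℝ
  v_zero : v 0 = 0
  v_pos : ∀ x, x ≠ 0 → 0 < v x
  v_mul : ∀ x y, v (x * y) = v x * v y
  v_add : ∀ x y, v (x + y) ≤ max (v x) (v y)
  int : ∀ x, v x ≤ 1 ↔ ∃ r : O, algebraMap O K r = x
  res : ∀ r : O, algebraMap O k r = 0 ↔ v (algebraMap O K r) < 1
  Γ : Submodule ℚ ℝ
  Γ_ne : Γ ≠ ⊥
  Γ_iff : ∀ r : ℝ, r ∈ Γ ↔ ∃ x, x ≠ 0 ∧ Real.log (v x) = r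

variable {O : Type w} [CommRing O] {K : Type w'} [Field K] [Algebra O K]
    {D₁ : Type u₁} [Category.{v₁} D₁] [Preadditive D₁] [Linear O D₁]
    {D₂ : Type u₂} [Category.{v₂} D₂] [Preadditive D₂] [Linear O D₂]
    {C : Type u₃} [Category.{v₃} C] [Preadditive C] [Linear K C]
    {G₁ : D₁ ⥤ C} {G₂ : D₂ ⥤ C}
    {ι : Type} [Fintype ι] (S₁ : SFam O D₁ ι) (S₂ : SFam O D₂ ι)
    (φ : ∀ i, G₁.obj (S₁.X i) ≅ G₂.obj (S₂.X i))

/-- a comparison map is good if the maps from the simple objects correspond under it -/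
def Good {Z₁ : D₁} {Z₂ : D₂} (f : G₁.obj Z₁ ⟶ G₂.obj Z₂) : Prop :=
  (∀ l (a : S₁.X l ⟶ Z₁), ∃ a' : S₂.X l ⟶ Z₂, Sq G₁ G₂ (φ l).hom f a a') ∧
  (∀ l (a' : S₂.X l ⟶ Z₂), ∃ a : S₁.X l ⟶ Z₁, Sq G₁ G₂ (φ l).hom f a a')

end Pool.Agent.Lib.MP_21cf63_al
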