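import Mathlib

/-! Perron-Frobenius dimensions for a fusion rule (lemma H1 for MP_21cf63_al). -/

namespace Pool.Agent.Lib.MP_21cf63_al

open Finset

/-- Existence of a positive eigenvector of a strictly positive real matrix. -/
theorem pf_exists {ι : Type*} [Fintype ι] [Nonempty ι] (P : ι → ι → ℝ) (hP : ∀ i k, 0 < P i k) :
    ∃ (lam : ℝ) (h : ι → ℝ), (∀ i, 0 < h i) ∧ ∀ i, ∑ k, P i k * h k = lam * h i := by
  classical
  set K : Set (ℝ × (ι → ℝ)) := {q | 0 ≤ q.1 ∧ (∀ i, 0 ≤ q.2 i) ∧ ∑ i, q.2 i = 1 ∧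
    ∀ i, q.1 * q.2 i ≤ ∑ k, P i k * q.2 k} with hK
  have hcl : IsClosed K := by
    have c1 : IsClosed {q : ℝ × (ι → ℝ) | 0 ≤ q.1} := isClosed_le continuous_const continuous_fst
    have c2 : IsClosed {q : ℝ × (ι → ℝ) | ∀ i, 0 ≤ q.2 i} := by
      simp only [Set.ofPred_forall]
      exact isClosed_iInter fun i => isClosed_le continuous_const (by fun_prop)
    have c3 : IsClosed {q : ℝ × (ι → ℝ) | ∑ i, q.2 i = 1} :=
      isClosed_eq (by fun_prop) continuous_const
    have c4 : IsClosed {q : ℝ × (ι → ℝ) | ∀ i, q.1 * q.2 i ≤ ∑ k, P i k * q.2 k} := by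
      simp only [Set.ofPred_forall]
      exact isClosed_iInter fun i => isClosed_le (by fun_prop) (by fun_prop)
    have : K = {q : ℝ × (ι → ℝ) | 0 ≤ q.1} ∩ ({q : ℝ × (ι → ℝ) | ∀ i, 0 ≤ q.2 i} ∩
      ({q : ℝ × (ι → ℝ) | ∑ i, q.2 i = 1} ∩ {q : ℝ × (ι → ℝ) | ∀ i, q.1 * q.2 i ≤ ∑ k, P i k * q.2 k})) := rfl
    rw [this]
    exact c1.inter (c2.inter (c3.inter c4))
  have hx1 : ∀ q ∈ K, ∀ i, q.2 i ≤ 1 := by
    intro q hq i
    rw [← hq.2.2.1]
    exact single_le_sum (f := q.2) (fun j _ => hq.2.1 j) (mem_univ i)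
  have hcomp : IsCompact K := by
    have hsub : K ⊆ (Set.Icc (0:ℝ) (∑ i, ∑ k, P i k)) ×ˢ (Set.Icc (0 : ι → ℝ) 1) := by
      intro q hq
      refine ⟨⟨hq.1, ?_⟩, ⟨fun i => hq.2.1 i, fun i => hx1 q hq i⟩⟩
      calc q.1 = ∑ i, q.1 * q.2 i := by rw [← mul_sum, hq.2.2.1, mul_one]
        _ ≤ ∑ i, ∑ k, P i k * q.2 k := sum_le_sum fun i _ => hq.2.2.2 i
        _ ≤ ∑ i, ∑ k, P i k := by
          refine sum_le_sum fun i _ => sum_le_sum fun k _ => ?_
          have := hx1 q hq k
          have := hP i k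
          nlinarith
    exact (isCompact_Icc.prod isCompact_Icc).of_isClosed_subset hcl hsub
  obtain ⟨i0⟩ := ‹Nonempty ι›
  have hne : K.Nonempty := by
    refine ⟨(0, Pi.single i0 1), le_rfl, fun i => ?_, ?_, fun i => ?_⟩
    · by_cases h : i = i0
      · subst h; simp
      · simp [h]
    · simp
    · rw [zero_mul]
      refine sum_nonneg fun k _ => mul_nonneg (hP i k).le ?_
      by_cases h : k = i0
      · subst h; simp
      · simp [h]
  obtain ⟨⟨lam, x⟩, hq, hmax⟩ := hcomp.exists_isMaxOn hne continuous_fst.continuousOn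
  obtain ⟨h0, hx0, hsum, hle⟩ := hq
  simp only at h0 hx0 hsum hle
  -- some coordinate positive
  obtain ⟨j0, -, hj0⟩ : ∃ j ∈ (univ : Finset ι), 0 < x j := by
    by_contra hcon
    push Not at hcon
    have : ∑ i, x i ≤ 0 := sum_nonpos hcon
    linarith
  set y : ι → ℝ := fun i => ∑ k, P i k * x k with hy
  have hypos : ∀ i, 0 < y i := by
    intro i
    apply sum_pos' (fun k _ => mul_nonneg (hP i k).le (hx0 k))
    exact ⟨j0, mem_univ _, mul_pos (hP i j0) hj0⟩
  have heq : ∀ i, y i = lam * x i := by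
    by_contra hcon
    push Not at hcon
    obtain ⟨i1, hi1⟩ := hcon
    have hi1' : lam * x i1 < y i1 := lt_of_le_of_ne (hle i1) (Ne.symm hi1)
    have hstrict : ∀ i, lam * y i < ∑ k, P i k * y k := by
      intro i
      have h1 : ∑ k, P i k * y k - lam * y i = ∑ k, P i k * (y k - lam * x k) := by
        simp only [mul_sub, sum_sub_distrib]
        congr 1
        simp only [hy, mul_sum]
        exact sum_congr rfl fun k _ => by ring
      have h2 : 0 < ∑ k, P i k * (y k - lam * x k) := by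
        apply sum_pos'
        · exact fun k _ => mul_nonneg (hP i k).le (by linarith [hle k])
        · exact ⟨i1, mem_univ _, mul_pos (hP i i1) (by linarith)⟩
      linarith
    obtain ⟨m, hm⟩ := Finite.exists_min (fun i => (∑ k, P i k * y k) / y i)
    set t := (∑ k, P m k * y k) / y m with ht
    have htlam : lam < t := by
      rw [ht, lt_div_iff₀ (hypos m)]
      exact hstrict m
    set s := ∑ i, y i with hs
    have hspos : 0 < s := sum_pos (fun i _ => hypos i) ⟨i0, mem_univ _⟩
    have hmem : (t, fun i => y i / s) ∈ K := by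
      refine ⟨by simp only; linarith, fun i => (div_pos (hypos i) hspos).le, ?_, ?_⟩
      · simp only
        rw [← sum_div, ← hs, div_self hspos.ne']
      · intro i
        simp only
        have h1 := hm i
        rw [le_div_iff₀ (hypos i)] at h1
        have h2 : ∑ k, P i k * (y k / s) = (∑ k, P i k * y k) / s := by
          rw [sum_div]; exact sum_congr rfl fun k _ => by ring
        rw [h2, ← mul_div_assoc]
        exact div_le_div_of_nonneg_right h1 hspos.le
    have := hmax hmem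
    simp only [Set.mem_ofPred_eq] at this
    linarith
  have hlam : 0 < lam := by
    have h1 := hypos j0
    rw [heq j0] at h1
    by_contra hcon
    push Not at hcon
    nlinarith [mul_nonneg (sub_nonneg.mpr hcon) hj0.le]
  refine ⟨lam, x, fun i => ?_, heq⟩
  have h1 := hypos i
  rw [heq i] at h1
  by_contra hcon
  push Not at hcon
  nlinarith [mul_nonneg (sub_nonneg.mpr hcon) hlam.le]

/-- The eigenvalue of a positive eigenvector is simple. -/
theorem pf_unique {ι : Type*} [Fintype ι] [Nonempty ι] (P : ι → ι → ℝ) (hP : ∀ i k, 0 < P i k)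
    {lam : ℝ} {h : ι → ℝ} (hpos : ∀ i, 0 < h i) (hh : ∀ i, ∑ k, P i k * h k = lam * h i)
    {v : ι → ℝ} (hv : ∀ i, ∑ k, P i k * v k = lam * v i) : ∃ c : ℝ, ∀ i, v i = c * h i := by
  obtain ⟨m, hm⟩ := Finite.exists_min (fun i => v i / h i)
  refine ⟨v m / h m, ?_⟩
  set c := v m / h m with hc
  have hw0 : ∀ i, 0 ≤ v i - c * h i := by
    intro i
    have := hm i
    rw [le_div_iff₀ (hpos i)] at this
    linarith
  have hwm : v m - c * h m = 0 := by
    rw [hc, div_mul_cancel₀ _ (hpos m).ne', sub_self]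
  have hsum : ∑ k, P m k * (v k - c * h k) = 0 := by
    have : ∑ k, P m k * (v k - c * h k) = lam * (v m - c * h m) := by
      simp only [mul_sub, sum_sub_distrib]
      have e : ∑ k, P m k * (c * h k) = c * ∑ k, P m k * h k := by
        rw [mul_sum]; exact sum_congr rfl fun k _ => by ring
      rw [e, hh, hv]; ring
    rw [this, hwm, mul_zero]
  intro i
  have h1 := (sum_eq_zero_iff_of_nonneg (fun k _ => mul_nonneg (hP m k).le (hw0 k))).mp hsum i (mem_univ i)
  rcases mul_eq_zero.mp h1 with h2 | h2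
  · exact absurd h2 (hP m i).ne'
  · linarith

/-- H1: Perron-Frobenius dimension for a fusion rule. -/
theorem H1_exists_fpdim {ι : Type*} [Fintype ι] [DecidableEq ι] (N : ι → ι → ι → ℕ) (o : ι)
    (hl : ∀ j k, N o j k = if j = k then 1 else 0)
    (hr : ∀ i k, N i o k = if i = k then 1 else 0)
    (hassoc : ∀ i j k l, ∑ m, N i j m * N m k l = ∑ n, N j k n * N i n l)
    (ht1 : ∀ i k, ∃ j, 0 < N i j k) (ht2 : ∀ j k, ∃ i, 0 < N i j k) :
    ∃ d f : ι → ℝ, (∀ i, 0 < d i) ∧ (∀ i, 0 < f i) ∧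
      (∀ i j, ∑ k, (N i j k : ℝ) * d k = d i * d j) ∧
      (∀ j k, ∑ i, f i * (N i j k : ℝ) = d j * f k) := by
  have : Nonempty ι := ⟨o⟩
  set L : ι → Matrix ι ι ℝ := fun i => Matrix.of fun j k => (N i j k : ℝ) with hL
  set R : ι → Matrix ι ι ℝ := fun j => Matrix.of fun i k => (N i j k : ℝ) with hR
  have hcomm : ∀ i m, Commute (L i) (R m) := by
    intro i m
    ext j l
    simp only [hL, hR, Matrix.mul_apply, Matrix.of_apply]
    exact_mod_cast hassoc i j m l
  set P : Matrix ι ι ℝ := ∑ m, R m with hP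
  set Q : Matrix ι ι ℝ := ∑ i, L i with hQ
  have hPapp : ∀ i k, P i k = ∑ j, (N i j k : ℝ) := by
    intro i k; simp [hP, hR, Matrix.sum_apply]
  have hQapp : ∀ j k, Q j k = ∑ i, (N i j k : ℝ) := by
    intro j k; simp [hQ, hL, Matrix.sum_apply]
  have hPpos : ∀ i k, 0 < P i k := by
    intro i k
    rw [hPapp]
    obtain ⟨j, hj⟩ := ht1 i k
    exact sum_pos' (fun _ _ => by positivity) ⟨j, mem_univ _, by exact_mod_cast hj⟩
  have hQpos : ∀ k j, 0 < Q j k := by
    intro k j
    rw [hQapp]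
    obtain ⟨i, hi⟩ := ht2 j k
    exact sum_pos' (fun _ _ => by positivity) ⟨i, mem_univ _, by exact_mod_cast hi⟩
  have hLP : ∀ i, Commute (L i) P := fun i => Commute.sum_right _ _ _ fun m _ => hcomm i m
  have hQR : ∀ m, Commute Q (R m) := fun m => Commute.sum_left _ _ _ fun i _ => hcomm i m
  -- right eigenvector
  obtain ⟨lam, h, hpos, hh⟩ := pf_exists (fun i k => P i k) hPpos
  set d : ι → ℝ := fun i => h i / h o with hd
  have hdpos : ∀ i, 0 < d i := fun i => div_pos (hpos i) (hpos o)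
  have hdo : d o = 1 := div_self (hpos o).ne'
  have hdeig : P.mulVec d = lam • d := by
    ext i
    have := hh i
    simp only [hd, Matrix.mulVec, dotProduct, Pi.smul_apply, smul_eq_mul]
    rw [mul_div_assoc', ← this, sum_div]
    exact sum_congr rfl fun k _ => by ring
  have key : ∀ i j, ∑ k, (N i j k : ℝ) * d k = d i * d j := by
    intro i
    have h1 : P.mulVec ((L i).mulVec d) = lam • (L i).mulVec d := by
      rw [Matrix.mulVec_mulVec, ← (hLP i).eq, ← Matrix.mulVec_mulVec, hdeig, Matrix.mulVec_smul]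
    obtain ⟨c, hc⟩ := pf_unique (fun i k => P i k) hPpos hdpos
      (fun i => congrFun hdeig i) (v := (L i).mulVec d) (fun i => congrFun h1 i)
    have hc' : ∀ j, ∑ k, (N i j k : ℝ) * d k = c * d j := fun j => hc j
    have hco : d i = c := by
      have h2 := hc' o
      simpa [hr, hdo] using h2
    intro j
    rw [hco]; exact hc' j
  -- left eigenvector
  obtain ⟨mu, f, fpos, hf⟩ := pf_exists (fun k j => Q j k) hQpos
  have hfeig : Matrix.vecMul f Q = mu • f := by
    ext k
    have := hf k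
    simp only [Matrix.vecMul, dotProduct, Pi.smul_apply, smul_eq_mul]
    rw [← this]
    exact sum_congr rfl fun k _ => by ring
  have hfd : 0 < ∑ k, f k * d k := sum_pos (fun k _ => mul_pos (fpos k) (hdpos k)) ⟨o, mem_univ _⟩
  refine ⟨d, f, hdpos, fpos, key, ?_⟩
  intro j
  have h1 : Matrix.vecMul (Matrix.vecMul f (R j)) Q = mu • Matrix.vecMul f (R j) := by
    rw [Matrix.vecMul_vecMul, ← (hQR j).eq, ← Matrix.vecMul_vecMul, hfeig, Matrix.smul_vecMul]
  obtain ⟨e, he⟩ := pf_unique (fun k j => Q j k) hQpos fpos hf (v := Matrix.vecMul f (R j)) (by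
    intro k
    have := congrFun h1 k
    simp only [Matrix.vecMul, dotProduct, Pi.smul_apply, smul_eq_mul] at this ⊢
    rw [← this]
    exact sum_congr rfl fun k _ => by ring)
  have he' : ∀ k, ∑ i, f i * (N i j k : ℝ) = e * f k := fun k => he k
  have hed : e = d j := by
    have h2 : ∑ k, (∑ i, f i * (N i j k : ℝ)) * d k = e * ∑ k, f k * d k := by
      rw [mul_sum]
      refine sum_congr rfl fun k _ => ?_
      rw [he' k]; ring
    have h3 : ∑ k, (∑ i, f i * (N i j k : ℝ)) * d k = d j * ∑ k, f k * d k := by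
      have h4 : ∑ k, (∑ i, f i * (N i j k : ℝ)) * d k = ∑ i, f i * ∑ k, (N i j k : ℝ) * d k := by
        simp_rw [sum_mul, mul_sum]
        rw [sum_comm]
        exact sum_congr rfl fun i _ => sum_congr rfl fun k _ => by ring
      rw [h4, mul_sum]
      refine sum_congr rfl fun i _ => ?_
      rw [key]; ring
    exact mul_right_cancel₀ hfd.ne' (h2.symm.trans h3)
  intro k
  rw [← hed]; exact he' k

end Pool.Agent.Lib.MP_21cf63_al
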