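import Mathlib
import Pool.Agent.Lib.MP_21cf63_al.Basic

/-!
Ranks of morphisms in a semisimple linear category over a field.
-/

set_option linter.unusedSectionVars false

open CategoryTheory MonoidalCategory Limits

namespace Pool.Agent.Lib.MP_21cf63_al

universe v u w

lemma finrank_map_add_inf {k : Type*} [Field k] {V W : Type*} [AddCommGroup V] [Module k V]
    [AddCommGroup W] [Module k W] [Module.Finite k V] (L : V →ₗ[k] W) (U : Submodule k V) :
    Module.finrank k (Submodule.map L U) + Module.finrank k (U ⊓ LinearMap.ker L :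
      Submodule k V) = Module.finrank k U := by
  have h := LinearMap.finrank_range_add_finrank_ker (L.domRestrict U)
  rw [LinearMap.range_domRestrict] at h
  rw [← h]
  congr 1
  have e : LinearMap.ker (L.domRestrict U) = Submodule.comap U.subtype (LinearMap.ker L) := by
    ext x; simp
  rw [e, ← Submodule.finrank_map_subtype_eq U (Submodule.comap U.subtype (LinearMap.ker L)),
    Submodule.map_comap_subtype]

namespace SFam

variable {k : Type w} [Field k] {D : Type u} [Category.{v} D] [Preadditive D]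
    [Linear k D] {ι : Type} [Fintype ι] (S : SFam k D ι)

lemma span_q (Z : D) (i : ι) : Submodule.span k (Set.range (S.q Z i)) = ⊤ := by
  rw [eq_top_iff]
  intro x _
  rw [S.from_simple x]
  exact Submodule.sum_mem _ fun a _ => Submodule.smul_mem _ _ (Submodule.subset_span ⟨a, rfl⟩)

lemma linInd_q (Z : D) (i : ι) : LinearIndependent k (S.q Z i) := by
  classical
  rw [Fintype.linearIndependent_iff]
  intro g hg a
  have h1 := congrArg (fun f => S.sc (f ≫ S.p Z i a)) hg
  simp only [Preadditive.sum_comp, zero_comp, sc_zero, Linear.smul_comp, S.q_p] at h1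
  rw [Finset.sum_eq_single a] at h1
  · simpa using h1
  · intro b _ hb
    rw [if_neg hb, smul_zero]
  · intro h; exact absurd (Finset.mem_univ a) h

/-- basis of `Hom (X i, Z)` -/
noncomputable def basisQ (Z : D) (i : ι) : Module.Basis (Fin (S.n Z i)) k (S.X i ⟶ Z) :=
  Module.Basis.mk (S.linInd_q Z i) (by rw [S.span_q])

instance finite_from (Z : D) (i : ι) : Module.Finite k (S.X i ⟶ Z) :=
  Module.Finite.of_basis (S.basisQ Z i)

lemma finrank_from (Z : D) (i : ι) : Module.finrank k (S.X i ⟶ Z) = S.n Z i := by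
  rw [Module.finrank_eq_card_basis (S.basisQ Z i), Fintype.card_fin]

/-- the rank of `f` on `Hom (X i, -)` -/
noncomputable def rk (i : ι) {Y Z : D} (f : Y ⟶ Z) : ℕ :=
  Module.finrank k (LinearMap.range (Linear.rightComp k (S.X i) f))

lemma mem_range {i : ι} {Y Z : D} (f : Y ⟶ Z) (x : S.X i ⟶ Z) :
    x ∈ LinearMap.range (Linear.rightComp k (S.X i) f) ↔ ∃ y : S.X i ⟶ Y, y ≫ f = x := by
  constructor
  · rintro ⟨y, hy⟩; exact ⟨y, hy⟩
  · rintro ⟨y, hy⟩; exact ⟨y, hy⟩

lemma rk_mono {i : ι} {Y Y' Z : D} (f : Y ⟶ Z) (g : Y' ⟶ Z)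
    (h : ∀ x : S.X i ⟶ Y, ∃ y : S.X i ⟶ Y', y ≫ g = x ≫ f) : S.rk i f ≤ S.rk i g := by
  apply Submodule.finrank_mono
  intro x hx
  rw [mem_range] at hx ⊢
  obtain ⟨y, rfl⟩ := hx
  exact h y

lemma rk_comp_le_right {i : ι} {Y Z W : D} (f : Y ⟶ Z) (g : Z ⟶ W) :
    S.rk i (f ≫ g) ≤ S.rk i g :=
  S.rk_mono _ _ fun x => ⟨x ≫ f, Category.assoc _ _ _⟩

lemma rk_comp_le_left {i : ι} {Y Z W : D} (f : Y ⟶ Z) (g : Z ⟶ W) :
    S.rk i (f ≫ g) ≤ S.rk i f := by
  unfold rk
  have h : LinearMap.range (Linear.rightComp k (S.X i) (f ≫ g)) =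
      Submodule.map (Linear.rightComp k (S.X i) g)
        (LinearMap.range (Linear.rightComp k (S.X i) f)) := by
    rw [← LinearMap.range_comp]
    congr 1
    ext x
    simp
  rw [h]
  exact Submodule.finrank_map_le _ _

lemma rk_le_n {i : ι} {Y Z : D} (f : Y ⟶ Z) : S.rk i f ≤ S.n Z i := by
  rw [← finrank_from]
  exact Submodule.finrank_le _

lemma rk_id (i : ι) (Z : D) : S.rk i (𝟙 Z) = S.n Z i := by
  rw [← finrank_from, rk]
  have : LinearMap.range (Linear.rightComp k (S.X i) (𝟙 Z)) = ⊤ := by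
    rw [eq_top_iff]
    intro x _
    exact ⟨x, by simp⟩
  rw [this, finrank_top]

lemma rk_zero (i : ι) (Y Z : D) : S.rk i (0 : Y ⟶ Z) = 0 := by
  have h : LinearMap.range (Linear.rightComp k (S.X i) (0 : Y ⟶ Z)) = ⊥ := by
    rw [eq_bot_iff]
    rintro x ⟨y, rfl⟩
    simp
  rw [rk, h, finrank_bot]

/-- the rank is unchanged by post-composition with a split mono -/
lemma rk_comp_split_mono {i : ι} {Y Z W : D} (f : Y ⟶ Z) (g : Z ⟶ W) (r : W ⟶ Z)
    (h : g ≫ r = 𝟙 Z) : S.rk i (f ≫ g) = S.rk i f := by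
  apply le_antisymm (S.rk_comp_le_left f g)
  calc S.rk i f = S.rk i ((f ≫ g) ≫ r) := by rw [Category.assoc, h, Category.comp_id]
    _ ≤ S.rk i (f ≫ g) := S.rk_comp_le_left _ _

lemma rk_split_epi_comp {i : ι} {Y Z W : D} (s : Z ⟶ Y) (f : Y ⟶ Z) (g : Z ⟶ W)
    (h : s ≫ f = 𝟙 Z) : S.rk i (f ≫ g) = S.rk i g := by
  apply le_antisymm (S.rk_comp_le_right f g)
  calc S.rk i g = S.rk i (s ≫ (f ≫ g)) := by rw [← Category.assoc, h, Category.id_comp]
    _ ≤ S.rk i (f ≫ g) := S.rk_comp_le_right _ _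

/-- rank-nullity inequality -/
lemma rk_add_le {i : ι} {Y Y' Z W : D} (g : Y ⟶ Z) (π : Z ⟶ W) (κ : Y' ⟶ Y)
    (h : κ ≫ g ≫ π = 0) : S.rk i (g ≫ π) + S.rk i (κ ≫ g) ≤ S.rk i g := by
  set L := Linear.rightComp k (S.X i) π with hL
  set V := LinearMap.range (Linear.rightComp k (S.X i) g) with hV
  have h1 : LinearMap.range (Linear.rightComp k (S.X i) (g ≫ π)) = Submodule.map L V := by
    rw [hV, ← LinearMap.range_comp]
    congr 1
    ext x
    simp [hL]
  have h2 : LinearMap.range (Linear.rightComp k (S.X i) (κ ≫ g)) ≤ V ⊓ LinearMap.ker L := by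
    rintro x ⟨y, rfl⟩
    refine ⟨⟨y ≫ κ, by simp⟩, ?_⟩
    show L (Linear.rightComp k (S.X i) (κ ≫ g) y) = 0
    simp only [hL, Linear.rightComp_apply]
    rw [Category.assoc, Category.assoc, h, comp_zero]
  have h3 := finrank_map_add_inf L V
  unfold rk
  rw [h1]
  have h4 := Submodule.finrank_mono h2
  rw [← hV]
  omega

lemma rk_eq_add {i : ι} {Y Y' Z W : D} (g : Y ⟶ Z) (π : Z ⟶ W) (κ : Y' ⟶ Y)
    (h : ∀ x : S.X i ⟶ Y, x ≫ g ≫ π = 0 ↔ ∃ y : S.X i ⟶ Y', y ≫ κ = x) :
    S.rk i g = S.rk i (g ≫ π) + S.rk i (κ ≫ g) := by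
  set L := Linear.rightComp k (S.X i) π with hL
  set V := LinearMap.range (Linear.rightComp k (S.X i) g) with hV
  have h1 : LinearMap.range (Linear.rightComp k (S.X i) (g ≫ π)) = Submodule.map L V := by
    rw [hV, ← LinearMap.range_comp]
    congr 1
    ext x
    simp [hL]
  have h2 : LinearMap.range (Linear.rightComp k (S.X i) (κ ≫ g)) = V ⊓ LinearMap.ker L := by
    apply le_antisymm
    · rintro x ⟨y, rfl⟩
      refine ⟨⟨y ≫ κ, by simp⟩, ?_⟩
      show L (Linear.rightComp k (S.X i) (κ ≫ g) y) = 0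
      simp only [hL, Linear.rightComp_apply]
      have := (h (y ≫ κ)).2 ⟨y, rfl⟩
      simpa using this
    · rintro x ⟨⟨y, rfl⟩, hx⟩
      replace hx : L (Linear.rightComp k (S.X i) g y) = 0 := hx
      simp only [hL, Linear.rightComp_apply] at hx
      rw [Category.assoc] at hx
      obtain ⟨z, hz⟩ := (h y).1 hx
      refine ⟨z, ?_⟩
      simp only [Linear.rightComp_apply]
      rw [← Category.assoc, hz]
  have h3 := finrank_map_add_inf L V
  unfold rk
  rw [h1, h2]
  exact h3.symm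

section Biprod

variable [HasFiniteBiproducts D]

/-- every family of subspaces of the `Hom (X i, Z)` comes from a direct summand of `Z` -/
lemma exists_image {Z : D} (U : ∀ i, Submodule k (S.X i ⟶ Z)) :
    ∃ (J : D) (m : J ⟶ Z) (r : Z ⟶ J), m ≫ r = 𝟙 J ∧
      ∀ i (x : S.X i ⟶ Z), x ∈ U i ↔ ∃ y : S.X i ⟶ J, y ≫ m = x := by
  classical
  let b : ∀ i, Module.Basis (Fin (Module.finrank k (U i))) k (U i) := fun i => Module.finBasis k (U i)
  have hφ : ∀ i (a : Fin (Module.finrank k (U i))), ∃ φ : (S.X i ⟶ Z) →ₗ[k] k,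
      ∀ a', φ (b i a') = if a' = a then 1 else 0 := by
    intro i a
    obtain ⟨φ, hφ⟩ := LinearMap.exists_extend (p := U i) ((b i).coord a)
    refine ⟨φ, fun a' => ?_⟩
    have := LinearMap.congr_fun hφ (b i a')
    simp only [LinearMap.coe_comp, Submodule.coe_subtype, Function.comp_apply,
      Module.Basis.coord_apply, Module.Basis.repr_self] at this
    rw [this, Finsupp.single_apply]
  choose φ hφ using hφ
  have hr : ∀ i (a : Fin (Module.finrank k (U i))), ∃ g : Z ⟶ S.X i,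
      ∀ x : S.X i ⟶ Z, x ≫ g = φ i a x • 𝟙 _ := fun i a => S.exists_repr (φ i a)
  choose r hr using hr
  let F : (Σ i, Fin (Module.finrank k (U i))) → D := fun c => S.X c.1
  refine ⟨⨁ F, biproduct.desc fun c => (b c.1 c.2 : S.X c.1 ⟶ Z),
    biproduct.lift fun c => r c.1 c.2, ?_, ?_⟩
  · apply biproduct.hom_ext'
    intro c
    apply biproduct.hom_ext
    intro c'
    simp only [biproduct.ι_desc_assoc, Category.assoc, biproduct.lift_π, Category.comp_id]
    obtain ⟨i, a⟩ := c
    obtain ⟨j, a'⟩ := c'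
    by_cases hij : i = j
    · subst hij
      simp only
      rw [hr, hφ]
      by_cases haa : a = a'
      · subst haa
        simp [F]
      · rw [if_neg haa, zero_smul]
        rw [biproduct.ι_π_ne]
        intro h
        apply haa
        simpa using h
    · rw [biproduct.ι_π_ne _ (by intro h; apply hij; exact congrArg Sigma.fst h)]
      exact S.hom_zero i j hij _
  · intro i x
    constructor
    · intro hx
      have h1 : (⟨x, hx⟩ : U i) = ∑ a, (b i).repr ⟨x, hx⟩ a • b i a := ((b i).sum_repr _).symm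
      have h2 : x = ∑ a, (b i).repr ⟨x, hx⟩ a • (b i a : S.X i ⟶ Z) := by
        have h3 := congrArg (U i).subtype h1
        rw [map_sum] at h3
        simpa only [map_smul, Submodule.subtype_apply] using h3
      refine ⟨∑ a, (b i).repr ⟨x, hx⟩ a • biproduct.ι F ⟨i, a⟩, ?_⟩
      rw [Preadditive.sum_comp]
      simp only [Linear.smul_comp, biproduct.ι_desc]
      exact h2.symm
    · rintro ⟨y, rfl⟩
      rw [← Category.comp_id y, ← biproduct.total, Preadditive.comp_sum, Preadditive.sum_comp]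
      refine Submodule.sum_mem _ fun c _ => ?_
      simp only [Category.assoc, biproduct.ι_desc]
      obtain ⟨j, a⟩ := c
      by_cases hij : i = j
      · subst hij
        have h3 := S.comp_eq_smul (i := i) (y ≫ biproduct.π F ⟨i, a⟩) (b i a : S.X i ⟶ Z)
        rw [Category.assoc] at h3
        simp only
        rw [h3]
        exact Submodule.smul_mem _ _ (b i a).2
      · have h4 := S.hom_zero i j hij (y ≫ biproduct.π F ⟨j, a⟩)
        simp only
        rw [← Category.assoc, h4, zero_comp]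
        exact Submodule.zero_mem _

include S in
/-- image factorisation -/
lemma exists_factor {A Z : D} (f : A ⟶ Z) :
    ∃ (J : D) (e : A ⟶ J) (s : J ⟶ A) (m : J ⟶ Z) (r : Z ⟶ J),
      e ≫ m = f ∧ s ≫ e = 𝟙 J ∧ m ≫ r = 𝟙 J := by
  classical
  obtain ⟨J, m, r, hmr, hU⟩ :=
    S.exists_image (Z := Z) fun i => LinearMap.range (Linear.rightComp k (S.X i) f)
  have hf : f ≫ r ≫ m = f := by
    apply S.ext_from
    intro i x
    obtain ⟨y, hy⟩ := (hU i (x ≫ f)).1 ⟨x, rfl⟩
    calc x ≫ f ≫ r ≫ m = (x ≫ f) ≫ r ≫ m := by simp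
      _ = (y ≫ m) ≫ r ≫ m := by rw [hy]
      _ = y ≫ (m ≫ r) ≫ m := by simp
      _ = x ≫ f := by rw [hmr, Category.id_comp, hy]
  have hs : ∀ i (a : Fin (S.n J i)), ∃ x : S.X i ⟶ A, x ≫ f = S.q J i a ≫ m := by
    intro i a
    have := (hU i (S.q J i a ≫ m)).2 ⟨_, rfl⟩
    obtain ⟨x, hx⟩ := this
    exact ⟨x, hx⟩
  choose x hx using hs
  refine ⟨J, f ≫ r, ∑ i, ∑ a, S.p J i a ≫ x i a, m, r, ?_, ?_, hmr⟩
  · rw [Category.assoc, hf]
  · have h1 : (∑ i, ∑ a, S.p J i a ≫ x i a) ≫ f = m := by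
      conv_rhs => rw [S.total_comp m]
      simp only [Preadditive.sum_comp, Category.assoc, hx]
    rw [← Category.assoc, h1, hmr]

/-- kernels -/
lemma exists_kernel {A Z : D} (f : A ⟶ Z) :
    ∃ (J : D) (κ : J ⟶ A), κ ≫ f = 0 ∧
      ∀ i (x : S.X i ⟶ A), x ≫ f = 0 ↔ ∃ y : S.X i ⟶ J, y ≫ κ = x := by
  obtain ⟨J, m, r, hmr, hU⟩ :=
    S.exists_image (Z := A) fun i => LinearMap.ker (Linear.rightComp k (S.X i) f)
  refine ⟨J, m, ?_, fun i x => hU i x⟩
  apply S.ext_from
  intro i x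
  have := (hU i (x ≫ m)).2 ⟨x, rfl⟩
  simp only [LinearMap.mem_ker, Linear.rightComp_apply] at this
  rw [← Category.assoc, this, comp_zero]

end Biprod

/-- dimension count along a direct sum decomposition -/
lemma n_of_decomp {α : Type} [Fintype α] {Z : D} (W : α → D) (p : ∀ a, Z ⟶ W a)
    (q : ∀ a, W a ⟶ Z) (h1 : ∀ a, q a ≫ p a = 𝟙 _) (h2 : ∀ a b, a ≠ b → q a ≫ p b = 0)
    (ht : ∑ a, p a ≫ q a = 𝟙 Z) (i : ι) : S.n Z i = ∑ a, S.n (W a) i := by
  classical
  simp only [← finrank_from]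
  rw [← Module.finrank_pi_fintype]
  refine LinearEquiv.finrank_eq
    { toFun := fun x a => x ≫ p a
      map_add' := fun x y => by ext a; simp
      map_smul' := fun r x => by ext a; simp
      invFun := fun y => ∑ a, y a ≫ q a
      left_inv := fun x => ?_
      right_inv := fun y => ?_ }
  · simp only [Category.assoc]
    rw [← Preadditive.comp_sum, ht, Category.comp_id]
  · ext a
    simp only [Preadditive.sum_comp, Category.assoc]
    rw [Finset.sum_eq_single a]
    · rw [h1, Category.comp_id]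
    · intro b _ hb
      rw [h2 b a hb, comp_zero]
    · intro h; exact absurd (Finset.mem_univ a) h

section Monoidal

variable [MonoidalCategory D] [MonoidalPreadditive D]

lemma n_tensor_left (Z Y : D) (l : ι) :
    S.n (Z ⊗ Y) l = ∑ i, S.n Z i * S.n (S.X i ⊗ Y) l := by
  classical
  rw [S.n_of_decomp (α := Σ i, Fin (S.n Z i)) (fun c => S.X c.1 ⊗ Y)
    (fun c => S.p Z c.1 c.2 ▷ Y) (fun c => S.q Z c.1 c.2 ▷ Y)]
  · rw [Fintype.sum_sigma]
    simp
  · rintro ⟨i, a⟩
    rw [← comp_whiskerRight, q_p_self, id_whiskerRight]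
  · rintro ⟨i, a⟩ ⟨j, b⟩ h
    rw [← comp_whiskerRight]
    by_cases hij : i = j
    · subst hij
      simp only [S.q_p]
      rw [if_neg]
      · simp
      · intro h'; apply h; rw [h']
    · simp only
      rw [S.hom_zero i j hij (_ ≫ _)]
      simp
  · simp only [← comp_whiskerRight]
    rw [← sum_whiskerRight, Fintype.sum_sigma, S.total, id_whiskerRight]

lemma n_tensor_right (Z Y : D) (l : ι) :
    S.n (Z ⊗ Y) l = ∑ j, S.n Y j * S.n (Z ⊗ S.X j) l := by
  classical
  rw [S.n_of_decomp (α := Σ i, Fin (S.n Y i)) (fun c => Z ⊗ S.X c.1)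
    (fun c => Z ◁ S.p Y c.1 c.2) (fun c => Z ◁ S.q Y c.1 c.2)]
  · rw [Fintype.sum_sigma]
    simp
  · rintro ⟨i, a⟩
    rw [← whiskerLeft_comp, q_p_self, whiskerLeft_id]
  · rintro ⟨i, a⟩ ⟨j, b⟩ h
    rw [← whiskerLeft_comp]
    by_cases hij : i = j
    · subst hij
      simp only [S.q_p]
      rw [if_neg]
      · simp
      · intro h'; apply h; rw [h']
    · simp only
      rw [S.hom_zero i j hij (_ ≫ _)]
      simp
  · simp only [← whiskerLeft_comp]
    rw [← whiskerLeft_sum, Fintype.sum_sigma, S.total, whiskerLeft_id]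

lemma n_iso {Y Z : D} (e : Y ≅ Z) (i : ι) : S.n Y i = S.n Z i := by
  rw [← finrank_from, ← finrank_from]
  refine LinearEquiv.finrank_eq
    { toFun := fun x => x ≫ e.hom
      map_add' := fun x y => by simp
      map_smul' := fun r x => by simp
      invFun := fun y => y ≫ e.inv
      left_inv := fun x => by simp
      right_inv := fun y => by simp }

lemma n_X (i j : ι) [DecidableEq ι] : S.n (S.X i) j = if i = j then 1 else 0 := by
  by_cases h : i = j
  · subst h
    rw [if_pos rfl, S.n_of_decomp (α := Unit) (fun _ => S.X i) (fun _ => 𝟙 _) (fun _ => 𝟙 _)]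
    · simp only [Finset.univ_unique, Finset.sum_singleton]
      rw [← finrank_from]
      have e : k ≃ₗ[k] (S.X i ⟶ S.X i) :=
        LinearEquiv.ofBijective (LinearMap.toSpanSingleton k _ (𝟙 (S.X i))) (S.end_bij i)
      rw [← e.finrank_eq, Module.finrank_self]
    · intro a; simp
    · intro a b h; exact absurd (Subsingleton.elim a b) h
    · simp
  · rw [if_neg h, ← finrank_from]
    have : Subsingleton (S.X j ⟶ S.X i) :=
      ⟨fun f g => by rw [S.hom_zero j i (Ne.symm h) f, S.hom_zero j i (Ne.symm h) g]⟩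
    exact Module.finrank_zero_of_subsingleton

lemma n_assoc (i j m l : ι) :
    ∑ a, S.n (S.X i ⊗ S.X j) a * S.n (S.X a ⊗ S.X m) l =
      ∑ b, S.n (S.X j ⊗ S.X m) b * S.n (S.X i ⊗ S.X b) l := by
  rw [← S.n_tensor_left, ← S.n_tensor_right]
  exact S.n_iso (α_ _ _ _) l

/-- the dimension of an object with respect to a weight -/
noncomputable def dim (d : ι → ℝ) (Z : D) : ℝ := ∑ i, d i * S.n Z i

/-- weighted rank of a morphism -/
noncomputable def wrk (d : ι → ℝ) {Y Z : D} (f : Y ⟶ Z) : ℝ := ∑ i, d i * S.rk i f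

lemma dim_tensor (d : ι → ℝ)
    (hd : ∀ i j, ∑ m, (S.n (S.X i ⊗ S.X j) m : ℝ) * d m = d i * d j) (Z Y : D) :
    S.dim d (Z ⊗ Y) = S.dim d Z * S.dim d Y := by
  have h1 : ∀ i, S.dim d (S.X i ⊗ Y) = d i * S.dim d Y := by
    intro i
    unfold dim
    calc ∑ l, d l * (S.n (S.X i ⊗ Y) l : ℝ)
        = ∑ l, ∑ j, (S.n Y j : ℝ) * ((S.n (S.X i ⊗ S.X j) l : ℝ) * d l) := by
          refine Finset.sum_congr rfl fun l _ => ?_
          rw [S.n_tensor_right]
          push_cast
          rw [Finset.mul_sum]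
          refine Finset.sum_congr rfl fun j _ => ?_
          ring
      _ = ∑ j, (S.n Y j : ℝ) * (d i * d j) := by
          rw [Finset.sum_comm]
          refine Finset.sum_congr rfl fun j _ => ?_
          rw [← Finset.mul_sum, hd]
      _ = d i * ∑ j, d j * (S.n Y j : ℝ) := by
          rw [Finset.mul_sum]
          refine Finset.sum_congr rfl fun j _ => ?_
          ring
  calc S.dim d (Z ⊗ Y) = ∑ l, ∑ i, (S.n Z i : ℝ) * (d l * (S.n (S.X i ⊗ Y) l : ℝ)) := by
        unfold dim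
        refine Finset.sum_congr rfl fun l _ => ?_
        rw [S.n_tensor_left]
        push_cast
        rw [Finset.mul_sum]
        refine Finset.sum_congr rfl fun j _ => ?_
        ring
    _ = ∑ i, (S.n Z i : ℝ) * S.dim d (S.X i ⊗ Y) := by
        rw [Finset.sum_comm]
        refine Finset.sum_congr rfl fun i _ => ?_
        rw [dim, Finset.mul_sum]
    _ = S.dim d Z * S.dim d Y := by
        simp only [h1]
        conv_rhs => rw [dim]
        rw [Finset.sum_mul]
        refine Finset.sum_congr rfl fun i _ => ?_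
        ring

lemma wrk_whiskerRight [HasFiniteBiproducts D] (d : ι → ℝ)
    (hd : ∀ i j, ∑ m, (S.n (S.X i ⊗ S.X j) m : ℝ) * d m = d i * d j) {A Z : D} (f : A ⟶ Z)
    (Y : D) : S.wrk d (f ▷ Y) = S.wrk d f * S.dim d Y := by
  obtain ⟨J, e, s, m, r, hf, hse, hmr⟩ := S.exists_factor f
  have h1 : ∀ i, S.rk i f = S.n J i := by
    intro i
    rw [← hf, S.rk_comp_split_mono e m r hmr]
    conv_lhs => rw [← Category.comp_id e]
    rw [S.rk_split_epi_comp s e (𝟙 J) hse, S.rk_id]
  have h2 : ∀ i, S.rk i (f ▷ Y) = S.n (J ⊗ Y) i := by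
    intro i
    rw [← hf, comp_whiskerRight, S.rk_comp_split_mono (e ▷ Y) (m ▷ Y) (r ▷ Y)
      (by rw [← comp_whiskerRight, hmr, id_whiskerRight])]
    conv_lhs => rw [← Category.comp_id (e ▷ Y)]
    rw [S.rk_split_epi_comp (s ▷ Y) (e ▷ Y) (𝟙 _)
      (by rw [← comp_whiskerRight, hse, id_whiskerRight]), S.rk_id]
  have h3 : S.wrk d (f ▷ Y) = S.dim d (J ⊗ Y) := by
    unfold wrk dim
    simp only [h2]
  have h4 : S.wrk d f = S.dim d J := by
    unfold wrk dim
    simp only [h1]
  rw [h3, h4, S.dim_tensor d hd]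

end Monoidal

end SFam

end Pool.Agent.Lib.MP_21cf63_al
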