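import Mathlib
import Pool.Agent.Lib.MP_21cf63_al.Rank

/-!
The functional `v` attached to an action of an object on another one.
-/

set_option linter.unusedSectionVars false

open CategoryTheory MonoidalCategory Limits

namespace Pool.Agent.Lib.MP_21cf63_al

universe v u w

namespace SFam

variable {k : Type w} [Field k] {D : Type u} [Category.{v} D] [Preadditive D]
    [Linear k D] [MonoidalCategory D] [MonoidalPreadditive D]
    {ι : Type} [Fintype ι] (S : SFam k D ι) (d : ι → ℝ)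

lemma wrk_nonneg (hd : ∀ i, 0 < d i) {Y Z : D} (f : Y ⟶ Z) : 0 ≤ S.wrk d f :=
  Finset.sum_nonneg fun i _ => mul_nonneg (hd i).le (Nat.cast_nonneg _)

lemma wrk_le_dim (hd : ∀ i, 0 < d i) {Y Z : D} (f : Y ⟶ Z) : S.wrk d f ≤ S.dim d Z :=
  Finset.sum_le_sum fun i _ => mul_le_mul_of_nonneg_left (by exact_mod_cast S.rk_le_n f) (hd i).le

lemma wrk_zero (Y Z : D) : S.wrk d (0 : Y ⟶ Z) = 0 := by
  simp [wrk, rk_zero]

lemma wrk_le_of_rk_le (hd : ∀ i, 0 < d i) {Y Z Y' Z' : D} (f : Y ⟶ Z) (g : Y' ⟶ Z')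
    (h : ∀ i, S.rk i f ≤ S.rk i g) : S.wrk d f ≤ S.wrk d g :=
  Finset.sum_le_sum fun i _ => mul_le_mul_of_nonneg_left (by exact_mod_cast h i) (hd i).le

/-- excess of `f` over what the action generates from it -/
noncomputable def val {B Z : D} (b : B ⊗ Z ⟶ Z) {A : D} (f : A ⟶ Z) : ℝ :=
  S.wrk d f - S.wrk d ((B ◁ f) ≫ b)

/-- supremum of the excesses -/
noncomputable def vv {B Z : D} (b : B ⊗ Z ⟶ Z) : ℝ :=
  sSup {r : ℝ | ∃ (A : D) (f : A ⟶ Z), r = S.val d b f}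

lemma val_le_dim (hd : ∀ i, 0 < d i) {B Z : D} (b : B ⊗ Z ⟶ Z) {A : D} (f : A ⟶ Z) :
    S.val d b f ≤ S.dim d Z := by
  have h1 := S.wrk_le_dim d hd f
  have h2 := S.wrk_nonneg d hd ((B ◁ f) ≫ b)
  unfold val
  linarith

lemma bdd (hd : ∀ i, 0 < d i) {B Z : D} (b : B ⊗ Z ⟶ Z) :
    BddAbove {r : ℝ | ∃ (A : D) (f : A ⟶ Z), r = S.val d b f} :=
  ⟨S.dim d Z, by rintro r ⟨A, f, rfl⟩; exact S.val_le_dim d hd b f⟩

lemma le_vv (hd : ∀ i, 0 < d i) {B Z : D} (b : B ⊗ Z ⟶ Z) {A : D} (f : A ⟶ Z) :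
    S.val d b f ≤ S.vv d b :=
  le_csSup (S.bdd d hd b) ⟨A, f, rfl⟩

lemma vv_le {B Z : D} (b : B ⊗ Z ⟶ Z) (c : ℝ)
    (h : ∀ (A : D) (f : A ⟶ Z), S.val d b f ≤ c) : S.vv d b ≤ c := by
  apply csSup_le (⟨S.val d b (𝟙 Z), Z, 𝟙 Z, rfl⟩ :
    {r : ℝ | ∃ (A : D) (f : A ⟶ Z), r = S.val d b f}.Nonempty)
  rintro r ⟨A, f, rfl⟩
  exact h A f

lemma val_zero {B Z : D} (b : B ⊗ Z ⟶ Z) (A : D) : S.val d b (0 : A ⟶ Z) = 0 := by
  simp [val, wrk_zero]

lemma vv_nonneg (hd : ∀ i, 0 < d i) {B Z : D} (b : B ⊗ Z ⟶ Z) : 0 ≤ S.vv d b := by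
  rw [← S.val_zero d b Z]
  exact S.le_vv d hd b _

/-- the action on `Z ⊗ Y` -/
def tact {B Z : D} (b : B ⊗ Z ⟶ Z) (Y : D) : B ⊗ (Z ⊗ Y) ⟶ Z ⊗ Y :=
  (α_ B Z Y).inv ≫ (b ▷ Y)

lemma tact_map {B Z Z' : D} (b : B ⊗ Z ⟶ Z) (b' : B ⊗ Z' ⟶ Z') (π : Z ⟶ Z')
    (h : (B ◁ π) ≫ b' = b ≫ π) (Y : D) :
    (B ◁ (π ▷ Y)) ≫ tact b' Y = tact b Y ≫ (π ▷ Y) := by
  unfold tact
  rw [Category.assoc, ← comp_whiskerRight, ← h, comp_whiskerRight]
  simp

lemma tact_whiskerLeft {B Z : D} (b : B ⊗ Z ⟶ Z) {Y Y' : D} (y : Y ⟶ Y') :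
    (B ◁ (Z ◁ y)) ≫ tact b Y' = tact b Y ≫ (Z ◁ y) := by
  unfold tact
  rw [Category.assoc, ← whisker_exchange]
  simp

lemma tact_tact {B Z : D} (b : B ⊗ Z ⟶ Z) (Y Y' : D) :
    (B ◁ (α_ Z Y Y').hom) ≫ tact b (Y ⊗ Y') = tact (tact b Y) Y' ≫ (α_ Z Y Y').hom := by
  unfold tact
  simp only [comp_whiskerRight, Category.assoc]
  rw [associator_naturality_left]
  simp only [← Category.assoc]
  congr 1
  rw [← cancel_mono (α_ (B ⊗ Z) Y Y').inv]
  simp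

lemma val_tact [HasFiniteBiproducts D]
    (hd : ∀ i j, ∑ m, (S.n (S.X i ⊗ S.X j) m : ℝ) * d m = d i * d j)
    {B Z : D} (b : B ⊗ Z ⟶ Z) (Y : D) {A : D} (f : A ⟶ Z) :
    S.val d (tact b Y) (f ▷ Y) = S.dim d Y * S.val d b f := by
  have h1 : (B ◁ (f ▷ Y)) ≫ tact b Y = (α_ B A Y).inv ≫ (((B ◁ f) ≫ b) ▷ Y) := by
    unfold tact
    rw [comp_whiskerRight, ← Category.assoc, ← Category.assoc]
    congr 1
    simp
  have h2 : S.wrk d ((B ◁ (f ▷ Y)) ≫ tact b Y) = S.wrk d (((B ◁ f) ≫ b) ▷ Y) := by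
    rw [h1]
    unfold wrk
    refine Finset.sum_congr rfl fun i _ => ?_
    rw [S.rk_split_epi_comp (α_ B A Y).hom (α_ B A Y).inv _ (by simp)]
  unfold val
  rw [h2, S.wrk_whiskerRight d hd, S.wrk_whiskerRight d hd]
  ring

lemma vv_tact [HasFiniteBiproducts D] (hd0 : ∀ i, 0 < d i)
    (hd : ∀ i j, ∑ m, (S.n (S.X i ⊗ S.X j) m : ℝ) * d m = d i * d j)
    {B Z : D} (b : B ⊗ Z ⟶ Z) (Y : D) :
    S.dim d Y * S.vv d b ≤ S.vv d (tact b Y) := by
  have h0 : 0 ≤ S.dim d Y :=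
    Finset.sum_nonneg fun i _ => mul_nonneg (hd0 i).le (Nat.cast_nonneg _)
  rcases eq_or_lt_of_le h0 with h | h
  · rw [← h, zero_mul]
    exact S.vv_nonneg d hd0 _
  · rw [← le_div_iff₀' h]
    apply S.vv_le
    intro A f
    rw [le_div_iff₀' h, ← S.val_tact d hd]
    exact S.le_vv d hd0 _ _

lemma val_le_add (hd0 : ∀ i, 0 < d i) {B Z Z' : D} (b : B ⊗ Z ⟶ Z)
    (b' : B ⊗ Z' ⟶ Z') (π : Z ⟶ Z') (h : (B ◁ π) ≫ b' = b ≫ π) {A A' : D} (g : A ⟶ Z)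
    (κ : A' ⟶ A) (h1 : κ ≫ g ≫ π = 0)
    (h2 : ∀ i (x : S.X i ⟶ A), x ≫ g ≫ π = 0 ↔ ∃ y : S.X i ⟶ A', y ≫ κ = x) :
    S.val d b g ≤ S.val d b' (g ≫ π) + S.val d b (κ ≫ g) := by
  have e1 : S.wrk d g = S.wrk d (g ≫ π) + S.wrk d (κ ≫ g) := by
    unfold wrk
    rw [← Finset.sum_add_distrib]
    refine Finset.sum_congr rfl fun i _ => ?_
    rw [S.rk_eq_add g π κ (h2 i)]
    push_cast
    ring
  have e2 : S.wrk d ((B ◁ (g ≫ π)) ≫ b') + S.wrk d ((B ◁ (κ ≫ g)) ≫ b) ≤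
      S.wrk d ((B ◁ g) ≫ b) := by
    unfold wrk
    rw [← Finset.sum_add_distrib]
    refine Finset.sum_le_sum fun i _ => ?_
    rw [← mul_add]
    refine mul_le_mul_of_nonneg_left ?_ (hd0 i).le
    have e3 : (B ◁ (g ≫ π)) ≫ b' = ((B ◁ g) ≫ b) ≫ π := by
      rw [whiskerLeft_comp, Category.assoc, h, Category.assoc]
    have e4 : (B ◁ (κ ≫ g)) ≫ b = (B ◁ κ) ≫ ((B ◁ g) ≫ b) := by
      rw [whiskerLeft_comp, Category.assoc]
    rw [e3, e4]
    have e5 : (B ◁ κ) ≫ ((B ◁ g) ≫ b) ≫ π = 0 := by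
      rw [Category.assoc, ← h, ← whiskerLeft_comp_assoc, ← whiskerLeft_comp_assoc, Category.assoc,
        h1]
      simp
    exact_mod_cast S.rk_add_le ((B ◁ g) ≫ b) π (B ◁ κ) e5
  unfold val
  linarith

lemma vv_le_sum [HasFiniteBiproducts D] (hd0 : ∀ i, 0 < d i) {α : Type} [Fintype α] {B Z : D}
    (b : B ⊗ Z ⟶ Z) (W : α → D) (c : ∀ a, B ⊗ W a ⟶ W a) (π : ∀ a, Z ⟶ W a)
    (h : ∀ a, (B ◁ π a) ≫ c a = b ≫ π a)
    (hinj : ∀ (A : D) (f : A ⟶ Z), (∀ a, f ≫ π a = 0) → f = 0) :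
    S.vv d b ≤ ∑ a, S.vv d (c a) := by
  classical
  apply S.vv_le
  intro A f
  have key : ∀ s : Finset α, ∃ (A' : D) (κ : A' ⟶ A), (∀ a ∈ s, κ ≫ f ≫ π a = 0) ∧
      S.val d b f ≤ ∑ a ∈ s, S.vv d (c a) + S.val d b (κ ≫ f) := by
    intro s
    induction s using Finset.induction_on with
    | empty => exact ⟨A, 𝟙 A, by simp, by simp⟩
    | insert a s has ih =>
      obtain ⟨A', κ, hκ, hle⟩ := ih
      obtain ⟨J, κ', hκ', hker⟩ := S.exists_kernel (κ ≫ f ≫ π a)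
      refine ⟨J, κ' ≫ κ, ?_, ?_⟩
      · intro a' ha'
        rw [Finset.mem_insert] at ha'
        rcases ha' with rfl | ha'
        · rw [Category.assoc]; exact hκ'
        · rw [Category.assoc, hκ a' ha', comp_zero]
      · rw [Finset.sum_insert has]
        have h1 := S.val_le_add d hd0 b (c a) (π a) (h a) (κ ≫ f) κ'
          (by rw [Category.assoc]; exact hκ') (by intro i x; rw [Category.assoc]; exact hker i x)
        have h2 := S.le_vv d hd0 (c a) ((κ ≫ f) ≫ π a)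
        rw [Category.assoc κ' κ f]
        linarith
  obtain ⟨A', κ, hκ, hle⟩ := key Finset.univ
  have h0 : κ ≫ f = 0 := hinj _ _ fun a => by rw [Category.assoc]; exact hκ a (Finset.mem_univ a)
  rw [h0, S.val_zero, add_zero] at hle
  exact hle

end SFam

/-- the numerical contradiction -/
lemma numeric {ι : Type} [Fintype ι] [DecidableEq ι] (N : ι → ι → ι → ℕ) (o : ι)
    (d f vj : ι → ℝ) (w : ι → ι → ℝ) (hd0 : ∀ i, 0 < d i) (hf0 : ∀ i, 0 < f i)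
    (hf : ∀ j m, ∑ i, f i * (N i j m : ℝ) = d j * f m)
    (hv : ∀ j, 0 ≤ vj j) (hvo : vj o ≤ 0)
    (h1 : ∀ i j, d j * vj i ≤ w i j) (h2 : ∀ j, vj j ≤ w o j)
    (h3 : ∀ i j, w i j ≤ ∑ m, (N i j m : ℝ) * vj m) : ∀ j, vj j = 0 := by
  have hvo' : vj o = 0 := le_antisymm hvo (hv o)
  set E := ∑ j, d j with hE
  set F := ∑ i, f i * vj i with hF
  have hup : ∑ i, ∑ j, f i * w i j ≤ E * F := by
    calc ∑ i, ∑ j, f i * w i j ≤ ∑ i, ∑ j, f i * ∑ m, (N i j m : ℝ) * vj m :=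
          Finset.sum_le_sum fun i _ => Finset.sum_le_sum fun j _ =>
            mul_le_mul_of_nonneg_left (h3 i j) (hf0 i).le
      _ = ∑ j, ∑ m, vj m * ∑ i, f i * (N i j m : ℝ) := by
          rw [Finset.sum_comm]
          refine Finset.sum_congr rfl fun j _ => ?_
          simp only [Finset.mul_sum]
          rw [Finset.sum_comm]
          refine Finset.sum_congr rfl fun m _ => Finset.sum_congr rfl fun i _ => ?_
          ring
      _ = ∑ j, ∑ m, vj m * (d j * f m) := by simp only [hf]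
      _ = E * F := by
          rw [hE, hF, Finset.sum_mul_sum]
          refine Finset.sum_congr rfl fun j _ => Finset.sum_congr rfl fun m _ => ?_
          ring
  have hlow : f o * ∑ j, vj j + E * F ≤ ∑ i, ∑ j, f i * w i j := by
    have e0 := Finset.add_sum_erase Finset.univ (fun i => ∑ j, f i * w i j) (Finset.mem_univ o)
    rw [← e0]
    have e1 : f o * ∑ j, vj j ≤ ∑ j, f o * w o j := by
      rw [Finset.mul_sum]
      exact Finset.sum_le_sum fun j _ => mul_le_mul_of_nonneg_left (h2 j) (hf0 o).le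
    have e2 : E * F ≤ ∑ i ∈ Finset.univ.erase o, ∑ j, f i * w i j := by
      have e3 : E * F = ∑ i ∈ Finset.univ.erase o, ∑ j, f i * (d j * vj i) := by
        rw [hF, ← Finset.add_sum_erase _ _ (Finset.mem_univ o), hvo', mul_zero, zero_add,
          Finset.mul_sum]
        refine Finset.sum_congr rfl fun i _ => ?_
        rw [hE, Finset.sum_mul]
        refine Finset.sum_congr rfl fun j _ => ?_
        ring
      rw [e3]
      exact Finset.sum_le_sum fun i _ => Finset.sum_le_sum fun j _ =>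
        mul_le_mul_of_nonneg_left (h1 i j) (hf0 i).le
    linarith
  have hsum : ∑ j, vj j ≤ 0 := by
    have h4 : f o * ∑ j, vj j ≤ 0 := by linarith
    by_contra h
    push Not at h
    have := mul_pos (hf0 o) h
    linarith
  intro j
  have h5 : ∑ j, vj j = 0 := le_antisymm hsum (Finset.sum_nonneg fun i _ => hv i)
  exact (Finset.sum_eq_zero_iff_of_nonneg (fun i _ => hv i)).1 h5 j (Finset.mem_univ j)

end Pool.Agent.Lib.MP_21cf63_al
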