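import Mathlib
import Pool.Agent.Lib.MP_21cf63_al.Val
import Pool.Agent.Lib.MP_21cf63_al.PF

/-!
Theorem A: no object with a generating action of a non-unital family.
-/

set_option linter.unusedSectionVars false

open CategoryTheory MonoidalCategory Limits

namespace Pool.Agent.Lib.MP_21cf63_al

universe v u w

namespace SFam

variable {k : Type w} [Field k] {D : Type u} [Category.{v} D] [Preadditive D]
    [Linear k D] [MonoidalCategory D] [MonoidalPreadditive D] [MonoidalLinear k D]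
    {ι : Type} [Fintype ι] (S : SFam k D ι)

lemma id_nz (i : ι) : 𝟙 (S.X i) ≠ 0 := by
  intro h
  have : (1 : k) = 0 := S.smul_id_inj (i := i) (by rw [h, smul_zero, smul_zero])
  exact one_ne_zero this

lemma n_pos_of_ne_zero {Z : D} {i : ι} (f : S.X i ⟶ Z) (hf : f ≠ 0) : 0 < S.n Z i := by
  rcases Nat.eq_zero_or_pos (S.n Z i) with h | h
  · exfalso
    apply hf
    rw [S.from_simple f]
    apply Finset.sum_eq_zero
    intro a _
    exact absurd a.2 (by omega)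
  · exact h

/-- a nonzero morphism from a simple object is a split mono -/
lemma exists_retraction {Z : D} {i : ι} (f : S.X i ⟶ Z) (hf : f ≠ 0) :
    ∃ r : Z ⟶ S.X i, f ≫ r = 𝟙 _ := by
  by_contra hcon
  push Not at hcon
  apply hf
  rw [S.from_simple f]
  apply Finset.sum_eq_zero
  intro a _
  have h0 : S.sc (f ≫ S.p Z i a) = 0 := by
    by_contra hne
    apply hcon ((S.sc (f ≫ S.p Z i a))⁻¹ • S.p Z i a)
    rw [Linear.comp_smul]
    calc (S.sc (f ≫ S.p Z i a))⁻¹ • (f ≫ S.p Z i a)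
        = (S.sc (f ≫ S.p Z i a))⁻¹ • (S.sc (f ≫ S.p Z i a) • 𝟙 (S.X i)) :=
          congrArg _ (S.sc_smul (f ≫ S.p Z i a)).symm
      _ = 𝟙 (S.X i) := by rw [smul_smul, inv_mul_cancel₀ hne, one_smul]
  rw [h0, zero_smul]

/-- a nonzero morphism to a simple object is a split epi -/
lemma exists_section {Z : D} {i : ι} (f : Z ⟶ S.X i) (hf : f ≠ 0) :
    ∃ r : S.X i ⟶ Z, r ≫ f = 𝟙 _ := by
  by_contra hcon
  push Not at hcon
  apply hf
  rw [S.to_simple f]
  apply Finset.sum_eq_zero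
  intro a _
  have h0 : S.sc (S.q Z i a ≫ f) = 0 := by
    by_contra hne
    apply hcon ((S.sc (S.q Z i a ≫ f))⁻¹ • S.q Z i a)
    rw [Linear.smul_comp]
    calc (S.sc (S.q Z i a ≫ f))⁻¹ • (S.q Z i a ≫ f)
        = (S.sc (S.q Z i a ≫ f))⁻¹ • (S.sc (S.q Z i a ≫ f) • 𝟙 (S.X i)) :=
          congrArg _ (S.sc_smul (S.q Z i a ≫ f)).symm
      _ = 𝟙 (S.X i) := by rw [smul_smul, inv_mul_cancel₀ hne, one_smul]
  rw [h0, zero_smul]

lemma coev_ne_zero (i : ι) (Y : D) [ExactPairing (S.X i) Y] : η_ (S.X i) Y ≠ 0 := by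
  intro h
  have h1 := ExactPairing.evaluation_coevaluation (S.X i) Y
  rw [h, MonoidalPreadditive.zero_whiskerRight, zero_comp] at h1
  apply S.id_nz i
  have h2 : (λ_ (S.X i)).inv ≫ ((λ_ (S.X i)).hom ≫ (ρ_ (S.X i)).inv) ≫ (ρ_ (S.X i)).hom = 0 := by
    rw [← h1]; simp
  simpa using h2

lemma coev_ne_zero' (i : ι) (Y : D) [ExactPairing Y (S.X i)] : η_ Y (S.X i) ≠ 0 := by
  intro h
  have h1 := ExactPairing.coevaluation_evaluation Y (S.X i)
  rw [h, MonoidalPreadditive.whiskerLeft_zero, zero_comp] at h1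
  apply S.id_nz i
  have h2 : (ρ_ (S.X i)).inv ≫ ((ρ_ (S.X i)).hom ≫ (λ_ (S.X i)).inv) ≫ (λ_ (S.X i)).hom = 0 := by
    rw [← h1]; simp
  simpa using h2

section Trans

variable (o : ι) (eo : S.X o ≅ 𝟙_ D)

include eo

lemma trans_right (hdual : ∀ X : D, Nonempty (HasRightDual X)) (i l : ι) :
    ∃ j, 0 < S.n (S.X i ⊗ S.X j) l := by
  obtain ⟨hY⟩ := hdual (S.X i)
  set Y := (S.X i)ᘁ
  have hη := S.coev_ne_zero i Y
  have hη' : eo.hom ≫ η_ (S.X i) Y ≠ 0 := by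
    intro h
    apply hη
    rw [← cancel_epi eo.hom, h, comp_zero]
  obtain ⟨r, hr⟩ := S.exists_retraction _ hη'
  have hne : (λ_ (S.X l)).inv ≫ (η_ (S.X i) Y ▷ S.X l) ≫ (α_ _ _ _).hom ≠ 0 := by
    intro h
    apply S.id_nz l
    have h1 : (λ_ (S.X l)).inv ≫ (η_ (S.X i) Y ▷ S.X l) ≫ (α_ _ _ _).hom ≫ (α_ _ _ _).inv ≫
      ((r ≫ eo.hom) ▷ S.X l) ≫ (λ_ (S.X l)).hom = 𝟙 (S.X l) := by
      have h2 : η_ (S.X i) Y ≫ (r ≫ eo.hom) = 𝟙 _ := by
        rw [← cancel_epi eo.hom, Category.comp_id, ← Category.assoc, ← Category.assoc, hr,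
          Category.id_comp]
      rw [Iso.hom_inv_id_assoc, ← comp_whiskerRight_assoc, h2]
      simp
    rw [← h1]
    have h3 : (λ_ (S.X l)).inv ≫ (η_ (S.X i) Y ▷ S.X l) ≫ (α_ _ _ _).hom ≫ (α_ _ _ _).inv ≫
      ((r ≫ eo.hom) ▷ S.X l) ≫ (λ_ (S.X l)).hom =
      ((λ_ (S.X l)).inv ≫ (η_ (S.X i) Y ▷ S.X l) ≫ (α_ _ _ _).hom) ≫ (α_ _ _ _).inv ≫
      ((r ≫ eo.hom) ▷ S.X l) ≫ (λ_ (S.X l)).hom := by simp
    rw [h3, h, zero_comp]
  have hpos := S.n_pos_of_ne_zero _ hne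
  rw [S.n_tensor_right] at hpos
  by_contra hcon
  push Not at hcon
  have : ∑ j, S.n (Y ⊗ S.X l) j * S.n (S.X i ⊗ S.X j) l = 0 := by
    apply Finset.sum_eq_zero
    intro j _
    have := hcon j
    rw [Nat.le_zero.1 this, mul_zero]
  omega

lemma trans_left (hdual : ∀ X : D, Nonempty (HasLeftDual X)) (j l : ι) :
    ∃ i, 0 < S.n (S.X i ⊗ S.X j) l := by
  obtain ⟨hY⟩ := hdual (S.X j)
  set Y : D := ᘁ(S.X j)
  have hη := S.coev_ne_zero' j Y
  have hη' : eo.hom ≫ η_ Y (S.X j) ≠ 0 := by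
    intro h
    apply hη
    rw [← cancel_epi eo.hom, h, comp_zero]
  obtain ⟨r, hr⟩ := S.exists_retraction _ hη'
  have hne : (ρ_ (S.X l)).inv ≫ (S.X l ◁ η_ Y (S.X j)) ≫ (α_ _ _ _).inv ≠ 0 := by
    intro h
    apply S.id_nz l
    have h1 : (ρ_ (S.X l)).inv ≫ (S.X l ◁ η_ Y (S.X j)) ≫ (α_ _ _ _).inv ≫ (α_ _ _ _).hom ≫
      (S.X l ◁ (r ≫ eo.hom)) ≫ (ρ_ (S.X l)).hom = 𝟙 (S.X l) := by
      have h2 : η_ Y (S.X j) ≫ (r ≫ eo.hom) = 𝟙 _ := by
        rw [← cancel_epi eo.hom, Category.comp_id, ← Category.assoc, ← Category.assoc, hr,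
          Category.id_comp]
      rw [Iso.inv_hom_id_assoc, ← whiskerLeft_comp_assoc, h2]
      simp
    rw [← h1]
    have h3 : (ρ_ (S.X l)).inv ≫ (S.X l ◁ η_ Y (S.X j)) ≫ (α_ _ _ _).inv ≫ (α_ _ _ _).hom ≫
      (S.X l ◁ (r ≫ eo.hom)) ≫ (ρ_ (S.X l)).hom =
      ((ρ_ (S.X l)).inv ≫ (S.X l ◁ η_ Y (S.X j)) ≫ (α_ _ _ _).inv) ≫ (α_ _ _ _).hom ≫
      (S.X l ◁ (r ≫ eo.hom)) ≫ (ρ_ (S.X l)).hom := by simp
    rw [h3, h, zero_comp]
  have hpos := S.n_pos_of_ne_zero _ hne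
  rw [S.n_tensor_left] at hpos
  by_contra hcon
  push Not at hcon
  have : ∑ i, S.n (S.X l ⊗ Y) i * S.n (S.X i ⊗ S.X j) l = 0 := by
    apply Finset.sum_eq_zero
    intro j _
    have := hcon j
    rw [Nat.le_zero.1 this, mul_zero]
  omega

lemma n_unit_left [DecidableEq ι] (j l : ι) :
    S.n (S.X o ⊗ S.X j) l = if j = l then 1 else 0 := by
  rw [S.n_iso (whiskerRightIso eo (S.X j) ≪≫ λ_ (S.X j)), S.n_X]

lemma n_unit_right [DecidableEq ι] (j l : ι) :
    S.n (S.X j ⊗ S.X o) l = if j = l then 1 else 0 := by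
  rw [S.n_iso (whiskerLeftIso (S.X j) eo ≪≫ ρ_ (S.X j)), S.n_X]

end Trans

include S in
/-- all Hom spaces are finite dimensional -/
lemma finite_hom (Y Z : D) : Module.Finite k (Y ⟶ Z) := by
  let L : ((c : Σ i, Fin (S.n Y i)) → (S.X c.1 ⟶ Z)) →ₗ[k] (Y ⟶ Z) :=
    { toFun := fun y => ∑ c, S.p Y c.1 c.2 ≫ y c
      map_add' := fun x y => by simp [Finset.sum_add_distrib]
      map_smul' := fun r y => by simp [Finset.smul_sum] }
  apply Module.Finite.of_surjective L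
  intro f
  refine ⟨fun c => S.q Y c.1 c.2 ≫ f, ?_⟩
  show ∑ c : (Σ i, Fin (S.n Y i)), S.p Y c.1 c.2 ≫ S.q Y c.1 c.2 ≫ f = f
  rw [Fintype.sum_sigma]
  exact (S.total_comp f).symm

/-- The core of Theorem A: an object `B` without unit constituent, with a product `m`, acting on
`M` in such a way that every nonzero vector generates, cannot exist. -/
theorem coreA [HasFiniteBiproducts D] (o : ι) (eo : S.X o ≅ 𝟙_ D)
    (hdr : ∀ X : D, Nonempty (HasRightDual X)) (hdl : ∀ X : D, Nonempty (HasLeftDual X))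
    {B M : D} (b : B ⊗ M ⟶ M) (m : B ⊗ B ⟶ B)
    (hm : (α_ B B M).hom ≫ (B ◁ b) ≫ b = (m ▷ M) ≫ b)
    (hB : ∀ x : S.X o ⟶ B, x = 0)
    (s : ι) (g : S.X s ⟶ M) (hg : g ≠ 0)
    (hgen : ∀ (A : D) (f : A ⟶ M), f ≠ 0 → ∀ t (y : S.X t ⟶ M), ∃ z : S.X t ⟶ B ⊗ A,
      z ≫ (B ◁ f) ≫ b = y) : False := by
  classical
  have : HasBinaryBiproducts D := hasBinaryBiproducts_of_finite_biproducts D
  obtain ⟨d, f, hd0, hf0, hd, hf⟩ := H1_exists_fpdim (fun i j l => S.n (S.X i ⊗ S.X j) l) o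
    (S.n_unit_left o eo) (S.n_unit_right o eo) S.n_assoc (S.trans_right o eo hdr)
    (S.trans_left o eo hdl)
  -- vv of the action on M is zero
  have hM0 : S.vv d b ≤ 0 := by
    apply S.vv_le
    intro A f
    by_cases hf : f = 0
    · rw [hf, S.val_zero]
    · unfold val
      have h1 : S.wrk d f ≤ S.wrk d ((B ◁ f) ≫ b) := by
        apply S.wrk_le_of_rk_le d hd0
        intro i
        apply S.rk_mono
        intro x
        exact hgen A f hf i (x ≫ f)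
      linarith
  set vj : ι → ℝ := fun j => S.vv d (tact b (S.X j)) with hvj
  have hv0 : ∀ j, 0 ≤ vj j := fun j => S.vv_nonneg d hd0 _
  -- the unit
  let θ : M ⊗ S.X o ≅ M := whiskerLeftIso M eo ≪≫ ρ_ M
  have hθ : (B ◁ θ.hom) ≫ b = tact b (S.X o) ≫ θ.hom := by
    simp only [θ, Iso.trans_hom, whiskerLeftIso_hom, tact]
    rw [Category.assoc, ← whisker_exchange_assoc, rightUnitor_naturality]
    simp
  have hvo : vj o ≤ 0 := by
    have := S.vv_le_sum d hd0 (α := Unit) (tact b (S.X o)) (fun _ => M) (fun _ => b)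
      (fun _ => θ.hom) (fun _ => hθ) (fun A f h => by
        have := h ()
        rw [← cancel_mono θ.hom, this, zero_comp])
    simp only [Finset.univ_unique, Finset.sum_const, Finset.card_singleton, one_smul] at this
    exact this.trans hM0
  have hθ' : (B ◁ θ.inv) ≫ tact b (S.X o) = b ≫ θ.inv := by
    rw [← cancel_mono θ.hom, Category.assoc, ← hθ, ← whiskerLeft_comp_assoc]
    simp
  -- general upper bound
  have hup : ∀ Y : D, S.vv d (tact b Y) ≤ ∑ l, (S.n Y l : ℝ) * vj l := by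
    intro Y
    have := S.vv_le_sum d hd0 (α := Σ l, Fin (S.n Y l)) (tact b Y) (fun c => M ⊗ S.X c.1)
      (fun c => tact b (S.X c.1)) (fun c => M ◁ S.p Y c.1 c.2)
      (fun c => tact_whiskerLeft b _) (fun A f h => by
        have h1 : f = f ≫ (M ◁ (∑ l, ∑ a, S.p Y l a ≫ S.q Y l a)) := by
          rw [S.total, whiskerLeft_id, Category.comp_id]
        rw [h1, whiskerLeft_sum, Preadditive.comp_sum]
        apply Finset.sum_eq_zero
        intro l _
        rw [whiskerLeft_sum, Preadditive.comp_sum]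
        apply Finset.sum_eq_zero
        intro a _
        rw [whiskerLeft_comp, ← Category.assoc, h ⟨l, a⟩, zero_comp])
    refine this.trans (le_of_eq ?_)
    rw [Fintype.sum_sigma]
    simp [hvj]
  have hz : ∀ j, vj j = 0 := by
    apply numeric (fun i j l => S.n (S.X i ⊗ S.X j) l) o d f vj
      (fun i j => S.vv d (tact (tact b (S.X i)) (S.X j))) hd0 hf0 hf hv0 hvo
    · intro i j
      have := S.vv_tact d hd0 hd (tact b (S.X i)) (S.X j)
      refine le_trans (le_of_eq ?_) this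
      have h2 : S.dim d (S.X j) = d j := by
        unfold dim
        simp only [S.n_X]
        simp
      rw [h2]
    · intro j
      have := S.vv_le_sum d hd0 (α := Unit) (tact b (S.X j)) (fun _ => (M ⊗ S.X o) ⊗ S.X j)
        (fun _ => tact (tact b (S.X o)) (S.X j)) (fun _ => θ.inv ▷ S.X j)
        (fun _ => tact_map b _ θ.inv hθ' _) (fun A f h => by
          have := h ()
          rw [← cancel_mono (θ.inv ▷ S.X j), this, zero_comp])
      simpa using this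
    · intro i j
      have h1 := S.vv_le_sum d hd0 (α := Unit) (tact (tact b (S.X i)) (S.X j))
        (fun _ => M ⊗ (S.X i ⊗ S.X j)) (fun _ => tact b (S.X i ⊗ S.X j))
        (fun _ => (α_ _ _ _).hom) (fun _ => tact_tact b _ _) (fun A f h => by
          have := h ()
          rw [← cancel_mono (α_ _ _ _).hom, this, zero_comp])
      simp only [Finset.univ_unique, Finset.sum_const, Finset.card_singleton, one_smul] at h1
      exact h1.trans (hup _)
  -- a module with positive value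
  obtain ⟨hY⟩ := hdr (S.X s)
  set Y := (S.X s)ᘁ with hYdef
  let u : 𝟙_ D ⟶ M ⊗ Y := η_ (S.X s) Y ≫ (g ▷ Y)
  have hu : u ≠ 0 := by
    obtain ⟨r, hr⟩ := S.exists_retraction g hg
    intro h
    apply S.coev_ne_zero s Y
    have h2 : u ≫ (r ▷ Y) = η_ (S.X s) Y := by
      simp only [u, Category.assoc]
      rw [← comp_whiskerRight, hr]
      simp
    rw [← h2, h, zero_comp]
  have hle : S.vv d (tact b Y) ≤ 0 := by
    refine (hup Y).trans (le_of_eq ?_)
    simp [hz]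
  let u' : S.X o ⟶ M ⊗ Y := eo.hom ≫ u
  have hu' : u' ≠ 0 := by
    intro h
    apply hu
    rw [← cancel_epi eo.hom, comp_zero]
    exact h
  let fB : B ⟶ M ⊗ Y := (ρ_ B).inv ≫ (B ◁ u) ≫ tact b Y
  let F : S.X o ⊞ B ⟶ M ⊗ Y := biprod.desc u' fB
  have h1 : d o + S.wrk d fB ≤ S.wrk d F := by
    unfold wrk
    rw [← Finset.add_sum_erase Finset.univ _ (Finset.mem_univ o),
      ← Finset.add_sum_erase Finset.univ (fun i => d i * (S.rk i F : ℝ)) (Finset.mem_univ o)]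
    have e1 : S.rk o fB = 0 := by
      unfold rk
      have : LinearMap.range (Linear.rightComp k (S.X o) fB) = ⊥ := by
        rw [eq_bot_iff]
        rintro x ⟨y, rfl⟩
        rw [hB y]
        simp
      rw [this, finrank_bot]
    have e2 : 1 ≤ S.rk o F := by
      unfold rk
      have hne : (⟨u', ⟨biprod.inl, by simp [F]⟩⟩ :
          LinearMap.range (Linear.rightComp k (S.X o) F)) ≠ 0 := by
        intro h
        apply hu'
        exact congrArg Subtype.val h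
      have : Nontrivial (LinearMap.range (Linear.rightComp k (S.X o) F)) := ⟨_, _, hne⟩
      exact Module.finrank_pos
    have e3 : d o ≤ d o * (S.rk o F : ℝ) := by
      have : (1 : ℝ) ≤ (S.rk o F : ℝ) := by exact_mod_cast e2
      nlinarith [hd0 o]
    have e4 : ∑ x ∈ Finset.univ.erase o, d x * (S.rk x fB : ℝ) ≤
        ∑ x ∈ Finset.univ.erase o, d x * (S.rk x F : ℝ) := by
      refine Finset.sum_le_sum fun i _ => mul_le_mul_of_nonneg_left ?_ (hd0 i).le
      have e5 : biprod.inr ≫ F = fB := by simp [F]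
      have e6 : S.rk i fB ≤ S.rk i F := by
        rw [← e5]
        exact S.rk_comp_le_right _ _
      exact_mod_cast e6
    rw [e1]
    push_cast
    linarith
  have hact : ∃ G : B ⊗ (S.X o ⊞ B) ⟶ B, (B ◁ F) ≫ tact b Y = G ≫ fB := by
    have e1 : (B ◁ u') ≫ tact b Y = ((B ◁ eo.hom) ≫ (ρ_ B).hom) ≫ fB := by
      simp only [u', fB, whiskerLeft_comp, Category.assoc, Iso.hom_inv_id_assoc]
    have e2 : (B ◁ tact b Y) ≫ tact b Y =
        (α_ B B (M ⊗ Y)).inv ≫ (m ▷ (M ⊗ Y)) ≫ tact b Y := by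
      unfold tact
      rw [whiskerLeft_comp, Category.assoc, ← Category.assoc (B ◁ b ▷ Y) _ _]
      rw [associator_inv_naturality_middle]
      have e3 : (m ▷ (M ⊗ Y)) ≫ (α_ B M Y).inv ≫ b ▷ Y =
        (α_ (B ⊗ B) M Y).inv ≫ (((m ▷ M) ≫ b) ▷ Y) := by
        rw [comp_whiskerRight, ← Category.assoc, ← Category.assoc]
        congr 1
        simp
      rw [e3, ← hm]
      simp only [comp_whiskerRight, Category.assoc]
      monoidal
    have e4 : (B ◁ fB) ≫ tact b Y =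
        ((B ◁ (ρ_ B).inv) ≫ (α_ _ _ _).inv ≫ (m ▷ 𝟙_ D) ≫ (ρ_ B).hom) ≫ fB := by
      calc (B ◁ fB) ≫ tact b Y
          = (B ◁ (ρ_ B).inv) ≫ (B ◁ (B ◁ u)) ≫ (B ◁ tact b Y) ≫ tact b Y := by
            simp only [fB, whiskerLeft_comp, Category.assoc]
        _ = (B ◁ (ρ_ B).inv) ≫ (B ◁ (B ◁ u)) ≫ (α_ B B (M ⊗ Y)).inv ≫ (m ▷ (M ⊗ Y)) ≫
              tact b Y := by rw [e2]
        _ = (B ◁ (ρ_ B).inv) ≫ (α_ B B (𝟙_ D)).inv ≫ ((B ⊗ B) ◁ u) ≫ (m ▷ (M ⊗ Y)) ≫
              tact b Y := by rw [associator_inv_naturality_right_assoc]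
        _ = (B ◁ (ρ_ B).inv) ≫ (α_ B B (𝟙_ D)).inv ≫ (m ▷ 𝟙_ D) ≫ (B ◁ u) ≫
              tact b Y := by rw [whisker_exchange_assoc]
        _ = _ := by simp [fB]
    refine ⟨(B ◁ biprod.fst) ≫ ((B ◁ eo.hom) ≫ (ρ_ B).hom) +
      (B ◁ biprod.snd) ≫ ((B ◁ (ρ_ B).inv) ≫ (α_ _ _ _).inv ≫ (m ▷ 𝟙_ D) ≫ (ρ_ B).hom), ?_⟩
    have e5 : F = biprod.fst ≫ u' + biprod.snd ≫ fB := by
      simp only [F]
      exact biprod.desc_eq
    have e6 : (B ◁ (biprod.fst ≫ u' : S.X o ⊞ B ⟶ M ⊗ Y)) ≫ tact b Y =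
        (B ◁ (biprod.fst : S.X o ⊞ B ⟶ S.X o)) ≫ (B ◁ u') ≫ tact b Y := by
      rw [whiskerLeft_comp, Category.assoc]
    have e7 : (B ◁ (biprod.snd ≫ fB : S.X o ⊞ B ⟶ M ⊗ Y)) ≫ tact b Y =
        (B ◁ (biprod.snd : S.X o ⊞ B ⟶ B)) ≫ (B ◁ fB) ≫ tact b Y := by
      rw [whiskerLeft_comp, Category.assoc]
    rw [e5, MonoidalPreadditive.whiskerLeft_add, Preadditive.add_comp, Preadditive.add_comp,
      e6, e7, e1, e4]
    simp only [Category.assoc]
  obtain ⟨G, hG⟩ := hact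
  have h2 : S.wrk d ((B ◁ F) ≫ tact b Y) ≤ S.wrk d fB := by
    rw [hG]
    apply S.wrk_le_of_rk_le d hd0
    intro i
    exact S.rk_comp_le_right _ _
  have h3 := S.le_vv d hd0 (tact b Y) F
  unfold val at h3
  have := hd0 o
  linarith

end SFam

end Pool.Agent.Lib.MP_21cf63_al
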