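import Mathlib
import Pool.Agent.Lib.MP_21cf63_al.TheoremA

/-!
Theorem A in terms of spaces of action maps.
-/

set_option linter.unusedSectionVars false

open CategoryTheory MonoidalCategory Limits

namespace Pool.Agent.Lib.MP_21cf63_al

universe v u w

namespace SFam

variable {k : Type w} [Field k] {D : Type u} [Category.{v} D] [Preadditive D]
    [Linear k D] [MonoidalCategory D] [MonoidalPreadditive D] [MonoidalLinear k D]
    {ι : Type} [Fintype ι] (S : SFam k D ι)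

/-- `f ↦ (f ▷ M) ≫ b` as a linear map -/
def whiskerComp {B M : D} (b : B ⊗ M ⟶ M) (Z : D) : (Z ⟶ B) →ₗ[k] (Z ⊗ M ⟶ M) where
  toFun u := (u ▷ M) ≫ b
  map_add' x y := by
    rw [MonoidalPreadditive.add_whiskerRight, Preadditive.add_comp]
  map_smul' r x := by
    rw [MonoidalLinear.smul_whiskerRight, Linear.smul_comp]
    rfl

/-- `z ↦ z ≫ (B ◁ f) ≫ b` as a linear map -/
def compAct {B M : D} (b : B ⊗ M ⟶ M) {A : D} (f : A ⟶ M) (Z : D) :
    (Z ⟶ B ⊗ A) →ₗ[k] (Z ⟶ M) where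
  toFun z := z ≫ (B ◁ f) ≫ b
  map_add' _ _ := Preadditive.add_comp _ _ _ _ _ _
  map_smul' _ _ := Linear.smul_comp _ _ _ _ _ _

/-- Theorem A: there is no nonzero object `M` with spaces `H i` of maps `X i ⊗ M ⟶ M`, zero for the
unit, closed under composition and acting without proper invariant part. -/
theorem thmA [HasFiniteBiproducts D] (o : ι) (eo : S.X o ≅ 𝟙_ D)
    (hdr : ∀ X : D, Nonempty (HasRightDual X)) (hdl : ∀ X : D, Nonempty (HasLeftDual X))
    {M : D} (H : ∀ i, Submodule k (S.X i ⊗ M ⟶ M)) (hHo : ∀ h ∈ H o, h = 0)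
    (hclosed : ∀ i j (h' : S.X i ⊗ M ⟶ M) (h : S.X j ⊗ M ⟶ M), h' ∈ H i → h ∈ H j →
      (α_ _ _ _).hom ≫ (S.X i ◁ h) ≫ h' ∈ Submodule.span k
        {y | ∃ (n : ι) (p : S.X i ⊗ S.X j ⟶ S.X n) (g : S.X n ⊗ M ⟶ M), g ∈ H n ∧
          (p ▷ M) ≫ g = y})
    (hsimple : ∀ t (g : S.X t ⟶ M), g ≠ 0 → ∀ s (y : S.X s ⟶ M), y ∈ Submodule.span k
        {y | ∃ (i : ι) (z : S.X s ⟶ S.X i ⊗ S.X t) (h : S.X i ⊗ M ⟶ M), h ∈ H i ∧
          z ≫ (S.X i ◁ g) ≫ h = y})
    (s : ι) (g : S.X s ⟶ M) (hg : g ≠ 0) : False := by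
  classical
  have : ∀ i, Module.Finite k (S.X i ⊗ M ⟶ M) := fun i => S.finite_hom _ _
  let bas : ∀ i, Module.Basis (Fin (Module.finrank k (H i))) k (H i) :=
    fun i => Module.finBasis k (H i)
  let J := Σ i, Fin (Module.finrank k (H i))
  let hh : ∀ c : J, (S.X c.1 ⊗ M ⟶ M) := fun c => (bas c.1 c.2 : S.X c.1 ⊗ M ⟶ M)
  let B : D := ⨁ fun c : J => S.X c.1
  let π : ∀ c : J, B ⟶ S.X c.1 := fun c => biproduct.π (fun c : J => S.X c.1) c
  let κ : ∀ c : J, S.X c.1 ⟶ B := fun c => biproduct.ι (fun c : J => S.X c.1) c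
  have hκπ : ∀ c d : J, c ≠ d → κ c ≫ π d = 0 := fun c d hcd =>
    biproduct.ι_π_ne _ hcd
  have hκπ' : ∀ c : J, κ c ≫ π c = 𝟙 _ := fun c => biproduct.ι_π_self _ c
  have htot : ∑ c, π c ≫ κ c = 𝟙 B := biproduct.total
  let b : B ⊗ M ⟶ M := ∑ c, (π c ▷ M) ≫ hh c
  have hκb : ∀ c, (κ c ▷ M) ≫ b = hh c := by
    intro c
    simp only [b, Preadditive.comp_sum]
    rw [Finset.sum_eq_single c]
    · rw [← comp_whiskerRight_assoc, hκπ']
      simp
    · intro d _ hd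
      rw [← comp_whiskerRight_assoc, hκπ c d (Ne.symm hd)]
      simp
    · intro h
      exact absurd (Finset.mem_univ _) h
  -- every element of `H n` comes from a map to `B`
  have hlift : ∀ n (h : S.X n ⊗ M ⟶ M), h ∈ H n → ∃ w : S.X n ⟶ B, (w ▷ M) ≫ b = h := by
    intro n h hh0
    have h1 := (bas n).sum_repr ⟨h, hh0⟩
    refine ⟨∑ a, (bas n).repr ⟨h, hh0⟩ a • κ ⟨n, a⟩, ?_⟩
    have h2 : ∑ a, (bas n).repr ⟨h, hh0⟩ a • hh ⟨n, a⟩ = h := by
      have h3 := congrArg (H n).subtype h1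
      rw [map_sum] at h3
      simp only [map_smul, Submodule.subtype_apply] at h3
      exact h3
    show whiskerComp (k := k) b (S.X n) _ = h
    rw [map_sum]
    conv_rhs => rw [← h2]
    apply Finset.sum_congr rfl
    intro a _
    rw [map_smul]
    congr 1
    exact hκb ⟨n, a⟩
  -- products
  have hprod : ∀ c d : J, ∃ m : S.X c.1 ⊗ S.X d.1 ⟶ B,
      (m ▷ M) ≫ b = (α_ _ _ _).hom ≫ (S.X c.1 ◁ hh d) ≫ hh c := by
    intro c d
    have h1 := hclosed c.1 d.1 (hh c) (hh d) (bas c.1 c.2).2 (bas d.1 d.2).2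
    have h2 : Submodule.span k {y | ∃ (n : ι) (p : S.X c.1 ⊗ S.X d.1 ⟶ S.X n)
        (g : S.X n ⊗ M ⟶ M), g ∈ H n ∧ (p ▷ M) ≫ g = y} ≤
        LinearMap.range (whiskerComp (k := k) b (S.X c.1 ⊗ S.X d.1)) := by
      rw [Submodule.span_le]
      rintro _ ⟨n, p, g, hg, rfl⟩
      obtain ⟨w, rfl⟩ := hlift n g hg
      refine ⟨p ≫ w, ?_⟩
      show ((p ≫ w) ▷ M) ≫ b = _
      rw [comp_whiskerRight, Category.assoc]
    obtain ⟨m, hm⟩ := h2 h1
    exact ⟨m, hm⟩
  choose m hm using hprod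
  let mm : B ⊗ B ⟶ B := ∑ c, ∑ d, (π c ⊗ₘ π d) ≫ m c d
  refine S.coreA o eo hdr hdl b mm ?_ ?_ s g hg ?_
  · -- associativity
    have e1 : (B ◁ b) ≫ b = ∑ c, ∑ d, (B ◁ (π d ▷ M)) ≫ (π c ▷ (S.X d.1 ⊗ M)) ≫
        (S.X c.1 ◁ hh d) ≫ hh c := by
      calc (B ◁ b) ≫ b = ∑ c, (B ◁ b) ≫ (π c ▷ M) ≫ hh c := by
            conv_lhs => rw [show b = ∑ c, (π c ▷ M) ≫ hh c from rfl]
            rw [Preadditive.comp_sum]
        _ = _ := by
            apply Finset.sum_congr rfl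
            intro c _
            rw [show (B ◁ b) = ∑ d, (B ◁ (π d ▷ M)) ≫ (B ◁ hh d) by
              simp only [b]
              rw [whiskerLeft_sum]
              simp only [whiskerLeft_comp]]
            rw [Preadditive.sum_comp]
            apply Finset.sum_congr rfl
            intro d _
            rw [Category.assoc, ← whisker_exchange_assoc]
    rw [e1]
    have e2 : (mm ▷ M) ≫ b = ∑ c, ∑ d, ((π c ⊗ₘ π d) ▷ M) ≫ (α_ _ _ _).hom ≫
        (S.X c.1 ◁ hh d) ≫ hh c := by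
      simp only [mm]
      rw [sum_whiskerRight, Preadditive.sum_comp]
      apply Finset.sum_congr rfl
      intro c _
      rw [sum_whiskerRight, Preadditive.sum_comp]
      apply Finset.sum_congr rfl
      intro d _
      rw [comp_whiskerRight, Category.assoc, hm]
    rw [e2, Preadditive.comp_sum]
    apply Finset.sum_congr rfl
    intro c _
    rw [Preadditive.comp_sum]
    apply Finset.sum_congr rfl
    intro d _
    rw [tensorHom_def']
    simp
  · -- no unit in `B`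
    intro x
    rw [← Category.comp_id x, ← htot, Preadditive.comp_sum]
    apply Finset.sum_eq_zero
    intro c _
    rcases c with ⟨i, a⟩
    by_cases hi : i = o
    · subst hi
      exfalso
      have h1 : hh ⟨i, a⟩ = 0 := hHo _ (bas i a).2
      have h2 : bas i a = 0 := Subtype.ext h1
      exact (bas i).ne_zero a h2
    · rw [← Category.assoc, S.hom_zero o i (Ne.symm hi) (x ≫ π ⟨i, a⟩), zero_comp]
  · -- generation
    intro A f hf t y
    obtain ⟨s0, a, ha⟩ : ∃ s0, ∃ a : S.X s0 ⟶ A, a ≫ f ≠ 0 := by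
      by_contra hcon
      push Not at hcon
      apply hf
      apply S.ext_from
      intro i x
      rw [hcon i x, comp_zero]
    have h1 := hsimple s0 (a ≫ f) ha t y
    have h2 : Submodule.span k {y | ∃ (i : ι) (z : S.X t ⟶ S.X i ⊗ S.X s0)
        (h : S.X i ⊗ M ⟶ M), h ∈ H i ∧ z ≫ (S.X i ◁ (a ≫ f)) ≫ h = y} ≤
        LinearMap.range (compAct (k := k) b f (S.X t)) := by
      rw [Submodule.span_le]
      rintro _ ⟨i, z, h, hh1, rfl⟩
      obtain ⟨w, rfl⟩ := hlift i h hh1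
      refine ⟨z ≫ (S.X i ◁ a) ≫ (w ▷ A), ?_⟩
      show (z ≫ (S.X i ◁ a) ≫ (w ▷ A)) ≫ (B ◁ f) ≫ b = _
      simp only [Category.assoc, whiskerLeft_comp]
      rw [← whisker_exchange_assoc]
    obtain ⟨z, hz⟩ := h2 h1
    exact ⟨z, hz⟩

end SFam

end Pool.Agent.Lib.MP_21cf63_al
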