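import Mathlib
import Pool.Agent.Lib.MP_21cf63_al.TheoremA2
import Pool.Agent.Lib.MP_21cf63_al.Duality
import Pool.Agent.Lib.MP_21cf63_al.Comb

/-!
The theorem on multiplicative families of subspaces of multiplicity spaces.
-/

set_option linter.unusedSectionVars false
set_option linter.style.haveILetI false

open CategoryTheory MonoidalCategory Limits

namespace Pool.Agent.Lib.MP_21cf63_al

universe v u w

lemma exists_ne_zero_of_span {k : Type*} [Semiring k] {V : Type*} [AddCommMonoid V] [Module k V]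
    {s : Set V} {x : V} (hx : x ∈ Submodule.span k s) (h0 : x ≠ 0) : ∃ y ∈ s, y ≠ 0 := by
  by_contra hcon
  push Not at hcon
  apply h0
  have : Submodule.span k s ≤ ⊥ := by
    rw [Submodule.span_le]
    intro y hy
    exact hcon y hy
  exact this hx

namespace SFam

variable {k : Type w} [Field k] {D : Type u} [Category.{v} D] [Preadditive D]
    [Linear k D] [MonoidalCategory D] [MonoidalPreadditive D] [MonoidalLinear k D]
    {ι : Type} [Fintype ι] (S : SFam k D ι)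

/-- a multiplicative family of subspaces of the multiplicity spaces -/
structure MultFam (o : ι) (eo : S.X o ≅ 𝟙_ D) where
  W : ∀ i j l, Submodule k (S.X i ⊗ S.X j ⟶ S.X l)
  w1 : ∀ i j m l n (f : S.X i ⊗ S.X j ⟶ S.X m) (g : S.X m ⊗ S.X l ⟶ S.X n), f ∈ W i j m →
    g ∈ W m l n → (α_ _ _ _).inv ≫ (f ▷ S.X l) ≫ g ∈ Submodule.span k
      {y | ∃ (r : ι) (f' : S.X j ⊗ S.X l ⟶ S.X r) (g' : S.X i ⊗ S.X r ⟶ S.X n),
        f' ∈ W j l r ∧ g' ∈ W i r n ∧ (S.X i ◁ f') ≫ g' = y}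
  w2 : ∀ i j l r n (f : S.X j ⊗ S.X l ⟶ S.X r) (g : S.X i ⊗ S.X r ⟶ S.X n), f ∈ W j l r →
    g ∈ W i r n → (α_ _ _ _).hom ≫ (S.X i ◁ f) ≫ g ∈ Submodule.span k
      {y | ∃ (m : ι) (f' : S.X i ⊗ S.X j ⟶ S.X m) (g' : S.X m ⊗ S.X l ⟶ S.X n),
        f' ∈ W i j m ∧ g' ∈ W m l n ∧ (f' ▷ S.X l) ≫ g' = y}
  w3l : ∀ j, (eo.hom ▷ S.X j) ≫ (λ_ _).hom ∈ W o j j
  w3r : ∀ j, (S.X j ◁ eo.hom) ≫ (ρ_ _).hom ∈ W j o j

variable {S}

namespace MultFam

variable {o : ι} {eo : S.X o ≅ 𝟙_ D} (Q : S.MultFam o eo)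

/-- tight triples -/
def T (i j l : ι) : Prop := ∃ f ∈ Q.W i j l, f ≠ 0

lemma comp_ne_left {i j m l n : ι} (f : S.X i ⊗ S.X j ⟶ S.X m) (g : S.X m ⊗ S.X l ⟶ S.X n)
    (hf : f ≠ 0) (hg : g ≠ 0) : (f ▷ S.X l) ≫ g ≠ 0 := by
  obtain ⟨r, hr⟩ := S.exists_section f hf
  intro h
  apply hg
  have : (r ▷ S.X l) ≫ (f ▷ S.X l) ≫ g = g := by
    rw [← comp_whiskerRight_assoc, hr]; simp
  rw [← this, h, comp_zero]

lemma comp_ne_right {i j l r n : ι} (f : S.X j ⊗ S.X l ⟶ S.X r) (g : S.X i ⊗ S.X r ⟶ S.X n)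
    (hf : f ≠ 0) (hg : g ≠ 0) : (S.X i ◁ f) ≫ g ≠ 0 := by
  obtain ⟨s, hs⟩ := S.exists_section f hf
  intro h
  apply hg
  have : (S.X i ◁ s) ≫ (S.X i ◁ f) ≫ g = g := by
    rw [← whiskerLeft_comp_assoc, hs]; simp
  rw [← this, h, comp_zero]

lemma T1 {i j m l n : ι} (h1 : Q.T i j m) (h2 : Q.T m l n) : ∃ r, Q.T j l r ∧ Q.T i r n := by
  obtain ⟨f, hf, hf0⟩ := h1
  obtain ⟨g, hg, hg0⟩ := h2
  have h3 := comp_ne_left f g hf0 hg0
  obtain ⟨y, ⟨r, f', g', hf', hg', rfl⟩, hy⟩ := exists_ne_zero_of_span (Q.w1 i j m l n f g hf hg)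
    (by
      intro h
      apply h3
      rw [← cancel_epi (α_ _ _ _).inv, h, comp_zero])
  refine ⟨r, ⟨f', hf', ?_⟩, ⟨g', hg', ?_⟩⟩
  · rintro rfl
    exact hy (by simp)
  · rintro rfl
    exact hy (by simp)

lemma T2 {i j r l n : ι} (h1 : Q.T j l r) (h2 : Q.T i r n) : ∃ m, Q.T i j m ∧ Q.T m l n := by
  obtain ⟨f, hf, hf0⟩ := h1
  obtain ⟨g, hg, hg0⟩ := h2
  have h3 := comp_ne_right f g hf0 hg0
  obtain ⟨y, ⟨m, f', g', hf', hg', rfl⟩, hy⟩ := exists_ne_zero_of_span (Q.w2 i j l r n f g hf hg)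
    (by
      intro h
      apply h3
      rw [← cancel_epi (α_ _ _ _).hom, h, comp_zero])
  refine ⟨m, ⟨f', hf', ?_⟩, ⟨g', hg', ?_⟩⟩
  · rintro rfl
    exact hy (by simp)
  · rintro rfl
    exact hy (by simp)

lemma iso_ne_zero {Y : D} {i : ι} (e : Y ≅ S.X i) : e.hom ≠ 0 := by
  intro h
  apply S.id_nz i
  rw [← e.inv_hom_id, h, comp_zero]

lemma Tol (j : ι) : Q.T o j j :=
  ⟨_, Q.w3l j, iso_ne_zero (whiskerRightIso eo (S.X j) ≪≫ λ_ (S.X j))⟩

lemma Tor (j : ι) : Q.T j o j :=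
  ⟨_, Q.w3r j, iso_ne_zero (whiskerLeftIso (S.X j) eo ≪≫ ρ_ (S.X j))⟩

lemma Tsym (P : S.StarData) (i : ι) (h : Q.T i (P.star i) o) : Q.T (P.star i) i o := by
  letI := P.pair i
  obtain ⟨u, hu, hu0⟩ := h
  obtain ⟨r, hr⟩ := one_dim P o eo i u
  have hr0 : r ≠ 0 := by
    rintro rfl
    exact hu0 (by rw [hr, zero_smul])
  have h1 := Q.w1 i (P.star i) o i i u _ hu (Q.w3l i)
  let c : S.X o ⟶ S.X (P.star i) ⊗ S.X i := eo.hom ≫ η_ (S.X (P.star i)) (S.X i)
  let L : (S.X i ⊗ (S.X (P.star i) ⊗ S.X i) ⟶ S.X i) →ₗ[k] (S.X i ⊗ S.X o ⟶ S.X i) :=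
    Linear.leftComp k (S.X i) (S.X i ◁ c)
  have h2 := Submodule.mem_map_of_mem (f := L) h1
  rw [Submodule.map_span] at h2
  have h3 : L ((α_ _ _ _).inv ≫ (u ▷ S.X i) ≫ (eo.hom ▷ S.X i) ≫ (λ_ _).hom) ≠ 0 := by
    show (S.X i ◁ c) ≫ (α_ _ _ _).inv ≫ (u ▷ S.X i) ≫ (eo.hom ▷ S.X i) ≫ (λ_ _).hom ≠ 0
    have e1 : (S.X i ◁ c) ≫ (α_ _ _ _).inv ≫ (u ▷ S.X i) ≫ (eo.hom ▷ S.X i) ≫ (λ_ _).hom =
        r • ((S.X i ◁ eo.hom) ≫ (ρ_ _).hom) := by
      rw [hr, MonoidalLinear.smul_whiskerRight, Linear.smul_comp, Linear.comp_smul,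
        Linear.comp_smul]
      congr 1
      simp only [c, whiskerLeft_comp, Category.assoc, comp_whiskerRight]
      rw [← comp_whiskerRight_assoc _ eo.hom, eo.inv_hom_id, id_whiskerRight, Category.id_comp,
        ExactPairing.coevaluation_evaluation_assoc]
      simp
    rw [e1]
    intro h4
    rcases smul_eq_zero.1 h4 with h5 | h5
    · exact hr0 h5
    · exact iso_ne_zero (whiskerLeftIso (S.X i) eo ≪≫ ρ_ (S.X i)) h5
  obtain ⟨y, ⟨y', ⟨n, f', g', hf', hg', rfl⟩, rfl⟩, hy⟩ := exists_ne_zero_of_span h2 h3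
  have hy' : (S.X i ◁ (c ≫ f')) ≫ g' ≠ 0 := by
    intro h4
    apply hy
    show (S.X i ◁ c) ≫ (S.X i ◁ f') ≫ g' = 0
    rw [← whiskerLeft_comp_assoc, h4]
  by_cases hn : o = n
  · subst hn
    refine ⟨f', hf', ?_⟩
    rintro rfl
    exact hy' (by simp)
  · exfalso
    apply hy'
    rw [S.hom_zero o n hn (c ≫ f')]
    simp

section Loop

variable [HasFiniteBiproducts D] (P : S.StarData)
    (hdr : ∀ X : D, Nonempty (HasRightDual X)) (hdl : ∀ X : D, Nonempty (HasLeftDual X))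

include hdr hdl in
lemma loop (j₀ : ι) (h0 : ∃ i, ¬ Q.T i (P.star i) o ∧ Q.T i j₀ j₀) : False := by
  classical
  -- ideal property
  have hidl : ∀ i j k, Q.T i j k → Q.T k (P.star k) o → Q.T i (P.star i) o := by
    intro i j k hijk hk
    obtain ⟨n, _, h2⟩ := Q.T1 hijk hk
    obtain ⟨f, _, hf0⟩ := h2
    have := star_eq P o eo f hf0
    subst this
    exact ⟨f, by assumption, hf0⟩
  let R : ι → ι → Prop := fun j l => ∃ i, ¬ Q.T i (P.star i) o ∧ Q.T i j l
  have htrans : ∀ j l n, R j l → R l n → R j n := by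
    rintro j l n ⟨i, hi, h1⟩ ⟨i', hi', h2⟩
    obtain ⟨m, hm1, hm2⟩ := Q.T2 h1 h2
    exact ⟨m, fun hm => hi' (hidl _ _ _ hm1 hm), hm2⟩
  let Cl : ι → Prop := fun l => R j₀ l ∧ R l j₀
  let J := {l : ι // Cl l}
  let M : D := ⨁ fun l : J => S.X l.1
  let π : ∀ l : J, M ⟶ S.X l.1 := fun l => biproduct.π (fun l : J => S.X l.1) l
  let κ : ∀ l : J, S.X l.1 ⟶ M := fun l => biproduct.ι (fun l : J => S.X l.1) l
  have hκπ : ∀ c d : J, c ≠ d → κ c ≫ π d = 0 := fun c d hcd => biproduct.ι_π_ne _ hcd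
  have hκπ' : ∀ c : J, κ c ≫ π c = 𝟙 _ := fun c => biproduct.ι_π_self _ c
  have htot : ∑ c, π c ≫ κ c = 𝟙 M := biproduct.total
  let Hset : ∀ i, Set (S.X i ⊗ M ⟶ M) := fun i => {y | ¬ Q.T i (P.star i) o ∧
    ∃ (l l' : J) (f : S.X i ⊗ S.X l.1 ⟶ S.X l'.1), f ∈ Q.W i l.1 l'.1 ∧
      (S.X i ◁ π l) ≫ f ≫ κ l' = y}
  refine S.thmA o eo hdr hdl (M := M) (fun i => Submodule.span k (Hset i)) ?_ ?_ ?_ j₀
    (κ ⟨j₀, h0, h0⟩) ?_
  · -- unit
    intro h hh
    by_contra hne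
    obtain ⟨y, ⟨hy, _⟩, _⟩ := exists_ne_zero_of_span hh hne
    apply hy
    have h1 := Q.Tol o
    obtain ⟨f, hf, hf0⟩ := h1
    have := star_eq P o eo f hf0
    rw [← this]
    exact ⟨f, hf, hf0⟩
  · -- closed
    intro i j h' h hh' hh
    set V := Submodule.span k {y | ∃ (n : ι) (p : S.X i ⊗ S.X j ⟶ S.X n)
      (g : S.X n ⊗ M ⟶ M), g ∈ Submodule.span k (Hset n) ∧ (p ▷ M) ≫ g = y} with hV
    induction hh using Submodule.span_induction with
    | zero =>
      rw [MonoidalPreadditive.whiskerLeft_zero, zero_comp, comp_zero]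
      exact V.zero_mem
    | add x y _ _ hx hy =>
      rw [MonoidalPreadditive.whiskerLeft_add, Preadditive.add_comp, Preadditive.comp_add]
      exact V.add_mem hx hy
    | smul r x _ hx =>
      rw [MonoidalLinear.whiskerLeft_smul, Linear.smul_comp, Linear.comp_smul]
      exact V.smul_mem _ hx
    | mem x hx =>
      obtain ⟨hNj, b, b', f, hf, rfl⟩ := hx
      induction hh' using Submodule.span_induction with
      | zero =>
        rw [comp_zero, comp_zero]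
        exact V.zero_mem
      | add x y _ _ hx hy =>
        rw [Preadditive.comp_add, Preadditive.comp_add]
        exact V.add_mem hx hy
      | smul r x _ hx =>
        rw [Linear.comp_smul, Linear.comp_smul]
        exact V.smul_mem _ hx
      | mem x hx =>
        obtain ⟨hNi, a, a', f', hf', rfl⟩ := hx
        by_cases hab : b' = a
        · subst hab
          have e1 : (α_ _ _ _).hom ≫ (S.X i ◁ ((S.X j ◁ π b) ≫ f ≫ κ b')) ≫
              (S.X i ◁ π b') ≫ f' ≫ κ a' =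
              ((S.X i ⊗ S.X j) ◁ π b) ≫ ((α_ _ _ _).hom ≫ (S.X i ◁ f) ≫ f') ≫ κ a' := by
            simp only [whiskerLeft_comp, Category.assoc]
            rw [← whiskerLeft_comp_assoc _ (κ b'), hκπ']
            simp
          rw [e1]
          have h2 := Q.w2 i j b.1 b'.1 a'.1 f f' hf hf'
          generalize (α_ (S.X i) (S.X j) (S.X b.1)).hom ≫ (S.X i ◁ f) ≫ f' = w at h2 ⊢
          induction h2 using Submodule.span_induction with
          | zero =>
            rw [zero_comp, comp_zero]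
            exact V.zero_mem
          | add x y _ _ hx hy =>
            rw [Preadditive.add_comp, Preadditive.comp_add]
            exact V.add_mem hx hy
          | smul r x _ hx =>
            rw [Linear.smul_comp, Linear.comp_smul]
            exact V.smul_mem _ hx
          | mem x hx =>
            obtain ⟨m, f1, g1, hf1, hg1, rfl⟩ := hx
            by_cases hf10 : f1 = 0
            · subst hf10
              simp
            · have hNm : ¬ Q.T m (P.star m) o := fun hm => hNi (hidl _ _ _ ⟨f1, hf1, hf10⟩ hm)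
              apply Submodule.subset_span
              refine ⟨m, f1, (S.X m ◁ π b) ≫ g1 ≫ κ a', Submodule.subset_span
                ⟨hNm, b, a', g1, hg1, rfl⟩, ?_⟩
              rw [← whisker_exchange_assoc, Category.assoc]
        · have e1 : (α_ _ _ _).hom ≫ (S.X i ◁ ((S.X j ◁ π b) ≫ f ≫ κ b')) ≫
              (S.X i ◁ π a) ≫ f' ≫ κ a' = 0 := by
            simp only [whiskerLeft_comp, Category.assoc]
            rw [← whiskerLeft_comp_assoc _ (κ b'), hκπ b' a hab]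
            simp
          rw [e1]
          exact V.zero_mem
  · -- simplicity
    intro t g hg s y
    have hdec : ∀ (t : ι) (g : S.X t ⟶ M), g ≠ 0 → ∃ (ht : Cl t) (c : k), c ≠ 0 ∧
        g = c • κ ⟨t, ht⟩ := by
      intro t g hg
      have e0 : g = ∑ l, (g ≫ π l) ≫ κ l := by
        conv_lhs => rw [← Category.comp_id g, ← htot, Preadditive.comp_sum]
        simp
      by_cases ht : Cl t
      · obtain ⟨c, hc⟩ := (S.end_bij t).2 (g ≫ π ⟨t, ht⟩)
        have e1 : g = c • κ ⟨t, ht⟩ := by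
          rw [e0, Finset.sum_eq_single ⟨t, ht⟩]
          · rw [← hc, Linear.smul_comp, Category.id_comp]
          · intro l _ hl
            rw [S.hom_zero t l.1 (fun h => hl (Subtype.ext h.symm)) (g ≫ π l), zero_comp]
          · intro h
            exact absurd (Finset.mem_univ _) h
        refine ⟨ht, c, ?_, e1⟩
        rintro rfl
        apply hg
        rw [e1, zero_smul]
      · exfalso
        apply hg
        rw [e0]
        apply Finset.sum_eq_zero
        intro l _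
        rw [S.hom_zero t l.1 (fun h => ht (h ▸ l.2)) (g ≫ π l), zero_comp]
    by_cases hy : y = 0
    · rw [hy]
      exact Submodule.zero_mem _
    obtain ⟨ht, c, hc, rfl⟩ := hdec t g hg
    obtain ⟨hs, d, hd, rfl⟩ := hdec s y hy
    obtain ⟨i, hi, f, hf, hf0⟩ : R t s := htrans _ _ _ ht.2 hs.1
    obtain ⟨z, hz⟩ := S.exists_section f hf0
    have e1 : d • κ ⟨s, hs⟩ = (d * c⁻¹) • (z ≫ (S.X i ◁ (c • κ ⟨t, ht⟩)) ≫
        ((S.X i ◁ π ⟨t, ht⟩) ≫ f ≫ κ ⟨s, hs⟩)) := by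
      rw [MonoidalLinear.whiskerLeft_smul, Linear.smul_comp, Linear.comp_smul, smul_smul,
        mul_assoc, inv_mul_cancel₀ hc, mul_one]
      congr 1
      rw [← whiskerLeft_comp_assoc, hκπ', whiskerLeft_id, Category.id_comp, ← Category.assoc, hz,
        Category.id_comp]
    rw [e1]
    apply Submodule.smul_mem
    apply Submodule.subset_span
    exact ⟨i, z, _, Submodule.subset_span ⟨hi, ⟨t, ht⟩, ⟨s, hs⟩, f, hf, rfl⟩, rfl⟩
  · intro h
    apply S.id_nz j₀
    rw [← hκπ' ⟨j₀, h0, h0⟩, h, zero_comp]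

/-- Theorem E: a multiplicative family of subspaces without nonzero order function contains all
maps to the unit. -/
theorem all_units (hdr : ∀ X : D, Nonempty (HasRightDual X))
    (hdl : ∀ X : D, Nonempty (HasLeftDual X))
    (hord : ∀ ord : ι → ℕ, ord o = 0 → (∀ i j l, Q.T i j l → ord i + ord j ≤ ord l) →
      ∀ i, ord i = 0) (i j : ι) (u : S.X i ⊗ S.X j ⟶ S.X o) : u ∈ Q.W i j o := by
  classical
  obtain ⟨P⟩ := S.exists_starData hdl
  have hall : ∀ i, Q.T i (P.star i) o := by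
    refine H3_comb Q.T o P.star (fun i j m l n => Q.T1) (fun i j r l n => Q.T2) Q.Tol Q.Tor ?_
      (star_star P o eo) (Q.Tsym P) hord (Q.loop P hdr hdl)
    rintro i j ⟨f, _, hf0⟩
    exact star_eq P o eo f hf0
  by_cases hu : u = 0
  · rw [hu]
    exact Submodule.zero_mem _
  have hj := star_eq P o eo u hu
  subst hj
  obtain ⟨f, hf, hf0⟩ := hall i
  obtain ⟨r, hr⟩ := one_dim P o eo i u
  obtain ⟨s, hs⟩ := one_dim P o eo i f
  have hs0 : s ≠ 0 := by
    rintro rfl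
    exact hf0 (by rw [hs, zero_smul])
  have : u = (r * s⁻¹) • f := by
    rw [hr, hs, smul_smul, mul_assoc, inv_mul_cancel₀ hs0, mul_one]
  rw [this]
  exact Submodule.smul_mem _ _ hf

end Loop

end MultFam

end SFam

end Pool.Agent.Lib.MP_21cf63_al
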