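import Mathlib
import Pool.Agent.Lib.MP_21cf63_al.Good
import Pool.Agent.Lib.MP_21cf63_al.ThmE

/-!
The multiplicative family attached to a matching of two integral forms.
-/

set_option linter.unusedSectionVars false
set_option linter.style.haveILetI false

open CategoryTheory MonoidalCategory Limits Functor.LaxMonoidal Functor.OplaxMonoidal

namespace Pool.Agent.Lib.MP_21cf63_al

universe v₁ u₁ v₂ u₂ v₃ u₃ v₄ u₄ w w' w''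

section Faithful

variable {O : Type w} [CommRing O] {K : Type w'} [Field K] [Algebra O K]
    {D : Type u₁} [Category.{v₁} D] [Preadditive D] [Linear O D]
    {C : Type u₃} [Category.{v₃} C] [Preadditive C] [Linear K C]
    {G : D ⥤ C} {ι : Type} [Fintype ι]

/-- extension of scalars along an injective map is faithful -/
lemma map_inj (h : IsScalarExtension O K G) (hinj : Function.Injective (algebraMap O K))
    (S : SFam O D ι) {Y Z : D} {f g : Y ⟶ Z} (hfg : G.map f = G.map g) : f = g := by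
  apply S.ext_from
  intro i x
  apply S.ext_to
  intro j y
  by_cases hij : i = j
  · subst hij
    obtain ⟨r, hr⟩ := (S.end_bij i).2 ((x ≫ f) ≫ y)
    obtain ⟨s, hs⟩ := (S.end_bij i).2 ((x ≫ g) ≫ y)
    have e1 : G.map ((x ≫ f) ≫ y) = G.map ((x ≫ g) ≫ y) := by
      simp only [Functor.map_comp, hfg]
    rw [← hr, ← hs]
    rw [← hr, ← hs] at e1
    simp only [h.map_smul', CategoryTheory.Functor.map_id] at e1
    have := (S.map G h).smul_id_inj (i := i) e1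
    rw [hinj this]
  · rw [S.hom_zero i j hij ((x ≫ f) ≫ y), S.hom_zero i j hij ((x ≫ g) ≫ y)]

end Faithful

section Conv

variable {O : Type w} [CommRing O] {K : Type w'} [Field K] [Algebra O K]
    {D₁ : Type u₁} [Category.{v₁} D₁] [Preadditive D₁] [Linear O D₁]
    {D₂ : Type u₂} [Category.{v₂} D₂] [Preadditive D₂] [Linear O D₂]
    {C : Type u₃} [Category.{v₃} C] [Preadditive C] [Linear K C]
    {G₁ : D₁ ⥤ C} {G₂ : D₂ ⥤ C}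
    {ι : Type} [Fintype ι] (S₁ : SFam O D₁ ι) (S₂ : SFam O D₂ ι)
    (φ : ∀ i, G₁.obj (S₁.X i) ≅ G₂.obj (S₂.X i))
    (h₁ : IsScalarExtension O K G₁) (h₂ : IsScalarExtension O K G₂)

include h₁ h₂

lemma coef_to_from {Z₁ : D₁} {Z₂ : D₂} (f : G₁.obj Z₁ ⟶ G₂.obj Z₂)
    (hc : ∀ l (a : S₁.X l ⟶ Z₁) (b : Z₂ ⟶ S₂.X l), ∃ c : O,
      G₁.map a ≫ f ≫ G₂.map b = algebraMap O K c • (φ l).hom)
    (l : ι) (a : S₁.X l ⟶ Z₁) : ∃ a' : S₂.X l ⟶ Z₂, Sq G₁ G₂ (φ l).hom f a a' := by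
  have ad₂ := h₂.additive
  choose c hc using hc l a
  refine ⟨∑ x, c (S₂.p Z₂ l x) • S₂.q Z₂ l x, ?_⟩
  unfold Sq
  have e1 : G₁.map a ≫ f = ∑ i, ∑ x, (G₁.map a ≫ f ≫ G₂.map (S₂.p Z₂ i x)) ≫
      G₂.map (S₂.q Z₂ i x) := by
    have : G₁.map a ≫ f = G₁.map a ≫ f ≫ G₂.map (∑ i, ∑ x, S₂.p Z₂ i x ≫ S₂.q Z₂ i x) := by
      rw [S₂.total, CategoryTheory.Functor.map_id, Category.comp_id]
    conv_lhs => rw [this]
    simp only [Functor.map_sum, Preadditive.comp_sum, Functor.map_comp, Category.assoc]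
  rw [e1, Finset.sum_eq_single l]
  · rw [Functor.map_sum, Preadditive.comp_sum]
    apply Finset.sum_congr rfl
    intro x _
    rw [hc, h₂.map_smul', Linear.smul_comp, Linear.comp_smul]
  · intro i _ hi
    apply Finset.sum_eq_zero
    intro x _
    have e2 : G₁.map a ≫ f ≫ G₂.map (S₂.p Z₂ i x) = 0 := by
      rw [← cancel_mono (φ i).inv, zero_comp]
      exact (S₁.map G₁ h₁).hom_zero l i (Ne.symm hi) _
    rw [e2, zero_comp]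
  · intro h
    exact absurd (Finset.mem_univ _) h

lemma coef_to_to {Z₁ : D₁} {Z₂ : D₂} (f : G₁.obj Z₁ ⟶ G₂.obj Z₂)
    (hc : ∀ l (a : S₁.X l ⟶ Z₁) (b : Z₂ ⟶ S₂.X l), ∃ c : O,
      G₁.map a ≫ f ≫ G₂.map b = algebraMap O K c • (φ l).hom)
    (l : ι) (b' : Z₂ ⟶ S₂.X l) : ∃ b : Z₁ ⟶ S₁.X l, Sq G₁ G₂ f (φ l).hom b b' := by
  have ad₁ := h₁.additive
  choose c hc using fun a => hc l a b'
  refine ⟨∑ x, c (S₁.q Z₁ l x) • S₁.p Z₁ l x, ?_⟩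
  unfold Sq
  have e1 : f ≫ G₂.map b' = ∑ i, ∑ x, G₁.map (S₁.p Z₁ i x) ≫
      (G₁.map (S₁.q Z₁ i x) ≫ f ≫ G₂.map b') := by
    have : f ≫ G₂.map b' = G₁.map (∑ i, ∑ x, S₁.p Z₁ i x ≫ S₁.q Z₁ i x) ≫ f ≫ G₂.map b' := by
      rw [S₁.total, CategoryTheory.Functor.map_id, Category.id_comp]
    conv_lhs => rw [this]
    simp only [Functor.map_sum, Preadditive.sum_comp, Functor.map_comp, Category.assoc]
  rw [e1, Finset.sum_eq_single l]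
  · rw [Functor.map_sum, Preadditive.sum_comp]
    apply Finset.sum_congr rfl
    intro x _
    rw [hc, h₁.map_smul', Linear.smul_comp, Linear.comp_smul]
  · intro i _ hi
    apply Finset.sum_eq_zero
    intro x _
    have e2 : G₁.map (S₁.q Z₁ i x) ≫ f ≫ G₂.map b' = 0 := by
      rw [← cancel_mono (φ l).inv, zero_comp]
      exact (S₁.map G₁ h₁).hom_zero i l hi _
    rw [e2, comp_zero]
  · intro h
    exact absurd (Finset.mem_univ _) h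

/-- if all maps to simple objects lift, then maps from simple objects lift back -/
lemma to_to_from {Z₁ : D₁} {Z₂ : D₂} (f : G₁.obj Z₁ ≅ G₂.obj Z₂)
    (hb : ∀ l (b : Z₁ ⟶ S₁.X l), ∃ b' : Z₂ ⟶ S₂.X l, Sq G₁ G₂ f.hom (φ l).hom b b')
    (l : ι) (a' : S₂.X l ⟶ Z₂) : ∃ a : S₁.X l ⟶ Z₁, Sq G₁ G₂ (φ l).hom f.hom a a' := by
  obtain ⟨a, ha⟩ := coef_to_from S₂ S₁ (fun i => (φ i).symm) h₂ h₁ f.inv (by
    intro l a' b
    obtain ⟨b', hb'⟩ := hb l b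
    obtain ⟨r, hr⟩ := (S₂.end_bij l).2 (a' ≫ b')
    refine ⟨r, ?_⟩
    have := hb'.swap
    unfold Sq at this
    rw [← this, ← Category.assoc, ← Functor.map_comp, ← hr]
    simp only [h₂.map_smul', CategoryTheory.Functor.map_id, Linear.smul_comp, Category.id_comp]
    rfl) l a'
  exact ⟨a, Sq.swap (f := (φ l).symm) (g := f.symm) ha⟩

end Conv

section Mult

variable {O : Type w} [CommRing O] {K : Type w'} [Field K] [Algebra O K]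
    {k : Type w''} [Field k] [Algebra O k]
    {D₁ : Type u₁} [Category.{v₁} D₁] [Preadditive D₁] [Linear O D₁] [MonoidalCategory D₁]
    [MonoidalPreadditive D₁] [MonoidalLinear O D₁]
    {D₂ : Type u₂} [Category.{v₂} D₂] [Preadditive D₂] [Linear O D₂] [MonoidalCategory D₂]
    [MonoidalPreadditive D₂] [MonoidalLinear O D₂]
    {C : Type u₃} [Category.{v₃} C] [Preadditive C] [Linear K C] [MonoidalCategory C]
    [MonoidalPreadditive C] [MonoidalLinear K C]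
    {E : Type u₄} [Category.{v₄} E] [Preadditive E] [Linear k E] [MonoidalCategory E]
    [MonoidalPreadditive E] [MonoidalLinear k E]
    {G₁ : D₁ ⥤ C} [G₁.Monoidal] {G₂ : D₂ ⥤ C} [G₂.Monoidal]
    {ι : Type} [Fintype ι] {S₁ : SFam O D₁ ι} {S₂ : SFam O D₂ ι}
    {φ : ∀ i, G₁.obj (S₁.X i) ≅ G₂.obj (S₂.X i)}
    (h₁ : IsScalarExtension O K G₁) (h₂ : IsScalarExtension O K G₂)
    (hinj : Function.Injective (algebraMap O K))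

include h₁ hinj in
lemma sq_unique {Z₁ : D₁} {Z₂ : D₂} {l : ι} {f : G₁.obj Z₁ ⟶ G₂.obj Z₂} {u u' : Z₁ ⟶ S₁.X l}
    {v : Z₂ ⟶ S₂.X l} (a : Sq G₁ G₂ f (φ l).hom u v) (b : Sq G₁ G₂ f (φ l).hom u' v) :
    u = u' := by
  unfold Sq at a b
  rw [← b] at a
  exact map_inj h₁ hinj S₁ ((cancel_mono _).1 a)

variable (hβ : ∀ i j l (v : S₂.X i ⊗ S₂.X j ⟶ S₂.X l), ∃ u : S₁.X i ⊗ S₁.X j ⟶ S₁.X l,
      Sq G₁ G₂ (bx G₁ G₂ (φ i).hom (φ j).hom) (φ l).hom u v)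

include h₁ h₂ hinj hβ in
lemma expand1 {i j m l n : ι} {u₁ : S₁.X i ⊗ S₁.X j ⟶ S₁.X m} {v₁ : S₂.X i ⊗ S₂.X j ⟶ S₂.X m}
    (s₁ : Sq G₁ G₂ (bx G₁ G₂ (φ i).hom (φ j).hom) (φ m).hom u₁ v₁)
    {u₂ : S₁.X m ⊗ S₁.X l ⟶ S₁.X n} {v₂ : S₂.X m ⊗ S₂.X l ⟶ S₂.X n}
    (s₂ : Sq G₁ G₂ (bx G₁ G₂ (φ m).hom (φ l).hom) (φ n).hom u₂ v₂) :
    ∃ (w : ∀ r, Fin (S₂.n (S₂.X j ⊗ S₂.X l) r) → (S₁.X j ⊗ S₁.X l ⟶ S₁.X r))
      (w' : ∀ r, Fin (S₂.n (S₂.X j ⊗ S₂.X l) r) → (S₁.X i ⊗ S₁.X r ⟶ S₁.X n)),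
      (∀ r a, ∃ v, Sq G₁ G₂ (bx G₁ G₂ (φ j).hom (φ l).hom) (φ r).hom (w r a) v) ∧
      (∀ r a, ∃ v, Sq G₁ G₂ (bx G₁ G₂ (φ i).hom (φ r).hom) (φ n).hom (w' r a) v) ∧
      (α_ _ _ _).inv ≫ (u₁ ▷ S₁.X l) ≫ u₂ = ∑ r, ∑ a, (S₁.X i ◁ w r a) ≫ w' r a := by
  have ad₁ := h₁.additive
  have ad₂ := h₂.additive
  choose bt hbt using hβ
  let V : S₂.X i ⊗ (S₂.X j ⊗ S₂.X l) ⟶ S₂.X n := (α_ _ _ _).inv ≫ (v₁ ▷ S₂.X l) ≫ v₂
  refine ⟨fun r a => bt j l r (S₂.p (S₂.X j ⊗ S₂.X l) r a),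
    fun r a => bt i r n ((S₂.X i ◁ S₂.q (S₂.X j ⊗ S₂.X l) r a) ≫ V),
    fun r a => ⟨_, hbt _ _ _ _⟩, fun r a => ⟨_, hbt _ _ _ _⟩, ?_⟩
  have q1 : Sq G₁ G₂ (bx G₁ G₂ (φ i).hom (bx G₁ G₂ (φ j).hom (φ l).hom)) (φ n).hom
      ((α_ _ _ _).inv ≫ (u₁ ▷ S₁.X l) ≫ u₂) V :=
    (Sq.assoc_inv _ _ _).comp ((Sq.whiskerRight _ s₁).comp s₂)
  have q2 : Sq G₁ G₂ (bx G₁ G₂ (φ i).hom (bx G₁ G₂ (φ j).hom (φ l).hom)) (φ n).hom
      (∑ r, ∑ a, (S₁.X i ◁ bt j l r (S₂.p (S₂.X j ⊗ S₂.X l) r a)) ≫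
        bt i r n ((S₂.X i ◁ S₂.q (S₂.X j ⊗ S₂.X l) r a) ≫ V))
      (∑ r, ∑ a, (S₂.X i ◁ S₂.p (S₂.X j ⊗ S₂.X l) r a) ≫
        ((S₂.X i ◁ S₂.q (S₂.X j ⊗ S₂.X l) r a) ≫ V)) := by
    apply Sq.sum
    intro r _
    apply Sq.sum
    intro a _
    exact (Sq.whiskerLeft _ (hbt _ _ _ _)).comp (hbt _ _ _ _)
  have e1 : ∑ r, ∑ a, (S₂.X i ◁ S₂.p (S₂.X j ⊗ S₂.X l) r a) ≫
        ((S₂.X i ◁ S₂.q (S₂.X j ⊗ S₂.X l) r a) ≫ V) = V := by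
    have : V = (S₂.X i ◁ (∑ r, ∑ a, S₂.p (S₂.X j ⊗ S₂.X l) r a ≫
        S₂.q (S₂.X j ⊗ S₂.X l) r a)) ≫ V := by
      rw [S₂.total, whiskerLeft_id, Category.id_comp]
    conv_rhs => rw [this]
    simp only [whiskerLeft_sum, Preadditive.sum_comp, whiskerLeft_comp, Category.assoc]
  rw [e1] at q2
  exact sq_unique h₁ hinj q1 q2

include h₁ h₂ hinj hβ in
lemma expand2 {i j l r n : ι} {u₁ : S₁.X j ⊗ S₁.X l ⟶ S₁.X r} {v₁ : S₂.X j ⊗ S₂.X l ⟶ S₂.X r}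
    (s₁ : Sq G₁ G₂ (bx G₁ G₂ (φ j).hom (φ l).hom) (φ r).hom u₁ v₁)
    {u₂ : S₁.X i ⊗ S₁.X r ⟶ S₁.X n} {v₂ : S₂.X i ⊗ S₂.X r ⟶ S₂.X n}
    (s₂ : Sq G₁ G₂ (bx G₁ G₂ (φ i).hom (φ r).hom) (φ n).hom u₂ v₂) :
    ∃ (w : ∀ m, Fin (S₂.n (S₂.X i ⊗ S₂.X j) m) → (S₁.X i ⊗ S₁.X j ⟶ S₁.X m))
      (w' : ∀ m, Fin (S₂.n (S₂.X i ⊗ S₂.X j) m) → (S₁.X m ⊗ S₁.X l ⟶ S₁.X n)),
      (∀ m a, ∃ v, Sq G₁ G₂ (bx G₁ G₂ (φ i).hom (φ j).hom) (φ m).hom (w m a) v) ∧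
      (∀ m a, ∃ v, Sq G₁ G₂ (bx G₁ G₂ (φ m).hom (φ l).hom) (φ n).hom (w' m a) v) ∧
      (α_ _ _ _).hom ≫ (S₁.X i ◁ u₁) ≫ u₂ = ∑ m, ∑ a, (w m a ▷ S₁.X l) ≫ w' m a := by
  have ad₁ := h₁.additive
  have ad₂ := h₂.additive
  choose bt hbt using hβ
  let V : (S₂.X i ⊗ S₂.X j) ⊗ S₂.X l ⟶ S₂.X n := (α_ _ _ _).hom ≫ (S₂.X i ◁ v₁) ≫ v₂
  refine ⟨fun m a => bt i j m (S₂.p (S₂.X i ⊗ S₂.X j) m a),
    fun m a => bt m l n ((S₂.q (S₂.X i ⊗ S₂.X j) m a ▷ S₂.X l) ≫ V),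
    fun r a => ⟨_, hbt _ _ _ _⟩, fun r a => ⟨_, hbt _ _ _ _⟩, ?_⟩
  have q1 : Sq G₁ G₂ (bx G₁ G₂ (bx G₁ G₂ (φ i).hom (φ j).hom) (φ l).hom) (φ n).hom
      ((α_ _ _ _).hom ≫ (S₁.X i ◁ u₁) ≫ u₂) V :=
    (Sq.assoc _ _ _).comp ((Sq.whiskerLeft _ s₁).comp s₂)
  have q2 : Sq G₁ G₂ (bx G₁ G₂ (bx G₁ G₂ (φ i).hom (φ j).hom) (φ l).hom) (φ n).hom
      (∑ m, ∑ a, (bt i j m (S₂.p (S₂.X i ⊗ S₂.X j) m a) ▷ S₁.X l) ≫
        bt m l n ((S₂.q (S₂.X i ⊗ S₂.X j) m a ▷ S₂.X l) ≫ V))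
      (∑ m, ∑ a, (S₂.p (S₂.X i ⊗ S₂.X j) m a ▷ S₂.X l) ≫
        ((S₂.q (S₂.X i ⊗ S₂.X j) m a ▷ S₂.X l) ≫ V)) := by
    apply Sq.sum
    intro r _
    apply Sq.sum
    intro a _
    exact (Sq.whiskerRight _ (hbt _ _ _ _)).comp (hbt _ _ _ _)
  have e1 : ∑ m, ∑ a, (S₂.p (S₂.X i ⊗ S₂.X j) m a ▷ S₂.X l) ≫
        ((S₂.q (S₂.X i ⊗ S₂.X j) m a ▷ S₂.X l) ≫ V) = V := by
    have : V = ((∑ m, ∑ a, S₂.p (S₂.X i ⊗ S₂.X j) m a ≫
        S₂.q (S₂.X i ⊗ S₂.X j) m a) ▷ S₂.X l) ≫ V := by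
      rw [S₂.total, id_whiskerRight, Category.id_comp]
    conv_rhs => rw [this]
    simp only [sum_whiskerRight, Preadditive.sum_comp, comp_whiskerRight, Category.assoc]
  rw [e1] at q2
  exact sq_unique h₁ hinj q1 q2

variable (hsurj : Function.Surjective (algebraMap O k))
    {F : D₁ ⥤ E} [F.Monoidal] (hF : IsScalarExtension O k F)

/-- the multiplicity spaces cut out by the matching -/
def Wsub (S₂ : SFam O D₂ ι) (φ : ∀ i, G₁.obj (S₁.X i) ≅ G₂.obj (S₂.X i))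
    (h₁ : IsScalarExtension O K G₁) (h₂ : IsScalarExtension O K G₂)
    (hsurj : Function.Surjective (algebraMap O k)) (hF : IsScalarExtension O k F) (i j l : ι) :
    Submodule k (F.obj (S₁.X i) ⊗ F.obj (S₁.X j) ⟶ F.obj (S₁.X l)) where
  carrier := {x | ∃ u v, Sq G₁ G₂ (bx G₁ G₂ (φ i).hom (φ j).hom) (φ l).hom u v ∧
    x = μ F (S₁.X i) (S₁.X j) ≫ F.map u}
  add_mem' := by
    rintro _ _ ⟨u, v, h, rfl⟩ ⟨u', v', h', rfl⟩
    have ad₁ := h₁.additive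
    have ad₂ := h₂.additive
    exact ⟨u + u', v + v', h.add h', by rw [hF.map_add', Preadditive.comp_add]⟩
  zero_mem' := by
    have ad₁ := h₁.additive
    have ad₂ := h₂.additive
    exact ⟨0, 0, Sq.zero, by rw [hF.map_zero', comp_zero]⟩
  smul_mem' := by
    rintro c _ ⟨u, v, h, rfl⟩
    have ad₁ := h₁.additive
    have ad₂ := h₂.additive
    obtain ⟨r, rfl⟩ := hsurj c
    exact ⟨r • u, r • v, h.smul (K := K) (fun r _ _ f => h₁.map_smul' r f)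
      (fun r _ _ f => h₂.map_smul' r f) r, by
      rw [hF.map_smul', Linear.comp_smul]⟩

/-- the multiplicative family attached to the matching -/
def multFam (o : ι) (eo₁ : S₁.X o ≅ 𝟙_ D₁) (eo₂ : S₂.X o ≅ 𝟙_ D₂)
    (hφo : Sq G₁ G₂ (φ o).hom (un G₁ G₂) eo₁.hom eo₂.hom) :
    (S₁.map F hF).MultFam o (F.mapIso eo₁ ≪≫ (Functor.Monoidal.εIso F).symm) where
  W i j l := Wsub S₂ φ h₁ h₂ hsurj hF i j l
  w1 := by
    rintro i j m l n _ _ ⟨u₁, v₁, s₁, rfl⟩ ⟨u₂, v₂, s₂, rfl⟩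
    obtain ⟨w, w', hw, hw', e⟩ := expand1 h₁ h₂ hinj hβ s₁ s₂
    have ad := hF.additive
    have e1 : (α_ (F.obj (S₁.X i)) (F.obj (S₁.X j)) (F.obj (S₁.X l))).inv ≫
        ((μ F (S₁.X i) (S₁.X j) ≫ F.map u₁) ▷ F.obj (S₁.X l)) ≫
        μ F (S₁.X m) (S₁.X l) ≫ F.map u₂ =
        ∑ r, ∑ a, (F.obj (S₁.X i) ◁ (μ F (S₁.X j) (S₁.X l) ≫ F.map (w r a))) ≫
          (μ F (S₁.X i) (S₁.X r) ≫ F.map (w' r a)) := by
      have e2 : ∀ r a, (F.obj (S₁.X i) ◁ (μ F (S₁.X j) (S₁.X l) ≫ F.map (w r a))) ≫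
          (μ F (S₁.X i) (S₁.X r) ≫ F.map (w' r a)) =
          (F.obj (S₁.X i) ◁ (μ F (S₁.X j) (S₁.X l))) ≫ μ F (S₁.X i) (S₁.X j ⊗ S₁.X l) ≫
          F.map ((S₁.X i ◁ w r a) ≫ w' r a) := by
        intro r a
        rw [whiskerLeft_comp, Category.assoc, μ_natural_right_assoc, Functor.map_comp]
      simp only [e2]
      simp only [← Preadditive.comp_sum, ← Functor.map_sum]
      rw [← e]
      rw [comp_whiskerRight, Category.assoc, μ_natural_left_assoc, Functor.map_comp,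
        Functor.map_comp, Functor.LaxMonoidal.associativity_inv_assoc]
    show (α_ (F.obj (S₁.X i)) (F.obj (S₁.X j)) (F.obj (S₁.X l))).inv ≫
        ((μ F (S₁.X i) (S₁.X j) ≫ F.map u₁) ▷ F.obj (S₁.X l)) ≫
        μ F (S₁.X m) (S₁.X l) ≫ F.map u₂ ∈ _
    rw [e1]
    refine Submodule.sum_mem _ fun r _ => Submodule.sum_mem _ fun a _ =>
      Submodule.subset_span ?_
    obtain ⟨v, hv⟩ := hw r a
    obtain ⟨v', hv'⟩ := hw' r a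
    exact ⟨r, _, _, ⟨_, v, hv, rfl⟩, ⟨_, v', hv', rfl⟩, rfl⟩
  w2 := by
    rintro i j l r n _ _ ⟨u₁, v₁, s₁, rfl⟩ ⟨u₂, v₂, s₂, rfl⟩
    obtain ⟨w, w', hw, hw', e⟩ := expand2 h₁ h₂ hinj hβ s₁ s₂
    have ad := hF.additive
    have e1 : (α_ (F.obj (S₁.X i)) (F.obj (S₁.X j)) (F.obj (S₁.X l))).hom ≫
        (F.obj (S₁.X i) ◁ (μ F (S₁.X j) (S₁.X l) ≫ F.map u₁)) ≫
        μ F (S₁.X i) (S₁.X r) ≫ F.map u₂ =
        ∑ m, ∑ a, ((μ F (S₁.X i) (S₁.X j) ≫ F.map (w m a)) ▷ F.obj (S₁.X l)) ≫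
          (μ F (S₁.X m) (S₁.X l) ≫ F.map (w' m a)) := by
      have e2 : ∀ m a, ((μ F (S₁.X i) (S₁.X j) ≫ F.map (w m a)) ▷ F.obj (S₁.X l)) ≫
          (μ F (S₁.X m) (S₁.X l) ≫ F.map (w' m a)) =
          (μ F (S₁.X i) (S₁.X j) ▷ F.obj (S₁.X l)) ≫ μ F (S₁.X i ⊗ S₁.X j) (S₁.X l) ≫
          F.map ((w m a ▷ S₁.X l) ≫ w' m a) := by
        intro m a
        rw [comp_whiskerRight, Category.assoc, μ_natural_left_assoc, Functor.map_comp]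
      simp only [e2]
      simp only [← Preadditive.comp_sum, ← Functor.map_sum]
      rw [← e]
      rw [whiskerLeft_comp, Category.assoc, μ_natural_right_assoc, Functor.map_comp,
        Functor.map_comp, Functor.LaxMonoidal.associativity_assoc]
    show (α_ (F.obj (S₁.X i)) (F.obj (S₁.X j)) (F.obj (S₁.X l))).hom ≫
        (F.obj (S₁.X i) ◁ (μ F (S₁.X j) (S₁.X l) ≫ F.map u₁)) ≫
        μ F (S₁.X i) (S₁.X r) ≫ F.map u₂ ∈ _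
    rw [e1]
    refine Submodule.sum_mem _ fun m _ => Submodule.sum_mem _ fun a _ =>
      Submodule.subset_span ?_
    obtain ⟨v, hv⟩ := hw m a
    obtain ⟨v', hv'⟩ := hw' m a
    exact ⟨m, _, _, ⟨_, v, hv, rfl⟩, ⟨_, v', hv', rfl⟩, rfl⟩
  w3l j := by
    refine ⟨(eo₁.hom ▷ S₁.X j) ≫ (λ_ _).hom, (eo₂.hom ▷ S₂.X j) ≫ (λ_ _).hom,
      (Sq.whiskerRight _ hφo).comp (Sq.leftUnitor _), ?_⟩
    show ((F.map eo₁.hom ≫ η F) ▷ F.obj (S₁.X j)) ≫ (λ_ (F.obj (S₁.X j))).hom = _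
    rw [Functor.map_comp, ← μ_natural_left_assoc, comp_whiskerRight, Category.assoc,
      Functor.LaxMonoidal.left_unitality, Functor.Monoidal.whiskerRight_η_ε_assoc]
  w3r j := by
    refine ⟨(S₁.X j ◁ eo₁.hom) ≫ (ρ_ _).hom, (S₂.X j ◁ eo₂.hom) ≫ (ρ_ _).hom,
      (Sq.whiskerLeft _ hφo).comp (Sq.rightUnitor _), ?_⟩
    show (F.obj (S₁.X j) ◁ (F.map eo₁.hom ≫ η F)) ≫ (ρ_ (F.obj (S₁.X j))).hom = _
    rw [Functor.map_comp, ← μ_natural_right_assoc, whiskerLeft_comp, Category.assoc,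
      Functor.LaxMonoidal.right_unitality, Functor.Monoidal.whiskerLeft_η_ε_assoc]

section Final

variable (o : ι) (eo₁ : S₁.X o ≅ 𝟙_ D₁) (eo₂ : S₂.X o ≅ 𝟙_ D₂)
    (hφo : Sq G₁ G₂ (φ o).hom (un G₁ G₂) eo₁.hom eo₂.hom)
    (hcoef : ∀ i j l (a : S₁.X l ⟶ S₁.X i ⊗ S₁.X j) (b : S₂.X i ⊗ S₂.X j ⟶ S₂.X l), ∃ c : O,
      G₁.map a ≫ bx G₁ G₂ (φ i).hom (φ j).hom ≫ G₂.map b = algebraMap O K c • (φ l).hom)
    (hord : ∀ ord : ι → ℕ, ord o = 0 →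
        (∀ i j l, (∃ (a : S₁.X l ⟶ S₁.X i ⊗ S₁.X j) (b : S₂.X i ⊗ S₂.X j ⟶ S₂.X l) (c : O),
          G₁.map a ≫ bx G₁ G₂ (φ i).hom (φ j).hom ≫ G₂.map b = algebraMap O K c • (φ l).hom ∧
          algebraMap O k c ≠ 0) → ord i + ord j ≤ ord l) →
        ∀ i, ord i = 0)
    [HasFiniteBiproducts E] (hdr : ∀ X : E, Nonempty (HasRightDual X))
    (hdl : ∀ X : E, Nonempty (HasLeftDual X)) (hdl₁ : ∀ X : D₁, Nonempty (HasLeftDual X))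
    (hloc : ∀ r : O, algebraMap O k r ≠ 0 → IsUnit r)

include h₁ h₂ hinj hF hsurj hφo hcoef hord hdr hdl in
/-- every map to the unit lies in the multiplicative family -/
lemma units_mem (i j : ι) (u : S₁.X i ⊗ S₁.X j ⟶ S₁.X o) :
    ∃ (u' : S₁.X i ⊗ S₁.X j ⟶ S₁.X o) (v' : S₂.X i ⊗ S₂.X j ⟶ S₂.X o),
      Sq G₁ G₂ (bx G₁ G₂ (φ i).hom (φ j).hom) (φ o).hom u' v' ∧ F.map u = F.map u' := by
  have hβ : ∀ i j l (v : S₂.X i ⊗ S₂.X j ⟶ S₂.X l), ∃ u : S₁.X i ⊗ S₁.X j ⟶ S₁.X l,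
      Sq G₁ G₂ (bx G₁ G₂ (φ i).hom (φ j).hom) (φ l).hom u v := fun i j l v =>
    coef_to_to S₁ S₂ φ h₁ h₂ _ (hcoef i j) l v
  let Q := multFam h₁ h₂ hinj hβ hsurj hF o eo₁ eo₂ hφo
  have hQ := Q.all_units hdr hdl (by
    intro ord h0 hT
    refine hord ord h0 ?_
    rintro i j l ⟨a, b, c, hc, hc0⟩
    apply hT i j l
    obtain ⟨u, hu⟩ := hβ i j l b
    refine ⟨μ F (S₁.X i) (S₁.X j) ≫ F.map u, ⟨u, b, hu, rfl⟩, ?_⟩
    intro hzero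
    have hFu : F.map u = 0 := by
      have : F.map u = δ F (S₁.X i) (S₁.X j) ≫ μ F (S₁.X i) (S₁.X j) ≫ F.map u := by simp
      rw [this, hzero, comp_zero]
    obtain ⟨r, hr⟩ := (S₁.end_bij l).2 (a ≫ u)
    have e1 : algebraMap O K r • (φ l).hom = algebraMap O K c • (φ l).hom := by
      rw [← hc]
      unfold Sq at hu
      rw [← hu, ← Category.assoc, ← Functor.map_comp, ← hr]
      simp only [h₁.map_smul', CategoryTheory.Functor.map_id, Linear.smul_comp, Category.id_comp]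
    have e2 : algebraMap O K r • 𝟙 (G₁.obj (S₁.X l)) = algebraMap O K c • 𝟙 _ := by
      have := congrArg (fun f => f ≫ (φ l).inv) e1
      simpa [Linear.smul_comp] using this
    have e3 : r = c := hinj ((S₁.map G₁ h₁).smul_id_inj (i := l) e2)
    have e4 : F.map (a ≫ u) = 0 := by
      rw [Functor.map_comp, hFu, comp_zero]
    rw [← hr, e3] at e4
    simp only [hF.map_smul', CategoryTheory.Functor.map_id] at e4
    apply hc0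
    apply (S₁.map F hF).smul_id_inj (i := l)
    rw [zero_smul]
    exact e4) i j (μ F (S₁.X i) (S₁.X j) ≫ F.map u)
  obtain ⟨u', v', hs, he⟩ := hQ
  refine ⟨u', v', hs, ?_⟩
  have e5 := congrArg (fun f => δ F (S₁.X i) (S₁.X j) ≫ f) he
  simpa using e5

include h₁ h₂ hinj hF hsurj hφo hcoef hord hdr hdl hdl₁ hloc in
/-- the products of the matched simple objects are matched -/
theorem match_good (i j : ι) : Good S₁ S₂ φ (bx G₁ G₂ (φ i).hom (φ j).hom) := by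
  have : Nontrivial O := (algebraMap O K).domain_nontrivial
  have hα : ∀ i j l (a : S₁.X l ⟶ S₁.X i ⊗ S₁.X j), ∃ a' : S₂.X l ⟶ S₂.X i ⊗ S₂.X j,
      Sq G₁ G₂ (φ l).hom (bx G₁ G₂ (φ i).hom (φ j).hom) a a' := fun i j l a =>
    coef_to_from S₁ S₂ φ h₁ h₂ _ (hcoef i j) l a
  refine ⟨hα i j, ?_⟩
  obtain ⟨P⟩ := S₁.exists_starData hdl₁
  have ad₁ := h₁.additive
  have ad₂ := h₂.additive
  -- evaluations lift
  have hev : ∀ i, ∃ e' : S₂.X i ⊗ S₂.X (P.star i) ⟶ S₂.X o,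
      letI := P.pair i
      Sq G₁ G₂ (bx G₁ G₂ (φ i).hom (φ (P.star i)).hom) (φ o).hom
        (ε_ (S₁.X (P.star i)) (S₁.X i) ≫ eo₁.inv) e' := by
    intro i
    letI := P.pair i
    set e : S₁.X i ⊗ S₁.X (P.star i) ⟶ S₁.X o := ε_ (S₁.X (P.star i)) (S₁.X i) ≫ eo₁.inv with he
    have he0 : e ≠ 0 := by
      intro h
      apply S₁.eval_ne_zero (i := i) (S₁.X (P.star i))
      rw [← cancel_mono eo₁.inv, zero_comp]
      exact h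
    obtain ⟨u', v', hs, hu⟩ := units_mem h₁ h₂ hinj hsurj hF o eo₁ eo₂ hφo hcoef hord hdr hdl
      i (P.star i) e
    obtain ⟨r, hr⟩ := SFam.one_dim P o eo₁ i u'
    rw [← he] at hr
    -- `F e ≠ 0`
    obtain ⟨q, p, hqp⟩ := SFam.n_pos_split (SFam.n_pos_to e he0)
    obtain ⟨s, hs'⟩ := SFam.one_dim P o eo₁ i p
    rw [← he] at hs'
    have hFe : F.map e ≠ 0 := by
      intro h
      have h1 : F.map (q ≫ p) = 0 := by
        rw [hs', Linear.comp_smul, hF.map_smul', Functor.map_comp, h, comp_zero, smul_zero]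
      rw [hqp, CategoryTheory.Functor.map_id] at h1
      exact (S₁.map F hF).id_ne_zero' o h1
    have hr1 : algebraMap O k r = 1 := by
      rw [hr, hF.map_smul'] at hu
      by_contra hne
      have h2 : (algebraMap O k r - 1) • F.map e = 0 := by
        rw [sub_smul, one_smul, ← hu, sub_self]
      rcases smul_eq_zero.1 h2 with h3 | h3
      · exact hne (sub_eq_zero.1 h3)
      · exact hFe h3
    obtain ⟨t, ht⟩ := hloc r (by rw [hr1]; exact one_ne_zero)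
    have h4 := hs.smul (K := K) (fun r _ _ f => h₁.map_smul' r f)
      (fun r _ _ f => h₂.map_smul' r f) (↑t⁻¹ : O)
    refine ⟨(↑t⁻¹ : O) • v', ?_⟩
    rw [hr, smul_smul, ← ht, Units.inv_mul, one_smul] at h4
    exact h4
  -- all maps to simple objects lift
  have hb : ∀ l (u : S₁.X i ⊗ S₁.X j ⟶ S₁.X l), ∃ v : S₂.X i ⊗ S₂.X j ⟶ S₂.X l,
      Sq G₁ G₂ (bx G₁ G₂ (φ i).hom (φ j).hom) (φ l).hom u v := by
    intro l u
    letI := P.pair i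
    obtain ⟨w, hw⟩ := SFam.tri P i u
    obtain ⟨w', hw'⟩ := hα (P.star i) l j w
    obtain ⟨e', he'⟩ := hev i
    have s1 : Sq G₁ G₂ (bx G₁ G₂ (φ i).hom (φ (P.star i)).hom) (un G₁ G₂)
        (ε_ (S₁.X (P.star i)) (S₁.X i)) (e' ≫ eo₂.hom) := by
      have := he'.comp hφo
      rwa [Category.assoc, eo₁.inv_hom_id, Category.comp_id] at this
    refine ⟨(S₂.X i ◁ w') ≫ (α_ _ _ _).inv ≫ ((e' ≫ eo₂.hom) ▷ S₂.X l) ≫ (λ_ _).hom, ?_⟩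
    rw [hw]
    exact (Sq.whiskerLeft _ hw').comp ((Sq.assoc_inv _ _ _).comp
      ((Sq.whiskerRight _ s1).comp (Sq.leftUnitor _)))
  have := to_to_from S₁ S₂ φ h₁ h₂ (bxi G₁ G₂ (φ i) (φ j)) (by
    intro l b
    rw [bxi_hom]
    exact hb l b)
  intro l a'
  obtain ⟨a, ha⟩ := this l a'
  rw [bxi_hom] at ha
  exact ⟨a, ha⟩

end Final

end Mult

end Pool.Agent.Lib.MP_21cf63_al
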