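import Mathlib
import Pool.Agent.Lib.MP_21cf63_al.Match
import Pool.Agent.Lib.MP_21cf63_al.Transport

/-!
Gluing matched pairs of objects.
-/

set_option linter.unusedSectionVars false
set_option linter.style.haveILetI false

open CategoryTheory MonoidalCategory Limits Functor.LaxMonoidal Functor.OplaxMonoidal

namespace Pool.Agent.Lib.MP_21cf63_al

universe v₁ u₁ v₂ u₂ v₃ u₃ w w'

section Hom

variable {O : Type w} [CommRing O] {K : Type w'} [Field K] [Algebra O K]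
    {D₁ : Type u₁} [Category.{v₁} D₁] [Preadditive D₁] [Linear O D₁]
    {D₂ : Type u₂} [Category.{v₂} D₂] [Preadditive D₂] [Linear O D₂]
    {C : Type u₃} [Category.{v₃} C] [Preadditive C] [Linear K C]
    {G₁ : D₁ ⥤ C} {G₂ : D₂ ⥤ C}
    {ι : Type} [Fintype ι] {S₁ : SFam O D₁ ι} {S₂ : SFam O D₂ ι}
    {φ : ∀ i, G₁.obj (S₁.X i) ≅ G₂.obj (S₂.X i)}
    (h₁ : IsScalarExtension O K G₁) (h₂ : IsScalarExtension O K G₂)

lemma Good.swap {Z₁ : D₁} {Z₂ : D₂} {f : G₁.obj Z₁ ≅ G₂.obj Z₂} (hf : Good S₁ S₂ φ f.hom) :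
    Good S₂ S₁ (fun i => (φ i).symm) f.inv := by
  refine ⟨fun l a => ?_, fun l a' => ?_⟩
  · obtain ⟨a', ha'⟩ := hf.2 l a
    exact ⟨a', ha'.swap⟩
  · obtain ⟨a, ha⟩ := hf.1 l a'
    exact ⟨a, ha.swap⟩

include h₁ h₂ in
/-- maps transport forward along good comparison isomorphisms -/
lemma exists_forward {Z₁ Y₁ : D₁} {Z₂ Y₂ : D₂} (f : G₁.obj Z₁ ≅ G₂.obj Z₂)
    (g : G₁.obj Y₁ ⟶ G₂.obj Y₂) (hf : Good S₁ S₂ φ f.hom) (hg : Good S₁ S₂ φ g)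
    (u : Z₁ ⟶ Y₁) : ∃ v : Z₂ ⟶ Y₂, Sq G₁ G₂ f.hom g u v := by
  have ad₁ := h₁.additive
  have ad₂ := h₂.additive
  choose α hα using fun l (x : Fin (S₂.n Z₂ l)) => hf.2 l (S₂.q Z₂ l x)
  choose w hw using fun l (x : Fin (S₂.n Z₂ l)) => hg.1 l (α l x ≫ u)
  refine ⟨∑ l, ∑ x, S₂.p Z₂ l x ≫ w l x, ?_⟩
  let r : ∀ l, Fin (S₂.n Z₂ l) → (G₁.obj Z₁ ⟶ G₁.obj (S₁.X l)) := fun l x =>
    f.hom ≫ G₂.map (S₂.p Z₂ l x) ≫ (φ l).inv
  have e1 : ∑ l, ∑ x, r l x ≫ G₁.map (α l x) = 𝟙 _ := by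
    rw [← cancel_mono f.hom, Category.id_comp]
    simp only [Preadditive.sum_comp, r, Category.assoc]
    have : f.hom = f.hom ≫ G₂.map (∑ i, ∑ x, S₂.p Z₂ i x ≫ S₂.q Z₂ i x) := by
      rw [S₂.total, CategoryTheory.Functor.map_id, Category.comp_id]
    conv_rhs => rw [this]
    simp only [Functor.map_sum, Preadditive.comp_sum, Functor.map_comp]
    apply Finset.sum_congr rfl
    intro l _
    apply Finset.sum_congr rfl
    intro x _
    have := hα l x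
    unfold Sq at this
    rw [this, Iso.inv_hom_id_assoc]
  unfold Sq
  have e2 : G₁.map u ≫ g = (∑ l, ∑ x, r l x ≫ G₁.map (α l x)) ≫ G₁.map u ≫ g := by
    rw [e1, Category.id_comp]
  rw [e2]
  simp only [Functor.map_sum, Preadditive.comp_sum, Functor.map_comp, Preadditive.sum_comp, r,
    Category.assoc]
  apply Finset.sum_congr rfl
  intro l _
  apply Finset.sum_congr rfl
  intro x _
  have := hw l x
  unfold Sq at this
  rw [Functor.map_comp, Category.assoc] at this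
  rw [this, Iso.inv_hom_id_assoc]

lemma good_simple (h₁ : IsScalarExtension O K G₁) (h₂ : IsScalarExtension O K G₂) (i : ι) :
    Good S₁ S₂ φ (φ i).hom := by
  have ad₁ := h₁.additive
  have ad₂ := h₂.additive
  refine ⟨fun l a => ?_, fun l a' => ?_⟩
  · by_cases hl : l = i
    · subst hl
      obtain ⟨r, rfl⟩ := (S₁.end_bij l).2 a
      exact ⟨r • 𝟙 _, (Sq.id _).smul (K := K) (fun r _ _ f => h₁.map_smul' r f)
        (fun r _ _ f => h₂.map_smul' r f) r⟩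
    · rw [S₁.hom_zero l i hl a]
      exact ⟨0, Sq.zero⟩
  · by_cases hl : l = i
    · subst hl
      obtain ⟨r, rfl⟩ := (S₂.end_bij l).2 a'
      exact ⟨r • 𝟙 _, (Sq.id _).smul (K := K) (fun r _ _ f => h₁.map_smul' r f)
        (fun r _ _ f => h₂.map_smul' r f) r⟩
    · rw [S₂.hom_zero l i hl a']
      exact ⟨0, Sq.zero⟩

lemma Good.of_iso {Z₁ Y₁ : D₁} {Z₂ Y₂ : D₂} {f : G₁.obj Z₁ ⟶ G₂.obj Z₂}
    {g : G₁.obj Y₁ ⟶ G₂.obj Y₂} (hf : Good S₁ S₂ φ f) (u : Z₁ ≅ Y₁) (v : Z₂ ≅ Y₂)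
    (h : Sq G₁ G₂ f g u.hom v.hom) : Good S₁ S₂ φ g := by
  refine ⟨fun l a => ?_, fun l a' => ?_⟩
  · obtain ⟨a', ha'⟩ := hf.1 l (a ≫ u.inv)
    refine ⟨a' ≫ v.hom, ?_⟩
    have := ha'.comp h
    rwa [Category.assoc, u.inv_hom_id, Category.comp_id] at this
  · obtain ⟨a, ha⟩ := hf.2 l (a' ≫ v.inv)
    refine ⟨a ≫ u.hom, ?_⟩
    have := ha.comp h
    rwa [Category.assoc, v.inv_hom_id, Category.comp_id] at this

/-- every object of `D₁` is part of a matched pair -/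
lemma exists_pair [HasFiniteBiproducts D₂]
    (h₁ : IsScalarExtension O K G₁) (h₂ : IsScalarExtension O K G₂) (Z₁ : D₁) :
    ∃ (Z₂ : D₂) (f : G₁.obj Z₁ ≅ G₂.obj Z₂), Good S₁ S₂ φ f.hom := by
  classical
  have ad₁ := h₁.additive
  have ad₂ := h₂.additive
  let J := Σ i, Fin (S₁.n Z₁ i)
  let p : ∀ c : J, Z₁ ⟶ S₁.X c.1 := fun c => S₁.p Z₁ c.1 c.2
  let q : ∀ c : J, S₁.X c.1 ⟶ Z₁ := fun c => S₁.q Z₁ c.1 c.2
  let Z₂ : D₂ := ⨁ fun c : J => S₂.X c.1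
  let π : ∀ c : J, Z₂ ⟶ S₂.X c.1 := fun c => biproduct.π (fun c : J => S₂.X c.1) c
  let κ : ∀ c : J, S₂.X c.1 ⟶ Z₂ := fun c => biproduct.ι (fun c : J => S₂.X c.1) c
  have hκπ : ∀ c d : J, c ≠ d → κ c ≫ π d = 0 := fun c d hcd => biproduct.ι_π_ne _ hcd
  have hκπ' : ∀ c : J, κ c ≫ π c = 𝟙 _ := fun c => biproduct.ι_π_self _ c
  have htot₂ : ∑ c, π c ≫ κ c = 𝟙 Z₂ := biproduct.total
  have hqp' : ∀ c : J, q c ≫ p c = 𝟙 _ := fun c => S₁.q_p_self Z₁ c.1 c.2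
  have hqp : ∀ c d : J, c ≠ d → q c ≫ p d = 0 := by
    rintro ⟨i, a⟩ ⟨j, b⟩ hcd
    by_cases hij : i = j
    · subst hij
      show S₁.q Z₁ i a ≫ S₁.p Z₁ i b = 0
      rw [S₁.q_p, if_neg]
      rintro rfl
      exact hcd rfl
    · exact S₁.hom_zero i j hij _
  have htot₁ : ∑ c, p c ≫ q c = 𝟙 Z₁ := by
    rw [← S₁.total Z₁, Fintype.sum_sigma]
  let f : G₁.obj Z₁ ⟶ G₂.obj Z₂ := ∑ c : J, G₁.map (p c) ≫ (φ c.1).hom ≫ G₂.map (κ c)
  let g : G₂.obj Z₂ ⟶ G₁.obj Z₁ := ∑ c : J, G₂.map (π c) ≫ (φ c.1).inv ≫ G₁.map (q c)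
  have hqf : ∀ c, G₁.map (q c) ≫ f = (φ c.1).hom ≫ G₂.map (κ c) := by
    intro c
    simp only [f, Preadditive.comp_sum]
    rw [Finset.sum_eq_single c]
    · rw [← Functor.map_comp_assoc, hqp', CategoryTheory.Functor.map_id, Category.id_comp]
    · intro d _ hd
      rw [← Functor.map_comp_assoc, hqp c d (Ne.symm hd), Functor.map_zero, zero_comp]
    · intro h
      exact absurd (Finset.mem_univ _) h
  have hκg : ∀ c, G₂.map (κ c) ≫ g = (φ c.1).inv ≫ G₁.map (q c) := by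
    intro c
    simp only [g, Preadditive.comp_sum]
    rw [Finset.sum_eq_single c]
    · rw [← Functor.map_comp_assoc, hκπ', CategoryTheory.Functor.map_id, Category.id_comp]
    · intro d _ hd
      rw [← Functor.map_comp_assoc, hκπ c d (Ne.symm hd), Functor.map_zero, zero_comp]
    · intro h
      exact absurd (Finset.mem_univ _) h
  have hfg : f ≫ g = 𝟙 _ := by
    rw [← CategoryTheory.Functor.map_id G₁, ← htot₁, Functor.map_sum]
    conv_lhs => rw [show f = ∑ c : J, G₁.map (p c) ≫ (φ c.1).hom ≫ G₂.map (κ c) from rfl]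
    rw [Preadditive.sum_comp]
    apply Finset.sum_congr rfl
    intro c _
    rw [Category.assoc, Category.assoc, hκg, Iso.hom_inv_id_assoc, Functor.map_comp]
  have hgf : g ≫ f = 𝟙 _ := by
    rw [← CategoryTheory.Functor.map_id G₂, ← htot₂, Functor.map_sum]
    conv_lhs => rw [show g = ∑ c : J, G₂.map (π c) ≫ (φ c.1).inv ≫ G₁.map (q c) from rfl]
    rw [Preadditive.sum_comp]
    apply Finset.sum_congr rfl
    intro c _
    rw [Category.assoc, Category.assoc, hqf, Iso.inv_hom_id_assoc, Functor.map_comp]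
  refine ⟨Z₂, ⟨f, g, hfg, hgf⟩, ?_, ?_⟩
  · intro l a
    choose a' ha' using fun c : J => (good_simple (φ := φ) h₁ h₂ c.1).1 l (a ≫ p c)
    refine ⟨∑ c, a' c ≫ κ c, ?_⟩
    have : a = ∑ c, (a ≫ p c) ≫ q c := by
      conv_lhs => rw [← Category.comp_id a, ← htot₁, Preadditive.comp_sum]
      simp only [Category.assoc]
    rw [this]
    apply Sq.sum
    intro c _
    exact (ha' c).comp (hqf c)
  · intro l a'
    choose a ha using fun c : J => (good_simple (φ := φ) h₁ h₂ c.1).2 l (a' ≫ π c)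
    refine ⟨∑ c, a c ≫ q c, ?_⟩
    have : a' = ∑ c, (a' ≫ π c) ≫ κ c := by
      conv_lhs => rw [← Category.comp_id a', ← htot₂, Preadditive.comp_sum]
      simp only [Category.assoc]
    rw [this]
    apply Sq.sum
    intro c _
    exact (ha c).comp (hqf c)

end Hom

section Main

variable {O : Type w} [CommRing O] {K : Type w'} [Field K] [Algebra O K]
    {D₁ : Type u₁} [Category.{v₁} D₁] [Preadditive D₁] [Linear O D₁] [MonoidalCategory D₁]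
    [MonoidalPreadditive D₁] [MonoidalLinear O D₁]
    {D₂ : Type u₂} [Category.{v₂} D₂] [Preadditive D₂] [Linear O D₂] [MonoidalCategory D₂]
    [MonoidalPreadditive D₂] [MonoidalLinear O D₂]
    {C : Type u₃} [Category.{v₃} C] [Preadditive C] [Linear K C] [MonoidalCategory C]
    [MonoidalPreadditive C] [MonoidalLinear K C]
    {G₁ : D₁ ⥤ C} [G₁.Monoidal] {G₂ : D₂ ⥤ C} [G₂.Monoidal]
    {ι : Type} [Fintype ι] {S₁ : SFam O D₁ ι} {S₂ : SFam O D₂ ι}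
    {φ : ∀ i, G₁.obj (S₁.X i) ≅ G₂.obj (S₂.X i)}

/-- decomposition of a map to a tensor product -/
lemma comp_total_tensor {D : Type*} [Category D] [Preadditive D] [Linear O D]
    [MonoidalCategory D] [MonoidalPreadditive D] (S : SFam O D ι) {X Z Y : D} (a : X ⟶ Z ⊗ Y) :
    a = ∑ i, ∑ x, ∑ j, ∑ y, (a ≫ (S.p Z i x ⊗ₘ S.p Y j y)) ≫ (S.q Z i x ⊗ₘ S.q Y j y) := by
  have e : a = a ≫ ((∑ i, ∑ x, S.p Z i x ≫ S.q Z i x) ⊗ₘ
      (∑ j, ∑ y, S.p Y j y ≫ S.q Y j y)) := by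
    rw [S.total, S.total]
    simp
  have e1 : ∀ B : Y ⟶ Y, ((∑ i, ∑ x, S.p Z i x ≫ S.q Z i x) ⊗ₘ B) =
      ∑ i, ∑ x, ((S.p Z i x ≫ S.q Z i x) ⊗ₘ B) := by
    intro B
    simp only [sum_tensor]
  have e2 : ∀ B : Z ⟶ Z, (B ⊗ₘ (∑ j, ∑ y, S.p Y j y ≫ S.q Y j y)) =
      ∑ j, ∑ y, (B ⊗ₘ (S.p Y j y ≫ S.q Y j y)) := by
    intro B
    simp only [tensor_sum]
  conv_lhs => rw [e, e1]
  simp only [e2, Preadditive.comp_sum, Category.assoc, tensorHom_comp_tensorHom]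

lemma Good.tensor (h₁ : IsScalarExtension O K G₁) (h₂ : IsScalarExtension O K G₂)
    (hten : ∀ i j, Good S₁ S₂ φ (bx G₁ G₂ (φ i).hom (φ j).hom))
    {Z₁ Y₁ : D₁} {Z₂ Y₂ : D₂} {f : G₁.obj Z₁ ⟶ G₂.obj Z₂} {g : G₁.obj Y₁ ⟶ G₂.obj Y₂}
    (hf : Good S₁ S₂ φ f) (hg : Good S₁ S₂ φ g) : Good S₁ S₂ φ (bx G₁ G₂ f g) := by
  have ad₁ := h₁.additive
  have ad₂ := h₂.additive
  refine ⟨fun l a => ?_, fun l a' => ?_⟩
  · choose α hα using fun i x j y => (hten i j).1 l (a ≫ (S₁.p Z₁ i x ⊗ₘ S₁.p Y₁ j y))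
    choose β hβ using fun i x => hf.1 i (S₁.q Z₁ i x)
    choose γ hγ using fun j y => hg.1 j (S₁.q Y₁ j y)
    refine ⟨∑ i, ∑ x, ∑ j, ∑ y, α i x j y ≫ (β i x ⊗ₘ γ j y), ?_⟩
    rw [comp_total_tensor S₁ a]
    exact Sq.sum _ fun i _ => Sq.sum _ fun x _ => Sq.sum _ fun j _ => Sq.sum _ fun y _ =>
      (hα i x j y).comp ((hβ i x).tensor (hγ j y))
  · choose α hα using fun i x j y => (hten i j).2 l (a' ≫ (S₂.p Z₂ i x ⊗ₘ S₂.p Y₂ j y))
    choose β hβ using fun i x => hf.2 i (S₂.q Z₂ i x)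
    choose γ hγ using fun j y => hg.2 j (S₂.q Y₂ j y)
    refine ⟨∑ i, ∑ x, ∑ j, ∑ y, α i x j y ≫ (β i x ⊗ₘ γ j y), ?_⟩
    rw [comp_total_tensor S₂ a']
    exact Sq.sum _ fun i _ => Sq.sum _ fun x _ => Sq.sum _ fun j _ => Sq.sum _ fun y _ =>
      (hα i x j y).comp ((hβ i x).tensor (hγ j y))

/-- matched triples -/
structure Tri (S₁ : SFam O D₁ ι) (S₂ : SFam O D₂ ι)
    (φ : ∀ i, G₁.obj (S₁.X i) ≅ G₂.obj (S₂.X i)) where
  a : D₁
  b : D₂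
  f : G₁.obj a ≅ G₂.obj b
  good : Good S₁ S₂ φ f.hom

theorem P10_glue [HasFiniteBiproducts D₁] [HasFiniteBiproducts D₂]
    (h₁ : IsScalarExtension O K G₁) (h₂ : IsScalarExtension O K G₂)
    (hinj : Function.Injective (algebraMap O K))
    (o : ι) (eo₁ : S₁.X o ≅ 𝟙_ D₁) (eo₂ : S₂.X o ≅ 𝟙_ D₂)
    (hφo : Sq G₁ G₂ (φ o).hom (un G₁ G₂) eo₁.hom eo₂.hom)
    (hten : ∀ i j, Good S₁ S₂ φ (bx G₁ G₂ (φ i).hom (φ j).hom)) :
    ∃ e : D₁ ≌ D₂, Nonempty e.functor.Monoidal ∧ e.functor.Additive ∧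
      ∀ (r : O) (X Y : D₁) (f : X ⟶ Y), e.functor.map (r • f) = r • e.functor.map f := by
  have ad₁ := h₁.additive
  have ad₂ := h₂.additive
  have hun : Good S₁ S₂ φ (uni G₁ G₂).hom := by
    rw [uni_hom]
    exact (good_simple h₁ h₂ o).of_iso eo₁ eo₂ hφo
  -- forward and backward
  have hfw : ∀ (s t : Tri S₁ S₂ φ) (u : s.a ⟶ t.a), ∃ v : s.b ⟶ t.b,
      Sq G₁ G₂ s.f.hom t.f.hom u v := fun s t u =>
    exists_forward h₁ h₂ s.f t.f.hom s.good t.good u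
  have hbw : ∀ (s t : Tri S₁ S₂ φ) (v : s.b ⟶ t.b), ∃ u : s.a ⟶ t.a,
      Sq G₁ G₂ s.f.hom t.f.hom u v := by
    intro s t v
    obtain ⟨u, hu⟩ := exists_forward h₂ h₁ s.f.symm t.f.symm.hom s.good.swap t.good.swap v
    exact ⟨u, Sq.swap_iff.2 hu⟩
  choose fw hfw using hfw
  choose bw hbw using hbw
  have uniq₂ : ∀ (s t : Tri S₁ S₂ φ) (u : s.a ⟶ t.a) (v v' : s.b ⟶ t.b),
      Sq G₁ G₂ s.f.hom t.f.hom u v → Sq G₁ G₂ s.f.hom t.f.hom u v' → v = v' := by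
    intro s t u v v' h h'
    apply map_inj h₂ hinj S₂
    unfold Sq at h h'
    rw [h] at h'
    exact (cancel_epi _).1 h'
  have uniq₁ : ∀ (s t : Tri S₁ S₂ φ) (u u' : s.a ⟶ t.a) (v : s.b ⟶ t.b),
      Sq G₁ G₂ s.f.hom t.f.hom u v → Sq G₁ G₂ s.f.hom t.f.hom u' v → u = u' := by
    intro s t u u' v h h'
    apply map_inj h₁ hinj S₁
    unfold Sq at h h'
    rw [← h'] at h
    exact (cancel_mono _).1 h
  let ten : Tri S₁ S₂ φ → Tri S₁ S₂ φ → Tri S₁ S₂ φ := fun s t =>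
    ⟨s.a ⊗ t.a, s.b ⊗ t.b, bxi G₁ G₂ s.f t.f, by
      rw [bxi_hom]
      exact s.good.tensor h₁ h₂ hten t.good⟩
  let unt : Tri S₁ S₂ φ := ⟨𝟙_ D₁, 𝟙_ D₂, uni G₁ G₂, hun⟩
  let θ : ∀ s t : Tri S₁ S₂ φ, (s.a ⟶ t.a) ≃ (s.b ⟶ t.b) := fun s t =>
    { toFun := fw s t
      invFun := bw s t
      left_inv := fun u => uniq₁ s t _ _ (fw s t u) (hbw s t _) (hfw s t _)
      right_inv := fun v => uniq₂ s t (bw s t v) _ _ (hfw s t _) (hbw s t _) }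
  have key : ∀ (s t : Tri S₁ S₂ φ) (u : s.a ⟶ t.a) (v : s.b ⟶ t.b),
      Sq G₁ G₂ s.f.hom t.f.hom u v → θ s t u = v := fun s t u v h =>
    uniq₂ s t u _ _ (hfw s t u) h
  have hsq : ∀ (s t : Tri S₁ S₂ φ) (u : s.a ⟶ t.a), Sq G₁ G₂ s.f.hom t.f.hom u (θ s t u) :=
    fun s t u => hfw s t u
  have kten : ∀ s t, (ten s t).f.hom = bx G₁ G₂ s.f.hom t.f.hom := fun s t => bxi_hom _ _ _ _
  have kunt : unt.f.hom = un G₁ G₂ := uni_hom _ _
  refine H7_transport (S := O) (A := D₁) (B := D₂) (T := Tri S₁ S₂ φ) (fun t => t.a)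
    (fun t => t.b) ?_ ?_ θ ?_ ?_ ?_ ?_ ten unt (fun s t => Iso.refl _) (fun s t => Iso.refl _)
    (Iso.refl _) (Iso.refl _) ?_ ?_ ?_ ?_ ?_
  · intro X
    obtain ⟨Z₂, f, hf⟩ := exists_pair (φ := φ) h₁ h₂ X
    exact ⟨⟨X, Z₂, f, hf⟩, ⟨Iso.refl _⟩⟩
  · intro X
    obtain ⟨Z₁, f, hf⟩ := exists_pair (φ := fun i => (φ i).symm) h₂ h₁ X
    exact ⟨⟨Z₁, X, f.symm, hf.swap⟩, ⟨Iso.refl _⟩⟩
  · intro s t f g
    exact key _ _ _ _ ((hsq s t f).add (hsq s t g))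
  · intro s t r f
    exact key _ _ _ _ ((hsq s t f).smul (K := K) (fun r _ _ f => h₁.map_smul' r f)
        (fun r _ _ f => h₂.map_smul' r f) r)
  · intro t
    exact key _ _ _ _ (Sq.id _)
  · intro s t u f g
    exact key _ _ _ _ ((hsq s t f).comp (hsq t u g))
  · intro s t t' f
    apply key
    rw [kten, kten]
    exact (Sq.id _).comp ((Sq.whiskerLeft _ (hsq _ _ f)).comp (Sq.id _))
  · intro s s' t f
    apply key
    rw [kten, kten]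
    exact (Sq.id _).comp ((Sq.whiskerRight _ (hsq _ _ f)).comp (Sq.id _))
  · intro s t u
    apply key
    rw [kten, kten, kten, kten]
    exact (Sq.id _).comp ((Sq.whiskerRight _ (Sq.id _)).comp ((Sq.assoc _ _ _).comp
      ((Sq.whiskerLeft _ (Sq.id _)).comp (Sq.id _))))
  · intro t
    apply key
    rw [kten, kunt]
    exact (Sq.id _).comp ((Sq.whiskerRight _ (Sq.id _)).comp (Sq.leftUnitor _))
  · intro t
    apply key
    rw [kten, kunt]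
    exact (Sq.id _).comp ((Sq.whiskerLeft _ (Sq.id _)).comp (Sq.rightUnitor _))

end Main

end Pool.Agent.Lib.MP_21cf63_al
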