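import Mathlib

/-! Facts on the algebraic closure of `ℚ_[p]` (lemmas H6 for MP_21cf63_al). -/

namespace Pool.Agent.Lib.MP_21cf63_al

open Polynomial

/-- H6a -/
theorem H6_integral (p : ℕ) [Fact p.Prime] (x : PadicAlgCl p) :
    IsIntegral ℤ_[p] x ↔ ‖x‖ ≤ 1 := by
  have halg : IsAlgebraic ℚ_[p] x := Algebra.IsAlgebraic.isAlgebraic x
  have hint : IsIntegral ℚ_[p] x := halg.isIntegral
  have hnorm : ‖x‖ = spectralValue (minpoly ℚ_[p] x) := by
    rw [← PadicAlgCl.spectralNorm_eq]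
    rfl
  rw [hnorm, spectralValue_le_one_iff (minpoly.monic hint)]
  constructor
  · intro hx n
    have h := minpoly.isIntegrallyClosed_eq_field_fractions' (R := ℤ_[p]) ℚ_[p] hx
    rw [h, coeff_map]
    exact PadicInt.norm_le_one _
  · intro h
    have hlift : minpoly ℚ_[p] x ∈ lifts (algebraMap ℤ_[p] ℚ_[p]) := by
      rw [lifts_iff_coeff_lifts]
      intro n
      exact ⟨⟨_, h n⟩, rfl⟩
    obtain ⟨q, hq, -, hmonic⟩ := lifts_and_natDegree_eq_and_monic hlift (minpoly.monic hint)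
    refine ⟨q, hmonic, ?_⟩
    have h0 : aeval x (minpoly ℚ_[p] x) = 0 := minpoly.aeval _ _
    rw [← hq, aeval_map_algebraMap] at h0
    exact h0

/-- H6b: logarithms of norms form a nonzero rational subspace of the reals -/
theorem H6_valueGroup (p : ℕ) [Fact p.Prime] :
    ∃ Γ : Submodule ℚ ℝ, Γ ≠ ⊥ ∧ ∀ r : ℝ, r ∈ Γ ↔ ∃ x : PadicAlgCl p, x ≠ 0 ∧ Real.log ‖x‖ = r := by
  let Γ : Submodule ℚ ℝ :=
    { carrier := {r | ∃ x : PadicAlgCl p, x ≠ 0 ∧ Real.log ‖x‖ = r}
      add_mem' := by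
        rintro a b ⟨x, hx, rfl⟩ ⟨y, hy, rfl⟩
        refine ⟨x * y, mul_ne_zero hx hy, ?_⟩
        rw [norm_mul, Real.log_mul (norm_ne_zero_iff.mpr hx) (norm_ne_zero_iff.mpr hy)]
      zero_mem' := ⟨1, one_ne_zero, by simp⟩
      smul_mem' := by
        rintro c r ⟨x, hx, rfl⟩
        obtain ⟨y, hy⟩ := IsAlgClosed.exists_pow_nat_eq (x ^ c.num) c.den_pos
        have hy0 : y ≠ 0 := by
          rintro rfl
          rw [zero_pow c.den_pos.ne'] at hy
          exact zpow_ne_zero _ hx hy.symm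
        refine ⟨y, hy0, ?_⟩
        have h1 : (c.den : ℝ) * Real.log ‖y‖ = c.num * Real.log ‖x‖ := by
          have h2 := congrArg (fun z => Real.log ‖z‖) hy
          simp only [norm_pow, norm_zpow, Real.log_pow, Real.log_zpow] at h2
          exact h2
        have hden : (c.den : ℝ) ≠ 0 := by exact_mod_cast c.den_pos.ne'
        have hc : (c : ℝ) = c.num / c.den := by
          exact_mod_cast (Rat.num_div_den c).symm
        rw [Rat.smul_def, hc]
        field_simp
        linarith }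
  refine ⟨Γ, ?_, fun r => Iff.rfl⟩
  intro hbot
  have hmem : Real.log ‖(p : PadicAlgCl p)‖ ∈ Γ := by
    refine ⟨(p : PadicAlgCl p), ?_, rfl⟩
    exact_mod_cast (Fact.out : p.Prime).ne_zero
  rw [hbot, Submodule.mem_bot] at hmem
  have hn : ‖(p : PadicAlgCl p)‖ = (p : ℝ)⁻¹ := by
    have := PadicAlgCl.norm_extends p (p : ℚ_[p])
    rw [map_natCast] at this
    rw [this, Padic.norm_p]
  rw [hn, Real.log_inv, neg_eq_zero] at hmem
  have hp : (1:ℝ) < p := by exact_mod_cast (Fact.out : p.Prime).one_lt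
  exact (Real.log_pos hp).ne' hmem

/-- H6c -/
theorem H6_local (p : ℕ) [Fact p.Prime] :
    ∃ _ : IsLocalRing (integralClosure ℤ_[p] (PadicAlgCl p)),
      ∀ x : integralClosure ℤ_[p] (PadicAlgCl p),
        IsLocalRing.residue (integralClosure ℤ_[p] (PadicAlgCl p)) x = 0 ↔ ‖(x : PadicAlgCl p)‖ < 1 := by
  have hle : ∀ x : integralClosure ℤ_[p] (PadicAlgCl p), ‖(x : PadicAlgCl p)‖ ≤ 1 := fun x =>
    (H6_integral p x).mp x.2
  have hunit : ∀ x : integralClosure ℤ_[p] (PadicAlgCl p), IsUnit x ↔ ‖(x : PadicAlgCl p)‖ = 1 := by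
    intro x
    constructor
    · rintro ⟨u, rfl⟩
      have h1 := hle (u : integralClosure ℤ_[p] (PadicAlgCl p))
      have h2 := hle ((u⁻¹ : (integralClosure ℤ_[p] (PadicAlgCl p))ˣ) : integralClosure ℤ_[p] (PadicAlgCl p))
      have h3 : ‖((u : integralClosure ℤ_[p] (PadicAlgCl p)) : PadicAlgCl p)‖ *
          ‖(((u⁻¹ : (integralClosure ℤ_[p] (PadicAlgCl p))ˣ) : integralClosure ℤ_[p] (PadicAlgCl p)) : PadicAlgCl p)‖ = 1 := by
        rw [← norm_mul, ← Subalgebra.coe_mul, Units.mul_inv, Subalgebra.coe_one, norm_one]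
      nlinarith [norm_nonneg ((u : integralClosure ℤ_[p] (PadicAlgCl p)) : PadicAlgCl p)]
    · intro h
      have hx0 : (x : PadicAlgCl p) ≠ 0 := by
        intro h0
        rw [h0, norm_zero] at h
        exact zero_ne_one h
      have hinv : IsIntegral ℤ_[p] ((x : PadicAlgCl p)⁻¹) := by
        rw [H6_integral, norm_inv, h, inv_one]
      refine IsUnit.of_mul_eq_one (⟨_, hinv⟩ : integralClosure ℤ_[p] (PadicAlgCl p)) ?_
      apply Subtype.ext
      rw [Subalgebra.coe_mul, Subalgebra.coe_one]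
      exact mul_inv_cancel₀ hx0
  have hloc : IsLocalRing (integralClosure ℤ_[p] (PadicAlgCl p)) := by
    refine IsLocalRing.of_isUnit_or_isUnit_one_sub_self fun a => ?_
    rcases eq_or_lt_of_le (hle a) with h | h
    · exact Or.inl ((hunit a).mpr h)
    · right
      rw [hunit, Subalgebra.coe_sub, Subalgebra.coe_one]
      have h1 : ‖(1 : PadicAlgCl p)‖ ≠ ‖-(a : PadicAlgCl p)‖ := by
        rw [norm_one, norm_neg]; exact h.ne'
      rw [sub_eq_add_neg, IsUltrametricDist.norm_add_eq_max_of_norm_ne_norm h1, norm_one, norm_neg]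
      exact max_eq_left h.le
  refine ⟨hloc, fun x => ?_⟩
  rw [IsLocalRing.residue_eq_zero_iff, IsLocalRing.mem_maximalIdeal, mem_nonunits_iff, hunit]
  exact ⟨fun h => lt_of_le_of_ne (hle x) h, fun h => h.ne⟩

end Pool.Agent.Lib.MP_21cf63_al
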