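import Mathlib

namespace Pool.Agent.Lib.MP_21cf63_al

/-- Perturbation: real vectors can be moved into a dense rational subspace by a
rational-linear map fixing the subspace, with small displacement. -/
theorem exists_small_section {ι : Type*} [Fintype ι] (Γ : Submodule ℚ ℝ) (hΓ : Γ ≠ ⊥)
    (a : ι → ℝ) (ε : ℝ) (hε : 0 < ε) :
    ∃ lam : ℝ →ₗ[ℚ] ℝ, (∀ r, lam r ∈ Γ) ∧ (∀ r ∈ Γ, lam r = r) ∧ ∀ i, |lam (a i) - a i| < ε := by
  classical
  let b := Module.Basis.ofVectorSpace ℚ (ℝ ⧸ Γ)
  let C : ι → ℝ := fun i => (b.repr (Γ.mkQ (a i))).sum (fun _ c => |(c : ℝ)|)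
  have hC : ∀ i, 0 ≤ C i := fun i => Finset.sum_nonneg (fun _ _ => abs_nonneg _)
  let M : ℝ := 1 + ∑ i, C i
  have hM : 0 < M := by
    have : 0 ≤ ∑ i, C i := Finset.sum_nonneg (fun i _ => hC i)
    simp only [M]; linarith
  have hCM : ∀ i, C i < M := by
    intro i
    have := Finset.single_le_sum (f := C) (fun i _ => hC i) (Finset.mem_univ i)
    simp only [M]; linarith
  obtain ⟨g, hg, hg0⟩ := Submodule.exists_mem_ne_zero_of_ne_bot hΓ
  have hsmall : ∀ q : ℝ ⧸ Γ, ∃ t : ℝ, Γ.mkQ t = q ∧ |t| < ε / M := by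
    intro q
    obtain ⟨r, rfl⟩ := Γ.mkQ_surjective q
    have hpos : 0 < ε / M / |g| := by positivity
    obtain ⟨c, hc1, hc2⟩ := exists_rat_btwn (show r / g - ε / M / |g| < r / g by linarith)
    refine ⟨r - c • g, ?_, ?_⟩
    · rw [map_sub]
      have : Γ.mkQ (c • g) = 0 := by
        rw [Submodule.mkQ_apply, Submodule.Quotient.mk_eq_zero]
        exact Γ.smul_mem c hg
      rw [this, sub_zero]
    · have h1 : r - c • g = (r / g - c) * g := by
        rw [Rat.smul_def]
        field_simp
      rw [h1, abs_mul]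
      have h2 : |r / g - c| < ε / M / |g| := by
        rw [abs_lt]; constructor <;> linarith
      calc |r / g - c| * |g| < ε / M / |g| * |g| := by
            apply mul_lt_mul_of_pos_right h2 (abs_pos.mpr hg0)
        _ = ε / M := by
            have := abs_pos.mpr hg0
            field_simp
  choose t ht1 ht2 using hsmall
  let F : (ℝ ⧸ Γ) →ₗ[ℚ] ℝ := b.constr ℚ (fun x => t (b x))
  have hF : ∀ q, Γ.mkQ (F q) = q := by
    intro q
    have : Γ.mkQ ∘ₗ F = LinearMap.id := by
      apply b.ext
      intro x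
      simp only [F, LinearMap.comp_apply, Module.Basis.constr_basis, LinearMap.id_apply]
      exact ht1 _
    exact LinearMap.congr_fun this q
  refine ⟨LinearMap.id - F ∘ₗ Γ.mkQ, ?_, ?_, ?_⟩
  · intro r
    rw [← Submodule.Quotient.mk_eq_zero, ← Submodule.mkQ_apply]
    simp only [LinearMap.sub_apply, LinearMap.id_apply, LinearMap.comp_apply, map_sub]
    rw [hF, sub_self]
  · intro r hr
    simp only [LinearMap.sub_apply, LinearMap.id_apply, LinearMap.comp_apply]
    have : Γ.mkQ r = 0 := by
      rw [Submodule.mkQ_apply, Submodule.Quotient.mk_eq_zero]; exact hr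
    rw [this, map_zero, sub_zero]
  · intro i
    simp only [LinearMap.sub_apply, LinearMap.id_apply, LinearMap.comp_apply]
    rw [sub_sub_cancel_left, abs_neg]
    have h1 : F (Γ.mkQ (a i)) = (b.repr (Γ.mkQ (a i))).sum (fun x c => c • t (b x)) := by
      simp only [F]
      rw [Module.Basis.constr_apply]
    rw [h1]
    have hεM : 0 < ε / M := by positivity
    calc |(b.repr (Γ.mkQ (a i))).sum (fun x c => c • t (b x))|
        ≤ ∑ x ∈ (b.repr (Γ.mkQ (a i))).support, |(b.repr (Γ.mkQ (a i)) x) • t (b x)| :=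
          Finset.abs_sum_le_sum_abs _ _
      _ ≤ ∑ x ∈ (b.repr (Γ.mkQ (a i))).support, |((b.repr (Γ.mkQ (a i)) x : ℚ) : ℝ)| * (ε / M) := by
          apply Finset.sum_le_sum
          intro x _
          rw [Rat.smul_def, abs_mul]
          exact mul_le_mul_of_nonneg_left (ht2 _).le (abs_nonneg _)
      _ = C i * (ε / M) := by
          rw [← Finset.sum_mul]; rfl
      _ < M * (ε / M) := mul_lt_mul_of_pos_right (hCM i) hεM
      _ = ε := by field_simp

/-- H2: linear programming lemma. -/
theorem H2_lp {ι : Type*} [Fintype ι] (Γ : Submodule ℚ ℝ) (hΓ : Γ ≠ ⊥)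
    (R : ι → ι → ι → Prop) (L : ι → ι → ι → ℝ) (hL : ∀ i j k, R i j k → L i j k ∈ Γ)
    (o : ι) (h0l : ∀ j k, R o j k → k = j ∧ L o j j = 0)
    (h0r : ∀ j k, R j o k → k = j ∧ L j o j = 0)
    (star : ι → ι) (hstar : ∀ i, R i (star i) o) :
    ∃ a : ι → ℝ, (∀ i, a i ∈ Γ) ∧ a o = 0 ∧ (∀ i j k, R i j k → L i j k ≤ a i + a j - a k) ∧
      ∀ ord : ι → ℕ, ord o = 0 →
        (∀ i j k, R i j k → L i j k = a i + a j - a k → ord i + ord j ≤ ord k) →
        ∀ i, ord i = 0 := by
  classical
  let C : ℝ := ∑ i, ∑ j, ∑ k, |L i j k|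
  have hC : ∀ i j k, |L i j k| ≤ C := by
    intro i j k
    calc |L i j k| ≤ ∑ k, |L i j k| :=
          Finset.single_le_sum (f := fun k => |L i j k|) (fun _ _ => abs_nonneg _) (Finset.mem_univ k)
      _ ≤ ∑ j, ∑ k, |L i j k| :=
          Finset.single_le_sum (f := fun j => ∑ k, |L i j k|)
            (fun _ _ => Finset.sum_nonneg (fun _ _ => abs_nonneg _)) (Finset.mem_univ j)
      _ ≤ C :=
          Finset.single_le_sum (f := fun i => ∑ j, ∑ k, |L i j k|)
            (fun _ _ => Finset.sum_nonneg (fun _ _ => Finset.sum_nonneg (fun _ _ => abs_nonneg _)))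
            (Finset.mem_univ i)
  have hC0 : 0 ≤ C := (abs_nonneg _).trans (hC o o o)
  let S : Set (ι → ℝ) := {a | a o = 0 ∧ (∀ i, a i ≤ C) ∧ ∀ i j k, R i j k → L i j k ≤ a i + a j - a k}
  have hSne : S.Nonempty := by
    refine ⟨fun i => if i = o then 0 else C, ?_, ?_, ?_⟩
    · simp
    · intro i
      by_cases h : i = o <;> simp [h, hC0]
    · intro i j k hR
      by_cases hi : i = o
      · subst hi
        obtain ⟨rfl, h⟩ := h0l j k hR
        rw [h]; simp
      · by_cases hj : j = o
        · subst hj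
          obtain ⟨rfl, h⟩ := h0r i k hR
          rw [h]; simp
        · have h1 : L i j k ≤ C := (le_abs_self _).trans (hC i j k)
          simp only [hi, hj, if_false]
          by_cases hk : k = o
          · simp only [hk, if_true]; rw [hk] at h1; linarith
          · simp only [hk, if_false]; linarith
  have hSclosed : IsClosed S := by
    have : S = {a | a o = 0} ∩ ((⋂ i, {a | a i ≤ C}) ∩
        ⋂ i, ⋂ j, ⋂ k, ⋂ (_ : R i j k), {a | L i j k ≤ a i + a j - a k}) := by
      ext a
      simp only [S, Set.mem_ofPred_eq, Set.mem_inter_iff, Set.mem_iInter]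
    rw [this]
    refine IsClosed.inter (isClosed_eq (continuous_apply o) continuous_const) (IsClosed.inter ?_ ?_)
    · exact isClosed_iInter fun i => isClosed_le (continuous_apply i) continuous_const
    · refine isClosed_iInter fun i => isClosed_iInter fun j => isClosed_iInter fun k =>
        isClosed_iInter fun _ => isClosed_le continuous_const ?_
      exact ((continuous_apply i).add (continuous_apply j)).sub (continuous_apply k)
  have hSbdd : S ⊆ Set.Icc (fun _ => -(2 * C)) (fun _ => C) := by
    intro a ha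
    refine ⟨fun i => ?_, fun i => ha.2.1 i⟩
    have h1 := ha.2.2 i (star i) o (hstar i)
    have h2 := ha.2.1 (star i)
    have h3 := hC i (star i) o
    have h4 := (abs_le.mp h3).1
    rw [ha.1] at h1
    show -(2 * C) ≤ a i
    linarith
  have hScomp : IsCompact S := isCompact_Icc.of_isClosed_subset hSclosed hSbdd
  obtain ⟨a, haS, hamin⟩ := hScomp.exists_isMinOn hSne
    (f := fun a : ι → ℝ => ∑ i, a i) (by fun_prop)
  -- gap
  have hgap : ∃ δ > 0, ∀ i j k, R i j k → L i j k ≠ a i + a j - a k →
      L i j k + δ ≤ a i + a j - a k := by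
    let G : Finset (ι × ι × ι) := Finset.univ.filter
      (fun x => R x.1 x.2.1 x.2.2 ∧ L x.1 x.2.1 x.2.2 ≠ a x.1 + a x.2.1 - a x.2.2)
    by_cases hG : G.Nonempty
    · obtain ⟨x, hx, hxmin⟩ := G.exists_min_image
        (fun x => a x.1 + a x.2.1 - a x.2.2 - L x.1 x.2.1 x.2.2) hG
      simp only [G, Finset.mem_filter, Finset.mem_univ, true_and] at hx
      refine ⟨a x.1 + a x.2.1 - a x.2.2 - L x.1 x.2.1 x.2.2, ?_, ?_⟩
      · have h1 := haS.2.2 _ _ _ hx.1
        have h2 := lt_of_le_of_ne h1 hx.2
        linarith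
      · intro i j k hR hne
        have := hxmin (i, j, k) (by simp [G, hR, hne])
        simp only at this
        linarith
    · refine ⟨1, one_pos, fun i j k hR hne => ?_⟩
      exfalso
      exact hG ⟨(i, j, k), by simp [G, hR, hne]⟩
  obtain ⟨δ, hδ, hgap⟩ := hgap
  have hreal : ∀ ord : ι → ℕ, ord o = 0 →
        (∀ i j k, R i j k → L i j k = a i + a j - a k → ord i + ord j ≤ ord k) →
        ∀ i, ord i = 0 := by
    intro ord ho hord
    by_contra hcon
    push Not at hcon
    obtain ⟨i0, hi0⟩ := hcon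
    let B : ℝ := ∑ i, (ord i : ℝ)
    have hB : ∀ i, (ord i : ℝ) ≤ B := fun i =>
      Finset.single_le_sum (f := fun i => (ord i : ℝ)) (fun _ _ => Nat.cast_nonneg _) (Finset.mem_univ i)
    have hi0' : (1 : ℝ) ≤ ord i0 := by
      exact_mod_cast Nat.one_le_iff_ne_zero.mpr hi0
    have hBpos : 0 < B := lt_of_lt_of_le one_pos (hi0'.trans (hB i0))
    let e : ℝ := δ / (2 * B)
    have he : 0 < e := by positivity
    have heB : e * (2 * B) = δ := by
      simp only [e]; field_simp
    have ha' : (fun i => a i - e * ord i) ∈ S := by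
      refine ⟨?_, ?_, ?_⟩
      · simp only [ho, haS.1]; simp
      · intro i
        have := haS.2.1 i
        have h0 : 0 ≤ e * ord i := by positivity
        show a i - e * ord i ≤ C
        linarith
      · intro i j k hR
        show L i j k ≤ (a i - e * ord i) + (a j - e * ord j) - (a k - e * ord k)
        by_cases ht : L i j k = a i + a j - a k
        · have h1 := hord i j k hR ht
          have h2 : (ord i : ℝ) + ord j ≤ ord k := by exact_mod_cast h1
          have h3 : e * ((ord i : ℝ) + ord j) ≤ e * ord k := mul_le_mul_of_nonneg_left h2 he.le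
          rw [ht]; nlinarith
        · have h1 := hgap i j k hR ht
          have h2 : e * ord i ≤ e * B := mul_le_mul_of_nonneg_left (hB i) he.le
          have h3 : e * ord j ≤ e * B := mul_le_mul_of_nonneg_left (hB j) he.le
          have h4 : 0 ≤ e * ord k := by positivity
          nlinarith
    have h5 := hamin ha'
    simp only [Finset.sum_sub_distrib, Set.mem_ofPred_eq] at h5
    rw [← Finset.mul_sum] at h5
    have : 0 < e * B := by positivity
    simp only [B] at this
    linarith
  obtain ⟨lam, hl1, hl2, hl3⟩ := exists_small_section Γ hΓ a (δ / 3) (by positivity)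
  have hfeas : ∀ i j k, R i j k → L i j k ≠ a i + a j - a k →
      L i j k < lam (a i) + lam (a j) - lam (a k) := by
    intro i j k hR hne
    have h1 := hgap i j k hR hne
    have h2 := abs_lt.mp (hl3 i)
    have h3 := abs_lt.mp (hl3 j)
    have h4 := abs_lt.mp (hl3 k)
    linarith [h2.1, h3.1, h4.2]
  have htight : ∀ i j k, R i j k → L i j k = a i + a j - a k →
      L i j k = lam (a i) + lam (a j) - lam (a k) := by
    intro i j k hR ht
    rw [← map_add, ← map_sub, ← ht, hl2 _ (hL i j k hR)]
  refine ⟨fun i => lam (a i), fun i => hl1 _, ?_, ?_, ?_⟩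
  · show lam (a o) = 0
    rw [haS.1, map_zero]
  · intro i j k hR
    by_cases ht : L i j k = a i + a j - a k
    · exact (htight i j k hR ht).le
    · exact (hfeas i j k hR ht).le
  · intro ord ho hord
    apply hreal ord ho
    intro i j k hR ht
    exact hord i j k hR (htight i j k hR ht)

end Pool.Agent.Lib.MP_21cf63_al
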