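import Mathlib
import Pool.Agent.Lib.MP_21cf63_al.Good
import Pool.Agent.Lib.MP_21cf63_al.LP

/-!
P6: rescaling the identifications of the simple objects.
-/

set_option linter.unusedSectionVars false
set_option linter.style.haveILetI false

open CategoryTheory MonoidalCategory Limits Functor.LaxMonoidal Functor.OplaxMonoidal

namespace Pool.Agent.Lib.MP_21cf63_al

namespace ValData

variable {O : Type*} [CommRing O] {K : Type*} [Field K] {k : Type*} [Field k]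
    [Algebra O K] [Algebra O k] (V : ValData O K k)

lemma v_one : V.v 1 = 1 := by
  have h := V.v_mul 1 1
  rw [mul_one] at h
  have hp := V.v_pos 1 one_ne_zero
  have : V.v 1 * (V.v 1 - 1) = 0 := by linear_combination -h
  rcases mul_eq_zero.mp this with h1 | h1
  · exact absurd h1 hp.ne'
  · linarith

lemma v_nonneg (x : K) : 0 ≤ V.v x := by
  by_cases h : x = 0
  · rw [h, V.v_zero]
  · exact (V.v_pos x h).le

lemma v_alg (r : O) : V.v (algebraMap O K r) ≤ 1 := (V.int _).2 ⟨r, rfl⟩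

lemma v_ne_zero {x : K} (h : V.v x ≠ 0) : x ≠ 0 := by
  rintro rfl
  exact h V.v_zero

lemma v_sum {α : Type*} (s : Finset α) (f : α → K) (M : ℝ) (hM : 0 ≤ M)
    (h : ∀ x ∈ s, V.v (f x) ≤ M) : V.v (∑ x ∈ s, f x) ≤ M := by
  classical
  induction s using Finset.induction_on with
  | empty => simpa [V.v_zero] using hM
  | insert x s hx ih =>
    rw [Finset.sum_insert hx]
    refine (V.v_add _ _).trans (max_le (h x (Finset.mem_insert_self _ _)) ?_)
    exact ih fun y hy => h y (Finset.mem_insert_of_mem hy)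

lemma v_div (x y : K) (hy : y ≠ 0) : V.v (x / y) = V.v x / V.v y := by
  have h := V.v_mul (x / y) y
  rw [div_mul_cancel₀ _ hy] at h
  rw [h, mul_div_assoc, div_self (V.v_pos y hy).ne', mul_one]

end ValData

section P6

variable {O : Type*} [CommRing O] {K : Type*} [Field K] [Algebra O K]
    {k : Type*} [Field k] [Algebra O k]
    {D₁ : Type*} [Category D₁] [Preadditive D₁] [Linear O D₁] [MonoidalCategory D₁]
    [MonoidalPreadditive D₁] [MonoidalLinear O D₁]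
    {D₂ : Type*} [Category D₂] [Preadditive D₂] [Linear O D₂] [MonoidalCategory D₂]
    [MonoidalPreadditive D₂] [MonoidalLinear O D₂]
    {C : Type*} [Category C] [Preadditive C] [Linear K C] [MonoidalCategory C]
    [MonoidalPreadditive C] [MonoidalLinear K C]
    (G₁ : D₁ ⥤ C) [G₁.Monoidal] (G₂ : D₂ ⥤ C) [G₂.Monoidal]
    {ι : Type} [Fintype ι]

lemma bx_smul {Z₁ Y₁ : D₁} {Z₂ Y₂ : D₂} (r s : K) (f : G₁.obj Z₁ ⟶ G₂.obj Z₂)
    (g : G₁.obj Y₁ ⟶ G₂.obj Y₂) :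
    bx G₁ G₂ (r • f) (s • g) = (r * s) • bx G₁ G₂ f g := by
  unfold bx
  rw [MonoidalCategory.tensorHom_def, MonoidalCategory.tensorHom_def,
    MonoidalLinear.smul_whiskerRight,
    MonoidalLinear.whiskerLeft_smul]
  simp only [Linear.smul_comp, Linear.comp_smul, smul_smul]
  rw [mul_comm s r]

/-- the isomorphism `s • φ` -/
def smulIso {X Y : C} (s : K) (hs : s ≠ 0) (φ : X ≅ Y) : X ≅ Y where
  hom := s • φ.hom
  inv := s⁻¹ • φ.inv
  hom_inv_id := by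
    rw [Linear.smul_comp, Linear.comp_smul, smul_smul, mul_inv_cancel₀ hs, one_smul, φ.hom_inv_id]
  inv_hom_id := by
    rw [Linear.smul_comp, Linear.comp_smul, smul_smul, inv_mul_cancel₀ hs, one_smul, φ.inv_hom_id]

theorem P6_rescale (V : ValData O K k)
    (h₁ : IsScalarExtension O K G₁) (h₂ : IsScalarExtension O K G₂)
    (S₁ : SFam O D₁ ι) (S₂ : SFam O D₂ ι) (o : ι) (eo₁ : S₁.X o ≅ 𝟙_ D₁) (eo₂ : S₂.X o ≅ 𝟙_ D₂)
    (star : ι → ι) (hstar : ∀ i, ∃ q : S₁.X o ⟶ S₁.X i ⊗ S₁.X (star i), G₁.map q ≠ 0)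
    (φ₀ : ∀ i, G₁.obj (S₁.X i) ≅ G₂.obj (S₂.X i))
    (hφo : Sq G₁ G₂ (φ₀ o).hom (un G₁ G₂) eo₁.hom eo₂.hom) :
    ∃ φ : ∀ i, G₁.obj (S₁.X i) ≅ G₂.obj (S₂.X i),
      Sq G₁ G₂ (φ o).hom (un G₁ G₂) eo₁.hom eo₂.hom ∧
      (∀ i j l (a : S₁.X l ⟶ S₁.X i ⊗ S₁.X j) (b : S₂.X i ⊗ S₂.X j ⟶ S₂.X l), ∃ c : O,
        G₁.map a ≫ bx G₁ G₂ (φ i).hom (φ j).hom ≫ G₂.map b = algebraMap O K c • (φ l).hom) ∧
      ∀ ord : ι → ℕ, ord o = 0 →
        (∀ i j l, (∃ (a : S₁.X l ⟶ S₁.X i ⊗ S₁.X j) (b : S₂.X i ⊗ S₂.X j ⟶ S₂.X l) (c : O),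
          G₁.map a ≫ bx G₁ G₂ (φ i).hom (φ j).hom ≫ G₂.map b = algebraMap O K c • (φ l).hom ∧
          algebraMap O k c ≠ 0) → ord i + ord j ≤ ord l) →
        ∀ i, ord i = 0 := by
  classical
  have hA₁ : G₁.Additive := h₁.additive
  have hA₂ : G₂.Additive := h₂.additive
  set T₁ : SFam K C ι := S₁.map G₁ h₁ with hT₁
  -- the coefficient
  let co : ∀ l, (G₁.obj (S₁.X l) ⟶ G₂.obj (S₂.X l)) → K :=
    fun l f => T₁.sc (i := l) (f ≫ (φ₀ l).inv)
  have co_spec : ∀ l f, f = co l f • (φ₀ l).hom := by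
    intro l f
    have h : co l f • 𝟙 (G₁.obj (S₁.X l)) = f ≫ (φ₀ l).inv :=
      T₁.sc_smul (i := l) (f ≫ (φ₀ l).inv)
    have h' : (co l f • 𝟙 (G₁.obj (S₁.X l))) ≫ (φ₀ l).hom = f := by
      rw [h, Category.assoc, Iso.inv_hom_id, Category.comp_id]
    rw [Linear.smul_comp, Category.id_comp] at h'
    exact h'.symm
  have co_inj : ∀ l (r s : K), r • (φ₀ l).hom = s • (φ₀ l).hom → r = s := by
    intro l r s h
    have h' : (r • (φ₀ l).hom) ≫ (φ₀ l).inv = (s • (φ₀ l).hom) ≫ (φ₀ l).inv := by rw [h]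
    rw [Linear.smul_comp, Linear.smul_comp, Iso.hom_inv_id] at h'
    exact T₁.smul_id_inj (i := l) h'
  have co_unique : ∀ l f (r : K), f = r • (φ₀ l).hom → co l f = r := by
    intro l f r h
    apply co_inj l
    rw [← co_spec, h]
  let P : ∀ i j l, (S₁.X l ⟶ S₁.X i ⊗ S₁.X j) → (S₂.X i ⊗ S₂.X j ⟶ S₂.X l) → K :=
    fun i j l a b => co l (G₁.map a ≫ bx G₁ G₂ (φ₀ i).hom (φ₀ j).hom ≫ G₂.map b)
  have P_spec : ∀ i j l a b, G₁.map a ≫ bx G₁ G₂ (φ₀ i).hom (φ₀ j).hom ≫ G₂.map b =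
      P i j l a b • (φ₀ l).hom := fun i j l a b => co_spec l _
  have P_eq : ∀ i j l a b (r : K), G₁.map a ≫ bx G₁ G₂ (φ₀ i).hom (φ₀ j).hom ≫ G₂.map b =
      r • (φ₀ l).hom → P i j l a b = r := fun i j l a b r h => co_unique l _ r h
  -- bilinearity
  have P_sum : ∀ i j l (a : S₁.X l ⟶ S₁.X i ⊗ S₁.X j) (b : S₂.X i ⊗ S₂.X j ⟶ S₂.X l),
      P i j l a b = ∑ x : Fin (S₁.n (S₁.X i ⊗ S₁.X j) l) × Fin (S₂.n (S₂.X i ⊗ S₂.X j) l),
        algebraMap O K (S₁.sc (a ≫ S₁.p _ l x.1)) * algebraMap O K (S₂.sc (S₂.q _ l x.2 ≫ b)) *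
          P i j l (S₁.q _ l x.1) (S₂.p _ l x.2) := by
    intro i j l a b
    apply P_eq
    conv_lhs => rw [S₁.from_simple a, S₂.to_simple b]
    rw [Functor.map_sum, Functor.map_sum, Preadditive.sum_comp, Finset.sum_smul,
      Fintype.sum_prod_type]
    refine Finset.sum_congr rfl fun c _ => ?_
    rw [Preadditive.comp_sum, Preadditive.comp_sum]
    refine Finset.sum_congr rfl fun d _ => ?_
    rw [h₁.map_smul', h₂.map_smul', Linear.smul_comp, Linear.comp_smul, Linear.comp_smul,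
      P_spec, smul_smul, smul_smul]
  -- maximal value
  let M : ι → ι → ι → ℝ := fun i j l =>
    ⨆ x : Fin (S₁.n (S₁.X i ⊗ S₁.X j) l) × Fin (S₂.n (S₂.X i ⊗ S₂.X j) l),
      V.v (P i j l (S₁.q _ l x.1) (S₂.p _ l x.2))
  have M_nonneg : ∀ i j l, 0 ≤ M i j l := fun i j l => Real.iSup_nonneg fun x => V.v_nonneg _
  have M_ge : ∀ i j l a b, V.v (P i j l a b) ≤ M i j l := by
    intro i j l a b
    rw [P_sum]
    apply V.v_sum _ _ _ (M_nonneg i j l)
    intro x _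
    rw [V.v_mul, V.v_mul]
    have e1 := V.v_alg (S₁.sc (a ≫ S₁.p _ l x.1))
    have e2 := V.v_alg (S₂.sc (S₂.q _ l x.2 ≫ b))
    have e3 := V.v_nonneg (algebraMap O K (S₁.sc (a ≫ S₁.p _ l x.1)))
    have e4 := V.v_nonneg (algebraMap O K (S₂.sc (S₂.q _ l x.2 ≫ b)))
    have e5 := V.v_nonneg (P i j l (S₁.q _ l x.1) (S₂.p _ l x.2))
    have e6 : V.v (P i j l (S₁.q _ l x.1) (S₂.p _ l x.2)) ≤ M i j l :=
      le_ciSup (f := fun x : Fin (S₁.n (S₁.X i ⊗ S₁.X j) l) × Fin (S₂.n (S₂.X i ⊗ S₂.X j) l) =>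
        V.v (P i j l (S₁.q _ l x.1) (S₂.p _ l x.2))) (Set.finite_range _).bddAbove x
    have e7 : V.v (algebraMap O K (S₁.sc (a ≫ S₁.p _ l x.1))) *
        V.v (algebraMap O K (S₂.sc (S₂.q _ l x.2 ≫ b))) ≤ 1 := mul_le_one₀ e1 e4 e2
    calc _ ≤ 1 * V.v (P i j l (S₁.q _ l x.1) (S₂.p _ l x.2)) :=
          mul_le_mul_of_nonneg_right e7 e5
      _ ≤ M i j l := by rw [one_mul]; exact e6
  have M_att : ∀ i j l, M i j l ≠ 0 → ∃ a b, V.v (P i j l a b) = M i j l := by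
    intro i j l h
    by_cases hne : Nonempty (Fin (S₁.n (S₁.X i ⊗ S₁.X j) l) × Fin (S₂.n (S₂.X i ⊗ S₂.X j) l))
    · obtain ⟨x, hx⟩ := exists_eq_ciSup_of_finite
        (f := fun x : Fin (S₁.n (S₁.X i ⊗ S₁.X j) l) × Fin (S₂.n (S₂.X i ⊗ S₂.X j) l) =>
        V.v (P i j l (S₁.q _ l x.1) (S₂.p _ l x.2)))
      exact ⟨_, _, hx⟩
    · exfalso
      apply h
      rw [not_nonempty_iff] at hne
      exact Real.iSup_of_isEmpty _
  have M_zero : ∀ i j l, (∀ a b, P i j l a b = 0) → M i j l = 0 := by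
    intro i j l h
    by_contra hne
    obtain ⟨a, b, hab⟩ := M_att i j l hne
    rw [h, V.v_zero] at hab
    exact hne hab.symm
  -- products with the unit
  have unitL : ∀ j (a : S₁.X j ⟶ S₁.X o ⊗ S₁.X j) (b : S₂.X o ⊗ S₂.X j ⟶ S₂.X j),
      P o j j a b = algebraMap O K (S₁.sc (a ≫ (eo₁.hom ▷ S₁.X j) ≫ (λ_ _).hom)) *
        algebraMap O K (S₂.sc ((λ_ _).inv ≫ (eo₂.inv ▷ S₂.X j) ≫ b)) := by
    intro j a b
    apply P_eq
    have hsq : Sq G₁ G₂ (bx G₁ G₂ (φ₀ o).hom (φ₀ j).hom) (φ₀ j).hom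
        ((eo₁.hom ▷ S₁.X j) ≫ (λ_ _).hom) ((eo₂.hom ▷ S₂.X j) ≫ (λ_ _).hom) :=
      (Sq.whiskerRight (φ₀ j).hom hφo).comp (Sq.leftUnitor (φ₀ j).hom)
    have hb : b = ((eo₂.hom ▷ S₂.X j) ≫ (λ_ _).hom) ≫ ((λ_ _).inv ≫ (eo₂.inv ▷ S₂.X j) ≫ b) := by
      simp
    have ha : a ≫ (eo₁.hom ▷ S₁.X j) ≫ (λ_ _).hom =
        S₁.sc (a ≫ (eo₁.hom ▷ S₁.X j) ≫ (λ_ _).hom) • 𝟙 _ := (S₁.sc_smul _).symm
    have hb2 : (λ_ _).inv ≫ (eo₂.inv ▷ S₂.X j) ≫ b =
        S₂.sc ((λ_ _).inv ≫ (eo₂.inv ▷ S₂.X j) ≫ b) • 𝟙 _ := (S₂.sc_smul _).symm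
    unfold Sq at hsq
    calc G₁.map a ≫ bx G₁ G₂ (φ₀ o).hom (φ₀ j).hom ≫ G₂.map b
        = G₁.map a ≫ (bx G₁ G₂ (φ₀ o).hom (φ₀ j).hom ≫
            G₂.map ((eo₂.hom ▷ S₂.X j) ≫ (λ_ _).hom)) ≫
            G₂.map ((λ_ _).inv ≫ (eo₂.inv ▷ S₂.X j) ≫ b) := by
          conv_lhs => rw [hb]
          rw [G₂.map_comp]
          simp only [Category.assoc]
      _ = G₁.map (a ≫ (eo₁.hom ▷ S₁.X j) ≫ (λ_ _).hom) ≫ (φ₀ j).hom ≫
            G₂.map ((λ_ _).inv ≫ (eo₂.inv ▷ S₂.X j) ≫ b) := by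
          rw [← hsq, G₁.map_comp a]
          simp only [Category.assoc]
      _ = _ := by
          rw [ha, hb2, h₁.map_smul', h₂.map_smul', G₁.map_id, G₂.map_id, Linear.smul_comp,
            Linear.comp_smul, Category.comp_id, Category.id_comp, smul_smul, S₁.sc_smul_id,
            S₂.sc_smul_id]
  have unitR : ∀ j (a : S₁.X j ⟶ S₁.X j ⊗ S₁.X o) (b : S₂.X j ⊗ S₂.X o ⟶ S₂.X j),
      P j o j a b = algebraMap O K (S₁.sc (a ≫ (S₁.X j ◁ eo₁.hom) ≫ (ρ_ _).hom)) *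
        algebraMap O K (S₂.sc ((ρ_ _).inv ≫ (S₂.X j ◁ eo₂.inv) ≫ b)) := by
    intro j a b
    apply P_eq
    have hsq : Sq G₁ G₂ (bx G₁ G₂ (φ₀ j).hom (φ₀ o).hom) (φ₀ j).hom
        ((S₁.X j ◁ eo₁.hom) ≫ (ρ_ _).hom) ((S₂.X j ◁ eo₂.hom) ≫ (ρ_ _).hom) :=
      (Sq.whiskerLeft (φ₀ j).hom hφo).comp (Sq.rightUnitor (φ₀ j).hom)
    have hb : b = ((S₂.X j ◁ eo₂.hom) ≫ (ρ_ _).hom) ≫ ((ρ_ _).inv ≫ (S₂.X j ◁ eo₂.inv) ≫ b) := by
      simp
    have ha : a ≫ (S₁.X j ◁ eo₁.hom) ≫ (ρ_ _).hom =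
        S₁.sc (a ≫ (S₁.X j ◁ eo₁.hom) ≫ (ρ_ _).hom) • 𝟙 _ := (S₁.sc_smul _).symm
    have hb2 : (ρ_ _).inv ≫ (S₂.X j ◁ eo₂.inv) ≫ b =
        S₂.sc ((ρ_ _).inv ≫ (S₂.X j ◁ eo₂.inv) ≫ b) • 𝟙 _ := (S₂.sc_smul _).symm
    unfold Sq at hsq
    calc G₁.map a ≫ bx G₁ G₂ (φ₀ j).hom (φ₀ o).hom ≫ G₂.map b
        = G₁.map a ≫ (bx G₁ G₂ (φ₀ j).hom (φ₀ o).hom ≫
            G₂.map ((S₂.X j ◁ eo₂.hom) ≫ (ρ_ _).hom)) ≫
            G₂.map ((ρ_ _).inv ≫ (S₂.X j ◁ eo₂.inv) ≫ b) := by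
          conv_lhs => rw [hb]
          rw [G₂.map_comp]
          simp only [Category.assoc]
      _ = G₁.map (a ≫ (S₁.X j ◁ eo₁.hom) ≫ (ρ_ _).hom) ≫ (φ₀ j).hom ≫
            G₂.map ((ρ_ _).inv ≫ (S₂.X j ◁ eo₂.inv) ≫ b) := by
          rw [← hsq, G₁.map_comp a]
          simp only [Category.assoc]
      _ = _ := by
          rw [ha, hb2, h₁.map_smul', h₂.map_smul', G₁.map_id, G₂.map_id, Linear.smul_comp,
            Linear.comp_smul, Category.comp_id, Category.id_comp, smul_smul, S₁.sc_smul_id,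
            S₂.sc_smul_id]
  have oneOf : ∀ x y : O, V.v (algebraMap O K x * algebraMap O K y) ≤ 1 := by
    intro x y
    rw [V.v_mul]
    exact mul_le_one₀ (V.v_alg x) (V.v_nonneg _) (V.v_alg y)
  have M_l : ∀ j, M o j j = 1 := by
    intro j
    have h1 : V.v (P o j j ((λ_ _).inv ≫ (eo₁.inv ▷ S₁.X j)) ((eo₂.hom ▷ S₂.X j) ≫ (λ_ _).hom))
        = 1 := by
      rw [unitL]
      simp [V.v_one]
    apply le_antisymm
    · by_contra hc
      push Not at hc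
      have hne : M o j j ≠ 0 := by
        intro h0
        rw [h0] at hc
        linarith
      obtain ⟨a, b, hab⟩ := M_att o j j hne
      rw [unitL] at hab
      have := oneOf (S₁.sc (a ≫ (eo₁.hom ▷ S₁.X j) ≫ (λ_ _).hom))
        (S₂.sc ((λ_ _).inv ≫ (eo₂.inv ▷ S₂.X j) ≫ b))
      linarith
    · rw [← h1]; exact M_ge _ _ _ _ _
  have M_r : ∀ j, M j o j = 1 := by
    intro j
    have h1 : V.v (P j o j ((ρ_ _).inv ≫ (S₁.X j ◁ eo₁.inv)) ((S₂.X j ◁ eo₂.hom) ≫ (ρ_ _).hom))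
        = 1 := by
      rw [unitR]
      simp [V.v_one]
    apply le_antisymm
    · by_contra hc
      push Not at hc
      have hne : M j o j ≠ 0 := by
        intro h0
        rw [h0] at hc
        linarith
      obtain ⟨a, b, hab⟩ := M_att j o j hne
      rw [unitR] at hab
      have := oneOf (S₁.sc (a ≫ (S₁.X j ◁ eo₁.hom) ≫ (ρ_ _).hom))
        (S₂.sc ((ρ_ _).inv ≫ (S₂.X j ◁ eo₂.inv) ≫ b))
      linarith
    · rw [← h1]; exact M_ge _ _ _ _ _
  have co_zero : ∀ l, co l 0 = 0 := fun l => co_unique l _ 0 (by rw [zero_smul])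
  have M_l0 : ∀ j l, l ≠ j → M o j l = 0 := by
    intro j l hlj
    apply M_zero
    intro a b
    have h0 := S₁.hom_zero l j hlj (a ≫ (eo₁.hom ▷ S₁.X j) ≫ (λ_ _).hom)
    have ha : a = 0 := by
      have : a = (a ≫ (eo₁.hom ▷ S₁.X j) ≫ (λ_ _).hom) ≫ (λ_ _).inv ≫ (eo₁.inv ▷ S₁.X j) := by
        simp
      rw [this, h0, zero_comp]
    apply P_eq
    rw [ha, Functor.map_zero, zero_comp, zero_smul]
  have M_r0 : ∀ j l, l ≠ j → M j o l = 0 := by
    intro j l hlj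
    apply M_zero
    intro a b
    have h0 := S₁.hom_zero l j hlj (a ≫ (S₁.X j ◁ eo₁.hom) ≫ (ρ_ _).hom)
    have ha : a = 0 := by
      have : a = (a ≫ (S₁.X j ◁ eo₁.hom) ≫ (ρ_ _).hom) ≫ (ρ_ _).inv ≫ (S₁.X j ◁ eo₁.inv) := by
        simp
      rw [this, h0, zero_comp]
    apply P_eq
    rw [ha, Functor.map_zero, zero_comp, zero_smul]
  have M_star : ∀ i, M i (star i) o ≠ 0 := by
    intro i hM
    obtain ⟨q, hq⟩ := hstar i
    apply hq
    have hz : ∀ l (b : S₂.X i ⊗ S₂.X (star i) ⟶ S₂.X l),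
        G₁.map q ≫ bx G₁ G₂ (φ₀ i).hom (φ₀ (star i)).hom ≫ G₂.map b = 0 := by
      intro l b
      by_cases hl : o = l
      · subst hl
        rw [P_spec]
        have h1 := M_ge i (star i) o q b
        rw [hM] at h1
        have h2 : P i (star i) o q b = 0 := by
          by_contra hne
          exact absurd (V.v_pos _ hne) (not_lt.mpr h1)
        rw [h2, zero_smul]
      · have h1 : (G₁.map q ≫ bx G₁ G₂ (φ₀ i).hom (φ₀ (star i)).hom ≫ G₂.map b) ≫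
            (φ₀ l).inv = 0 := T₁.hom_zero o l hl _
        have h2 : G₁.map q ≫ bx G₁ G₂ (φ₀ i).hom (φ₀ (star i)).hom ≫ G₂.map b =
            ((G₁.map q ≫ bx G₁ G₂ (φ₀ i).hom (φ₀ (star i)).hom ≫ G₂.map b) ≫ (φ₀ l).inv) ≫
              (φ₀ l).hom := by
          rw [Category.assoc, Iso.inv_hom_id, Category.comp_id]
        rw [h2, h1, zero_comp]
    have hbx : G₁.map q ≫ bx G₁ G₂ (φ₀ i).hom (φ₀ (star i)).hom = 0 := by
      have htot : G₂.map (∑ l, ∑ c, S₂.p (S₂.X i ⊗ S₂.X (star i)) l c ≫ S₂.q _ l c) = 𝟙 _ := by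
        rw [S₂.total, G₂.map_id]
      rw [← Category.comp_id (G₁.map q ≫ bx G₁ G₂ (φ₀ i).hom (φ₀ (star i)).hom), ← htot,
        Functor.map_sum, Preadditive.comp_sum]
      apply Finset.sum_eq_zero
      intro l _
      rw [Functor.map_sum, Preadditive.comp_sum]
      apply Finset.sum_eq_zero
      intro c _
      rw [G₂.map_comp, ← Category.assoc, Category.assoc (G₁.map q), hz, zero_comp]
    rw [← bxi_hom] at hbx
    rw [← Category.comp_id (G₁.map q), ← (bxi G₁ G₂ (φ₀ i) (φ₀ (star i))).hom_inv_id,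
      ← Category.assoc, hbx, zero_comp]
  -- linear programming
  obtain ⟨α, hαΓ, hαo, hαle, hαord⟩ := H2_lp V.Γ V.Γ_ne (fun i j l => M i j l ≠ 0)
    (fun i j l => Real.log (M i j l))
    (by
      intro i j l h
      obtain ⟨a, b, hab⟩ := M_att i j l h
      rw [V.Γ_iff]
      refine ⟨P i j l a b, ?_, by rw [hab]⟩
      apply V.v_ne_zero
      rw [hab]; exact h)
    o
    (by
      intro j l h
      have hlj : l = j := by
        by_contra hne
        exact h (M_l0 j l hne)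
      exact ⟨hlj, by rw [M_l, Real.log_one]⟩)
    (by
      intro j l h
      have hlj : l = j := by
        by_contra hne
        exact h (M_r0 j l hne)
      exact ⟨hlj, by rw [M_r, Real.log_one]⟩)
    star M_star
  have hs : ∀ i, ∃ s : K, s ≠ 0 ∧ Real.log (V.v s) = -α i ∧ (i = o → s = 1) := by
    intro i
    by_cases hi : i = o
    · refine ⟨1, one_ne_zero, ?_, fun _ => rfl⟩
      rw [V.v_one, Real.log_one, hi, hαo, neg_zero]
    · obtain ⟨s, hs0, hs1⟩ := (V.Γ_iff (-α i)).1 (V.Γ.neg_mem (hαΓ i))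
      exact ⟨s, hs0, hs1, fun h => absurd h hi⟩
  choose s hs0 hslog hso using hs
  have key : ∀ i j l (a : S₁.X l ⟶ S₁.X i ⊗ S₁.X j) (b : S₂.X i ⊗ S₂.X j ⟶ S₂.X l),
      G₁.map a ≫ bx G₁ G₂ (s i • (φ₀ i).hom) (s j • (φ₀ j).hom) ≫ G₂.map b =
        (s i * s j * P i j l a b / s l) • (s l • (φ₀ l).hom) := by
    intro i j l a b
    rw [bx_smul, Linear.smul_comp, Linear.comp_smul, P_spec, smul_smul, smul_smul,
      div_mul_cancel₀ _ (hs0 l)]
  have logv : ∀ i j l a b, P i j l a b ≠ 0 →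
      Real.log (V.v (s i * s j * P i j l a b / s l)) =
        Real.log (V.v (P i j l a b)) - (α i + α j - α l) := by
    intro i j l a b hP
    have p1 := V.v_pos _ (hs0 i)
    have p2 := V.v_pos _ (hs0 j)
    have p3 := V.v_pos _ (hs0 l)
    have p4 := V.v_pos _ hP
    rw [V.v_div _ _ (hs0 l), V.v_mul, V.v_mul, Real.log_div (by positivity) (by positivity),
      Real.log_mul (by positivity) (by positivity), Real.log_mul (by positivity) (by positivity),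
      hslog, hslog, hslog]
    ring
  refine ⟨fun i => smulIso (s i) (hs0 i) (φ₀ i), ?_, ?_, ?_⟩
  · have e : (smulIso (s o) (hs0 o) (φ₀ o)).hom = (φ₀ o).hom := by
      change s o • (φ₀ o).hom = _
      rw [hso o rfl, one_smul]
    rw [e]
    exact hφo
  · intro i j l a b
    have hv : V.v (s i * s j * P i j l a b / s l) ≤ 1 := by
      by_cases hP : P i j l a b = 0
      · rw [hP, mul_zero, zero_div, V.v_zero]; exact zero_le_one
      · have hMne : M i j l ≠ 0 := by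
          intro h0
          have := M_ge i j l a b
          rw [h0] at this
          exact absurd (V.v_pos _ hP) (not_lt.mpr this)
        have h1 := hαle i j l hMne
        have h2 := logv i j l a b hP
        have h3 : Real.log (V.v (P i j l a b)) ≤ Real.log (M i j l) :=
          Real.log_le_log (V.v_pos _ hP) (M_ge i j l a b)
        have h4 : 0 < V.v (s i * s j * P i j l a b / s l) := by
          apply V.v_pos
          exact div_ne_zero (mul_ne_zero (mul_ne_zero (hs0 i) (hs0 j)) hP) (hs0 l)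
        rw [← Real.log_nonpos_iff h4.le, h2]
        linarith
    obtain ⟨c, hc⟩ := (V.int _).1 hv
    refine ⟨c, ?_⟩
    rw [hc]
    exact key i j l a b
  · intro ord hord0 hord
    apply hαord ord hord0
    intro i j l hne heq
    obtain ⟨a, b, hab⟩ := M_att i j l hne
    have hP : P i j l a b ≠ 0 := by
      apply V.v_ne_zero
      rw [hab]; exact hne
    have h2 := logv i j l a b hP
    rw [hab, heq, sub_self] at h2
    have h4 : 0 < V.v (s i * s j * P i j l a b / s l) := by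
      apply V.v_pos
      exact div_ne_zero (mul_ne_zero (mul_ne_zero (hs0 i) (hs0 j)) hP) (hs0 l)
    have h5 : V.v (s i * s j * P i j l a b / s l) = 1 := Real.eq_one_of_pos_of_log_eq_zero h4 h2
    obtain ⟨c, hc⟩ := (V.int _).1 h5.le
    apply hord i j l
    refine ⟨a, b, c, ?_, ?_⟩
    · rw [hc]; exact key i j l a b
    · intro h0
      have := (V.res c).1 h0
      rw [hc, h5] at this
      exact lt_irrefl _ this

end P6

end Pool.Agent.Lib.MP_21cf63_al
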