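import Mathlib
import Pool.Agent.Lib.MP_21cf63_al.Glue
import Pool.Agent.Lib.MP_21cf63_al.BaseChange
import Pool.Agent.Lib.MP_21cf63_al.Rescale
import Pool.Agent.Lib.MP_21cf63_al.Padic

/-!
Uniqueness of integral forms and of reductions.
-/

set_option linter.unusedSectionVars false
set_option linter.style.haveILetI false

open CategoryTheory MonoidalCategory Limits Functor.LaxMonoidal Functor.OplaxMonoidal

namespace Pool.Agent.Lib.MP_21cf63_al

universe v₁ u₁ v₂ u₂ v₃ u₃ v₄ u₄ v₅ u₅ w w' w''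

section General

variable {O : Type w} [CommRing O] {K : Type w'} [Field K] [Algebra O K]
    {k : Type w''} [Field k] [Algebra O k]
    {D₁ : Type u₁} [Category.{v₁} D₁] [Preadditive D₁] [Linear O D₁] [MonoidalCategory D₁]
    [MonoidalPreadditive D₁] [MonoidalLinear O D₁]
    {D₂ : Type u₂} [Category.{v₂} D₂] [Preadditive D₂] [Linear O D₂] [MonoidalCategory D₂]
    [MonoidalPreadditive D₂] [MonoidalLinear O D₂]
    {C : Type u₃} [Category.{v₃} C] [Preadditive C] [Linear K C] [MonoidalCategory C]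
    [MonoidalPreadditive C] [MonoidalLinear K C]
    {E : Type u₄} [Category.{v₄} E] [Preadditive E] [Linear k E] [MonoidalCategory E]
    [MonoidalPreadditive E] [MonoidalLinear k E]

lemma sq_init (G₁ : D₁ ⥤ C) [G₁.Monoidal] (G₂ : D₂ ⥤ C) [G₂.Monoidal] {X₁ : D₁} {X₂ : D₂}
    (e₁ : X₁ ≅ 𝟙_ D₁) (e₂ : X₂ ≅ 𝟙_ D₂) :
    Sq G₁ G₂ (G₁.mapIso e₁ ≪≫ uni G₁ G₂ ≪≫ (G₂.mapIso e₂).symm).hom (un G₁ G₂) e₁.hom
      e₂.hom := by
  unfold Sq
  simp only [Iso.trans_hom, Functor.mapIso_hom, uni_hom, Iso.symm_hom, Functor.mapIso_inv,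
    Category.assoc]
  rw [← Functor.map_comp, e₂.inv_hom_id, CategoryTheory.Functor.map_id, Category.comp_id]

theorem forms_unique_aux (V : ValData O K k) (hinj : Function.Injective (algebraMap O K))
    (hsurj : Function.Surjective (algebraMap O k))
    (hloc : ∀ r : O, algebraMap O k r ≠ 0 → IsUnit r)
    [HasFiniteBiproducts D₁] [HasFiniteBiproducts D₂] [HasFiniteBiproducts E]
    (hE : ∀ X : E, Nonempty (HasRightDual X)) (hE' : ∀ X : E, Nonempty (HasLeftDual X))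
    (hD₁ : ∀ X : D₁, Nonempty (HasLeftDual X))
    (G₁ : D₁ ⥤ C) [G₁.Monoidal] (G₂ : D₂ ⥤ C) [G₂.Monoidal] (F : D₁ ⥤ E) [F.Monoidal]
    (h₁ : IsScalarExtension O K G₁) (h₂ : IsScalarExtension O K G₂)
    (hF : IsScalarExtension O k F) {ι : Type} [Fintype ι] (S₁ : SFam O D₁ ι)
    (S₂ : SFam O D₂ ι) (o : ι) (eo₁ : S₁.X o ≅ 𝟙_ D₁) (eo₂ : S₂.X o ≅ 𝟙_ D₂)
    (φ₁ : ∀ i, G₁.obj (S₁.X i) ≅ G₂.obj (S₂.X i)) :
    ∃ e : D₁ ≌ D₂, Nonempty e.functor.Monoidal ∧ e.functor.Additive ∧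
      ∀ (r : O) (X Y : D₁) (f : X ⟶ Y), e.functor.map (r • f) = r • e.functor.map f := by
  classical
  have : Nontrivial O := (algebraMap O K).domain_nontrivial
  let φ₀ : ∀ i, G₁.obj (S₁.X i) ≅ G₂.obj (S₂.X i) :=
    Function.update φ₁ o (G₁.mapIso eo₁ ≪≫ uni G₁ G₂ ≪≫ (G₂.mapIso eo₂).symm)
  have hφo : Sq G₁ G₂ (φ₀ o).hom (un G₁ G₂) eo₁.hom eo₂.hom := by
    have : φ₀ o = G₁.mapIso eo₁ ≪≫ uni G₁ G₂ ≪≫ (G₂.mapIso eo₂).symm :=
      Function.update_self _ _ _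
    rw [this]
    exact sq_init G₁ G₂ eo₁ eo₂
  obtain ⟨P⟩ := S₁.exists_starData hD₁
  obtain ⟨φ, hφ, hcoef, hord⟩ := P6_rescale G₁ G₂ V h₁ h₂ S₁ S₂ o eo₁ eo₂ P.star (by
    intro i
    letI := P.pair i
    have he0 : ε_ (S₁.X (P.star i)) (S₁.X i) ≫ eo₁.inv ≠ 0 := by
      intro h
      apply S₁.eval_ne_zero (i := i) (S₁.X (P.star i))
      rw [← cancel_mono eo₁.inv, zero_comp]
      exact h
    obtain ⟨q, p, hqp⟩ := SFam.n_pos_split (SFam.n_pos_to _ he0)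
    refine ⟨q, ?_⟩
    intro h
    apply (S₁.map G₁ h₁).id_ne_zero' o
    have : G₁.map (q ≫ p) = 0 := by rw [Functor.map_comp, h, zero_comp]
    rw [hqp, CategoryTheory.Functor.map_id] at this
    exact this) φ₀ hφo
  have hten := match_good h₁ h₂ hinj hsurj hF o eo₁ eo₂ hφ hcoef hord hE hE' hD₁ hloc
  exact P10_glue h₁ h₂ hinj o eo₁ eo₂ hφ hten

/-- Integral forms with a common generic fibre are equivalent. -/
theorem forms_unique (V : ValData O K k) (hinj : Function.Injective (algebraMap O K))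
    (hsurj : Function.Surjective (algebraMap O k))
    (hloc : ∀ r : O, algebraMap O k r ≠ 0 → IsUnit r)
    (hD₁ : SemisimpleRigid O D₁) (hD₂ : SemisimpleRigid O D₂) (hE : SemisimpleRigid k E)
    (G₁ : D₁ ⥤ C) [G₁.Monoidal] (G₂ : D₂ ⥤ C) [G₂.Monoidal] (F : D₁ ⥤ E) [F.Monoidal]
    (h₁ : IsScalarExtension O K G₁) (h₂ : IsScalarExtension O K G₂)
    (hF : IsScalarExtension O k F) :
    ∃ e : D₁ ≌ D₂, Nonempty e.functor.Monoidal ∧ e.functor.Additive ∧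
      ∀ (r : O) (X Y : D₁) (f : X ⟶ Y), e.functor.map (r • f) = r • e.functor.map f := by
  classical
  have := hD₁.hasFiniteBiproducts
  have := hD₂.hasFiniteBiproducts
  have := hE.hasFiniteBiproducts
  obtain ⟨ι, hι, X₁, o, ⟨eo₁⟩, hX₁, hX₁', hX₁''⟩ := hD₁.simples
  obtain ⟨ι', hι', X₂, o', ⟨eo'⟩, hX₂, hX₂', hX₂''⟩ := hD₂.simples
  have := Fintype.ofFinite ι
  have := Fintype.ofFinite ι'
  obtain ⟨σ, hσ⟩ := H10_match_simples ((SFam.ofDecomp X₁ hX₁ hX₁' hX₁'').map G₁ h₁)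
    ((SFam.ofDecomp X₂ hX₂ hX₂' hX₂'').map G₂ h₂)
  have hoo : σ o = o' := by
    obtain ⟨e⟩ := hσ o
    apply ((SFam.ofDecomp X₂ hX₂ hX₂' hX₂'').map G₂ h₂).eq_of_iso
    exact e.symm ≪≫ G₁.mapIso eo₁ ≪≫ uni G₁ G₂ ≪≫ (G₂.mapIso eo').symm
  subst hoo
  exact forms_unique_aux V hinj hsurj hloc hE.rightDual hE.leftDual hD₁.leftDual G₁ G₂ F h₁ h₂ hF
    (SFam.ofDecomp X₁ hX₁ hX₁' hX₁'') ((SFam.ofDecomp X₂ hX₂ hX₂' hX₂'').reindex σ) o eo₁ eo'
    (fun i => (hσ i).some)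

end General

section Padic

lemma padic_data (p : ℕ) [Fact p.Prime] (k : Type w) [Field k] [Algebra (Zbar p) k]
    (hk : Function.Surjective (algebraMap (Zbar p) k)) :
    (Nonempty (ValData (Zbar p) (PadicAlgCl p) k)) ∧
      ∀ r : Zbar p, algebraMap (Zbar p) k r ≠ 0 → IsUnit r := by
  obtain ⟨hloc, hres⟩ := H6_local p
  obtain ⟨Γ, hΓ, hΓ'⟩ := H6_valueGroup p
  have hker : ∀ r : Zbar p, algebraMap (Zbar p) k r = 0 ↔
      r ∈ IsLocalRing.maximalIdeal (Zbar p) := by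
    intro r
    have hm : (RingHom.ker (algebraMap (Zbar p) k)).IsMaximal :=
      RingHom.ker_isMaximal_of_surjective _ hk
    rw [← IsLocalRing.eq_maximalIdeal hm, RingHom.mem_ker]
  refine ⟨⟨
    { v := fun x => ‖x‖
      v_zero := norm_zero
      v_pos := fun x hx => norm_pos_iff.2 hx
      v_mul := fun x y => norm_mul x y
      v_add := fun x y => PadicAlgCl.isNonarchimedean p x y
      int := fun x => ?_
      res := fun r => ?_
      Γ := Γ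
      Γ_ne := hΓ
      Γ_iff := hΓ' }⟩, ?_⟩
  · rw [← H6_integral]
    constructor
    · intro hx
      exact ⟨⟨x, hx⟩, rfl⟩
    · rintro ⟨r, rfl⟩
      exact r.2
  · rw [hker, ← IsLocalRing.residue_eq_zero_iff, hres]
    rfl
  · intro r hr
    rw [Ne, hker, IsLocalRing.mem_maximalIdeal, mem_nonunits_iff, not_not] at hr
    exact hr

theorem good_reduction_unique (p : ℕ) [Fact p.Prime] (k : Type w) [Field k] [Algebra (Zbar p) k]
    (hk : Function.Surjective (algebraMap (Zbar p) k))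
    [Algebra (AlgebraicClosure ℚ) (PadicAlgCl p)]
    (C : Type u₁) [Category.{v₁} C] [Preadditive C] [Linear (AlgebraicClosure ℚ) C]
    [MonoidalCategory C] [MonoidalPreadditive C] [MonoidalLinear (AlgebraicClosure ℚ) C]
    (E₁ : Type u₁) [Category.{v₁} E₁] [Preadditive E₁] [Linear k E₁]
    [MonoidalCategory E₁] [MonoidalPreadditive E₁] [MonoidalLinear k E₁]
    (E₂ : Type u₁) [Category.{v₁} E₂] [Preadditive E₂] [Linear k E₂]
    [MonoidalCategory E₂] [MonoidalPreadditive E₂] [MonoidalLinear k E₂]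
    (h₁ : IsGoodReduction p k C E₁) (h₂ : IsGoodReduction p k C E₂) :
    ∃ e : E₁ ≌ E₂, Nonempty e.functor.Monoidal ∧ e.functor.Additive ∧
      ∀ (r : k) (X Y : E₁) (f : X ⟶ Y), e.functor.map (r • f) = r • e.functor.map f := by
  obtain ⟨hE₁, CK₁, _, _, _, _, _, _, H₁, _, hH₁, D₁, _, _, _, _, _, _, hD₁, F₁, _, G₁, _,
    hF₁, hG₁⟩ := h₁
  obtain ⟨hE₂, CK₂, _, _, _, _, _, _, H₂, _, hH₂, D₂, _, _, _, _, _, _, hD₂, F₂, _, G₂, _,
    hF₂, hG₂⟩ := h₂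
  obtain ⟨⟨V⟩, hloc⟩ := padic_data p k hk
  -- identify the two generic fibres
  obtain ⟨e, ⟨_⟩, he, he'⟩ := H8_baseChange_unique H₂ H₁ hH₂ hH₁
  have hG₂' : IsScalarExtension (Zbar p) (PadicAlgCl p) (G₂ ⋙ e.functor) :=
    H11_comp_equiv G₂ hG₂ e he he'
  have hinj : Function.Injective (algebraMap (Zbar p) (PadicAlgCl p)) := Subtype.val_injective
  obtain ⟨e', ⟨_⟩, ha, hs⟩ := forms_unique V hinj hk hloc hD₁ hD₂ hE₁ G₁ (G₂ ⋙ e.functor) F₁
    hG₁ hG₂' hF₁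
  have hF₂' : IsScalarExtension (Zbar p) k (e'.functor ⋙ F₂) := H12_equiv_comp F₂ hF₂ e' ha hs
  exact H8_baseChange_unique F₁ (e'.functor ⋙ F₂) hF₁ hF₂'

end Padic

end Pool.Agent.Lib.MP_21cf63_al
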